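import Pool.Agent.Q291.BC.Count

/-!
Summation by parts and uniform bounds for the mean number of boundary clusters.
-/

set_option autoImplicit false

namespace Pool.Agent.Q291.BC

open MeasureTheory Filter Topology H731B

/-- the mean number per boundary vertex -/
noncomputable def Sm (n k : ℕ) : ℝ := ∑ j ∈ Finset.Icc k n, (tl n j - tl n (j + 1)) / (j : ℝ)

theorem abel_gen (T : ℕ → ℝ) {K : ℕ} (hK : 1 ≤ K) : ∀ m, K ≤ m →
    ∑ j ∈ Finset.Icc K m, (T j - T (j + 1)) / (j : ℝ) =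
      T K / K - ∑ i ∈ Finset.Ico K m, T (i + 1) / ((i : ℝ) * ((i : ℝ) + 1)) - T (m + 1) / m := by
  intro m hm
  induction m, hm using Nat.le_induction with
  | base =>
    have h0 : (K : ℝ) ≠ 0 := by
      have : 0 < K := by omega
      positivity
    simp only [Finset.Icc_self, Finset.sum_singleton, Finset.Ico_self, Finset.sum_empty, sub_zero]
    ring
  | succ m hm ih =>
    have h0 : (m : ℝ) ≠ 0 := by
      have : 0 < m := by omega
      positivity
    have h1 : (m : ℝ) + 1 ≠ 0 := by positivity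
    rw [Finset.sum_Icc_succ_top (by omega), ih, Finset.sum_Ico_succ_top hm]
    push_cast
    field_simp
    ring

theorem Sm_eq {n K : ℕ} (hK : 1 ≤ K) (hKn : K ≤ n) :
    Sm n K = tl n K / K - ∑ i ∈ Finset.Ico K n, tl n (i + 1) / ((i : ℝ) * ((i : ℝ) + 1)) := by
  unfold Sm
  rw [abel_gen (tl n) hK n hKn, tl_gt (Nat.lt_succ_self n)]
  ring

theorem ww_succ_le {n k : ℕ} (hn : 1 ≤ n) (hk : k + 1 ≤ n) : ww n (k + 1) ≤ ww n k := by
  rcases Nat.eq_zero_or_pos k with h | h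
  · subst h
    simp [ww]
  · have hw : ww n (k + 1) = ww n k * ((1 - (k : ℝ)^2 / (n : ℝ)^2) / (1 - (k : ℝ)^2 / (4 * (n : ℝ)^2))) := by
      unfold ww
      obtain ⟨j, rfl⟩ : ∃ j, k = j + 1 := ⟨k - 1, by omega⟩
      rw [show j + 1 + 1 - 1 = j + 1 by omega, show j + 1 - 1 = j by omega,
        Finset.prod_Icc_succ_top (by omega)]
    rw [hw]
    apply mul_le_of_le_one_right (ww_nonneg (by omega))
    obtain ⟨h1, h2, -, h4⟩ := F2b.fac hn hk (i := k) (by rw [Finset.mem_Icc]; omega)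
    rw [h4]
    have : 0 ≤ 3 * ((k : ℝ) ^ 2 / (4 * (n : ℝ) ^ 2)) / (1 - (k : ℝ)^2 / (4 * (n : ℝ)^2)) := by
      apply div_nonneg <;> linarith
    linarith

theorem ww_anti {n k l : ℕ} (hn : 1 ≤ n) (hkl : k ≤ l) (hl : l ≤ n) : ww n l ≤ ww n k := by
  induction l, hkl using Nat.le_induction with
  | base => exact le_rfl
  | succ l hkl ih => exact (ww_succ_le hn hl).trans (ih (by omega))

/-- the central binomial weight -/
noncomputable def aj (k : ℕ) : ℝ := ((2 * k).choose k : ℝ) / 4 ^ k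

theorem aj_pos (k : ℕ) : 0 < aj k := by
  unfold aj
  have : 0 < (2 * k).choose k := Nat.choose_pos (by omega)
  positivity

theorem aj_step (k : ℕ) : aj (k + 1) * (2 * k + 2) = (2 * k + 1) * aj k := by
  have h := F1.binom_step k
  unfold aj
  rw [pow_succ]
  have h4 : (4 : ℝ) ^ k ≠ 0 := by positivity
  field_simp
  linear_combination (2 : ℝ) * h

theorem aj_anti (k : ℕ) : aj (k + 1) ^ 2 * (2 * ((k + 1 : ℕ) : ℝ) + 1) ≤ aj k ^ 2 * (2 * (k : ℝ) + 1) := by
  have h := aj_step k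
  have h2 : (0 : ℝ) < 2 * k + 2 := by positivity
  have h3 : aj (k + 1) = (2 * k + 1) * aj k / (2 * k + 2) := by
    rw [eq_div_iff h2.ne']
    exact h
  rw [h3, div_pow, div_mul_eq_mul_div, div_le_iff₀ (by positivity)]
  push_cast
  have h5 : 0 ≤ aj k ^ 2 * (2 * (k : ℝ) + 1) := by positivity
  nlinarith [h5]

theorem aj_two (k : ℕ) : ∀ l, k ≤ l → aj l ^ 2 * (2 * (l : ℝ) + 1) ≤ aj k ^ 2 * (2 * (k : ℝ) + 1) := by
  intro l hl
  induction l, hl using Nat.le_induction with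
  | base => exact le_rfl
  | succ l _ ih => exact (aj_anti l).trans ih

theorem hi_ratio {k : ℕ} (hk : 1 ≤ k) : (3 * ((2 * k : ℕ) : ℝ) - 1) * hi (2 * k) ≤
    3 / 4 * ((3 * (k : ℝ) - 1) * hi k) := by
  have e : ∀ m : ℕ, 1 ≤ m → (3 * (m : ℝ) - 1) * hi m = aj m * ((3 * (m : ℝ) - 1) / (2 * m - 1)) := by
    intro m hm
    unfold hi aj
    have hm' : (1 : ℝ) ≤ m := by exact_mod_cast hm
    have : (2 * (m : ℝ) - 1) ≠ 0 := by
      have : 0 < 2 * (m : ℝ) - 1 := by linarith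
      exact this.ne'
    field_simp
  rw [e (2 * k) (by omega), e k hk]
  have h1 := aj_two k (2 * k) (by omega)
  have hk' : (1 : ℝ) ≤ k := by exact_mod_cast hk
  have ha := aj_pos k
  have hb := aj_pos (2 * k)
  push_cast at h1 ⊢
  have hd1 : 0 < 2 * (2 * (k : ℝ)) - 1 := by linarith
  have hd2 : 0 < 2 * (k : ℝ) - 1 := by linarith
  have hd3 : 0 < 3 * (k : ℝ) - 1 := by linarith
  have hd4 : 0 < 3 * (2 * (k : ℝ)) - 1 := by linarith
  rw [mul_div_assoc', mul_div_assoc', mul_div_assoc', div_le_div_iff₀ hd1 hd2]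
  have h2 : aj (2 * k) ^ 2 ≤ aj k ^ 2 * (2 * (k : ℝ) + 1) / (2 * (2 * (k : ℝ)) + 1) := by
    rw [le_div_iff₀ (by positivity)]
    exact h1
  refine le_of_sq_le_sq ?_ (by positivity)
  have h3 : (aj (2 * k) * (3 * (2 * (k : ℝ)) - 1) * (2 * (k : ℝ) - 1)) ^ 2 ≤
      aj k ^ 2 * (2 * (k : ℝ) + 1) / (2 * (2 * (k : ℝ)) + 1) *
        ((3 * (2 * (k : ℝ)) - 1) * (2 * (k : ℝ) - 1)) ^ 2 := by
    rw [mul_assoc, mul_pow]
    exact mul_le_mul_of_nonneg_right h2 (by positivity)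
  refine h3.trans ?_
  rw [div_mul_eq_mul_div, div_le_iff₀ (by positivity)]
  obtain ⟨m, rfl⟩ : ∃ m : ℕ, k = m + 1 := ⟨k - 1, by omega⟩
  have hm : (0 : ℝ) ≤ m := Nat.cast_nonneg m
  have h4 : 0 ≤ aj (m + 1) ^ 2 := by positivity
  have h5 : 0 ≤ (3 / 4 * ((3 * ((m + 1 : ℕ) : ℝ) - 1)) * (2 * (2 * ((m + 1 : ℕ) : ℝ)) - 1)) ^ 2 *
      (2 * (2 * ((m + 1 : ℕ) : ℝ)) + 1) - (2 * ((m + 1 : ℕ) : ℝ) + 1) *
        ((3 * (2 * ((m + 1 : ℕ) : ℝ)) - 1) * (2 * ((m + 1 : ℕ) : ℝ) - 1)) ^ 2 := by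
    push_cast
    ring_nf
    positivity
  have h6 := mul_nonneg h4 h5
  linarith

theorem tl_half {n k : ℕ} (hn : 1 ≤ n) (hk : 1 ≤ k) : tl n (2 * k) ≤ 3 / 4 * tl n k := by
  rcases Nat.lt_or_ge n (2 * k) with h | h
  · rw [tl_gt h]
    have := tl_nonneg n k hn
    positivity
  · unfold tl
    rw [hc_eq (by omega) h, hc_eq hk (by omega)]
    have h1 := hi_ratio hk
    have h2 := ww_anti hn (show k ≤ 2 * k by omega) h
    have h3 := ww_nonneg (n := n) (k := k) (by omega)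
    have h4 : 0 ≤ (3 * ((2 * k : ℕ) : ℝ) - 1) * hi (2 * k) := by
      have h5 := hi_pos (k := 2 * k) (by omega)
      have hk' : (1 : ℝ) ≤ k := by exact_mod_cast hk
      push_cast
      apply mul_nonneg _ h5.le
      linarith
    calc (3 * ((2 * k : ℕ) : ℝ) - 1) * (hi (2 * k) * ww n (2 * k))
        = ((3 * ((2 * k : ℕ) : ℝ) - 1) * hi (2 * k)) * ww n (2 * k) := by ring
      _ ≤ ((3 * ((2 * k : ℕ) : ℝ) - 1) * hi (2 * k)) * ww n k := mul_le_mul_of_nonneg_left h2 h4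
      _ ≤ (3 / 4 * ((3 * (k : ℝ) - 1) * hi k)) * ww n k := mul_le_mul_of_nonneg_right h1 h3
      _ = 3 / 4 * ((3 * (k : ℝ) - 1) * (hi k * ww n k)) := by ring

theorem tl_anti {n k : ℕ} (hn : 1 ≤ n) : tl n (k + 1) ≤ tl n k ∨ k = 0 := by
  rcases Nat.eq_zero_or_pos k with h | h
  · exact Or.inr h
  · left
    rcases Nat.lt_or_ge n (k + 1) with h1 | h1
    · rw [tl_gt h1]
      exact tl_nonneg n k hn
    · rw [← exact_law hn h1, ← exact_law hn (show k ≤ n by omega)]
      exact measureReal_mono (fun ω hω => le_trans (Nat.le_succ k) hω) (measure_ne_top _ _)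

theorem tl_anti' {n k : ℕ} (hn : 1 ≤ n) (hk : 1 ≤ k) : tl n (k + 1) ≤ tl n k := by
  rcases tl_anti (k := k) hn with h | h
  · exact h
  · omega

theorem Sm_le {n k : ℕ} (hn : 1 ≤ n) (hk : 1 ≤ k) : Sm n k ≤ tl n k / k := by
  rcases Nat.lt_or_ge n k with h | h
  · unfold Sm
    rw [Finset.Icc_eq_empty (by omega), Finset.sum_empty, tl_gt h]
    simp
  · rw [Sm_eq hk h]
    have : 0 ≤ ∑ i ∈ Finset.Ico k n, tl n (i + 1) / ((i : ℝ) * ((i : ℝ) + 1)) :=
      Finset.sum_nonneg fun i _ => div_nonneg (tl_nonneg n (i + 1) hn) (by positivity)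
    linarith

theorem Sm_ge {n k : ℕ} (hn : 1 ≤ n) (hk : 1 ≤ k) : tl n k / (8 * k) ≤ Sm n k := by
  rcases Nat.lt_or_ge n k with h | h
  · unfold Sm
    rw [Finset.Icc_eq_empty (by omega), Finset.sum_empty, tl_gt h]
    simp
  · have hk0 : (0 : ℝ) < k := by exact_mod_cast hk
    set m := min n (2 * k - 1) with hm
    have h1 : ∑ j ∈ Finset.Icc k m, (tl n j - tl n (j + 1)) / (j : ℝ) ≤ Sm n k := by
      unfold Sm
      apply Finset.sum_le_sum_of_subset_of_nonneg
      · exact Finset.Icc_subset_Icc le_rfl (min_le_left _ _)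
      · intro j hj _
        rw [Finset.mem_Icc] at hj
        exact div_nonneg (sub_nonneg.2 (tl_anti' hn (by omega))) (by positivity)
    have h2 : ∑ j ∈ Finset.Icc k m, (tl n j - tl n (j + 1)) / (2 * (k : ℝ)) ≤
        ∑ j ∈ Finset.Icc k m, (tl n j - tl n (j + 1)) / (j : ℝ) := by
      apply Finset.sum_le_sum
      intro j hj
      rw [Finset.mem_Icc] at hj
      have h3 : 0 ≤ tl n j - tl n (j + 1) := sub_nonneg.2 (tl_anti' hn (by omega))
      have h4 : (0 : ℝ) < j := by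
        have : 0 < j := by omega
        exact_mod_cast this
      apply div_le_div_of_nonneg_left h3 h4
      have : j ≤ 2 * k := by omega
      exact_mod_cast this
    have h3 : ∑ j ∈ Finset.Icc k m, (tl n j - tl n (j + 1)) = tl n k - tl n (m + 1) := by
      have hkm : k ≤ m := by omega
      have : ∀ l, k ≤ l → ∑ j ∈ Finset.Icc k l, (tl n j - tl n (j + 1)) = tl n k - tl n (l + 1) := by
        intro l hl
        induction l, hl using Nat.le_induction with
        | base => simp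
        | succ l hl ih =>
          rw [Finset.sum_Icc_succ_top (by omega), ih]
          ring
      exact this m hkm
    have h4 : tl n (m + 1) ≤ 3 / 4 * tl n k := by
      rcases le_total n (2 * k - 1) with h5 | h5
      · rw [hm, min_eq_left h5, tl_gt (Nat.lt_succ_self n)]
        have := tl_nonneg n k hn
        positivity
      · rw [hm, min_eq_right h5, show 2 * k - 1 + 1 = 2 * k by omega]
        exact tl_half hn hk
    rw [← Finset.sum_div, h3] at h2
    refine le_trans ?_ (h2.trans h1)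
    rw [div_le_div_iff₀ (by positivity) (by positivity)]
    nlinarith

end Pool.Agent.Q291.BC
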