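import Pool.Agent.H731R6.Bc.Fin

/-!
The number of boundary clusters with at least `k` boundary vertices on the half-infinite cylinder.
-/

set_option autoImplicit false

namespace Pool.Agent.Q291.BC

open MeasureTheory Filter Topology H731B

/-- the boundary vertices joined to `(b, 0)` by an open path -/
def bc (n : ℕ) (b : ZMod (2 * n)) (ω : Conf n) : Set (ZMod (2 * n)) :=
  {b' | Relation.EqvGen (OpenAdj n ω) (b, 0) (b', 0)}

theorem bc_zero (n : ℕ) (ω : Conf n) : bc n 0 ω = bcl n ω := rfl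

/-- shift of the configuration -/
def sh (n : ℕ) (s : ZMod (2 * n)) (ω : Conf n) : Conf n := fun p => ω (p.1 + s, p.2)

theorem sh_mp (n : ℕ) (s : ZMod (2 * n)) : MeasurePreserving (sh n s) (perc n) (perc n) := by
  refine ⟨?_, ?_⟩
  · unfold sh
    fun_prop
  · unfold perc sh
    exact Measure.map_infinitePi_infinitePi_of_inj (f := fun p : ZMod (2 * n) × ℕ => (p.1 + s, p.2))
      (P := fun _ => (PMF.uniformOfFintype Bool).toMeasure) (fun p q h => by
        simp only [Prod.mk.injEq, add_left_inj] at h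
        exact Prod.ext h.1 h.2)

theorem val_add_even {n : ℕ} (hn : 1 ≤ n) {a s : ZMod (2 * n)} (hs : Even s.val) :
    Even (a + s).val ↔ Even a.val := by
  have : NeZero (2 * n) := ⟨by omega⟩
  rw [ZMod.val_add, Nat.even_iff, Nat.even_iff, Nat.mod_mod_of_dvd _ (Dvd.intro n rfl)]
  rw [Nat.even_iff] at hs
  omega

theorem cell_sh {n : ℕ} (hn : 1 ≤ n) {s : ZMod (2 * n)} (hs : Even s.val) (a : ZMod (2 * n)) (t : ℕ)
    (p r : ZMod (2 * n) × ℕ) (h : CellEnds n a t p r) :
    CellEnds n (a + s) t (p.1 + s, p.2) (r.1 + s, r.2) := by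
  have e : Even ((a + s).val + t) ↔ Even (a.val + t) := by
    rw [Nat.even_add, Nat.even_add, val_add_even hn hs]
  rcases h with ⟨h1, rfl, rfl⟩ | ⟨h1, rfl, rfl⟩
  · left
    refine ⟨e.2 h1, rfl, ?_⟩
    simp only [Prod.mk.injEq, and_true]
    ring
  · right
    refine ⟨fun h => h1 (e.1 h), ?_, rfl⟩
    simp only [Prod.mk.injEq, and_true]
    ring

theorem adj_sh {n : ℕ} (hn : 1 ≤ n) {s : ZMod (2 * n)} (hs : Even s.val) (ω : Conf n)
    (p r : ZMod (2 * n) × ℕ) (h : OpenAdj n (sh n s ω) p r) :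
    OpenAdj n ω (p.1 + s, p.2) (r.1 + s, r.2) := by
  obtain ⟨a, t, h1, h2⟩ := h
  exact ⟨a + s, t, h1, cell_sh hn hs a t p r h2⟩

theorem eqv_sh {n : ℕ} (hn : 1 ≤ n) {s : ZMod (2 * n)} (hs : Even s.val) (ω : Conf n)
    (p r : ZMod (2 * n) × ℕ) (h : Relation.EqvGen (OpenAdj n (sh n s ω)) p r) :
    Relation.EqvGen (OpenAdj n ω) (p.1 + s, p.2) (r.1 + s, r.2) := by
  induction h with
  | rel x y h => exact Relation.EqvGen.rel _ _ (adj_sh hn hs ω x y h)
  | refl x => exact Relation.EqvGen.refl _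
  | symm x y _ ih => exact Relation.EqvGen.symm _ _ ih
  | trans x y z _ _ ih1 ih2 => exact Relation.EqvGen.trans _ _ _ ih1 ih2

theorem sh_sh (n : ℕ) (s : ZMod (2 * n)) (ω : Conf n) : sh n (-s) (sh n s ω) = ω := by
  funext p
  simp [sh]

theorem neg_even {n : ℕ} (hn : 1 ≤ n) {s : ZMod (2 * n)} (hs : Even s.val) : Even (-s).val := by
  have : NeZero (2 * n) := ⟨by omega⟩
  rw [← val_add_even hn hs, neg_add_cancel]
  simp

theorem bc_sh {n : ℕ} (hn : 1 ≤ n) {s : ZMod (2 * n)} (hs : Even s.val) (ω : Conf n) :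
    bc n s ω = (fun b => b + s) '' bc n 0 (sh n s ω) := by
  ext b
  constructor
  · intro hb
    refine ⟨b - s, ?_, sub_add_cancel b s⟩
    have h1 : Relation.EqvGen (OpenAdj n (sh n (-s) (sh n s ω))) (s, 0) (b, 0) := by
      rw [sh_sh]
      exact hb
    have h2 := eqv_sh hn (neg_even hn hs) (sh n s ω) (s, 0) (b, 0) h1
    simp only [add_neg_cancel] at h2
    rw [← sub_eq_add_neg] at h2
    exact h2
  · rintro ⟨b', hb', rfl⟩
    have h2 := eqv_sh hn hs ω (0, 0) (b', 0) hb'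
    simp only [zero_add] at h2
    exact h2

theorem ncard_sh {n : ℕ} (hn : 1 ≤ n) {s : ZMod (2 * n)} (hs : Even s.val) (ω : Conf n) :
    (bc n s ω).ncard = (bcl n (sh n s ω)).ncard := by
  rw [bc_sh hn hs, Set.ncard_image_of_injective _ (add_left_injective s), bc_zero]

/-- parity is preserved along open paths -/
theorem parity {n : ℕ} (hn : 1 ≤ n) (ω : Conf n) (p r : ZMod (2 * n) × ℕ)
    (h : Relation.EqvGen (OpenAdj n ω) p r) : Even (p.1.val + p.2) ↔ Even (r.1.val + r.2) := by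
  have : NeZero (2 * n) := ⟨by omega⟩
  have h1 : ∀ a : ZMod (2 * n), Even (a + 1).val ↔ ¬ Even a.val := by
    intro a
    rw [ZMod.val_add, Nat.even_iff, Nat.even_iff, Nat.mod_mod_of_dvd _ (Dvd.intro n rfl)]
    have : (1 : ZMod (2 * n)).val = 1 := by
      have : Fact (1 < 2 * n) := ⟨by omega⟩
      exact ZMod.val_one _
    rw [this]
    omega
  induction h with
  | rel x y h =>
    obtain ⟨a, t, -, h2⟩ := h
    rcases h2 with ⟨h3, rfl, rfl⟩ | ⟨h3, rfl, rfl⟩
    · simp only [Nat.even_add, Nat.even_add_one, h1] at *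
      tauto
    · simp only [Nat.even_add, Nat.even_add_one, h1] at *
      tauto
  | refl x => rfl
  | symm x y _ ih => exact ih.symm
  | trans x y z _ _ ih1 ih2 => exact ih1.trans ih2

theorem mem_bc_self (n : ℕ) (b : ZMod (2 * n)) (ω : Conf n) : b ∈ bc n b ω :=
  Relation.EqvGen.refl _

theorem bc_eq {n : ℕ} {b b' : ZMod (2 * n)} {ω : Conf n} (h : b' ∈ bc n b ω) :
    bc n b' ω = bc n b ω := by
  ext c
  constructor
  · exact fun hc => Relation.EqvGen.trans _ _ _ h hc
  · exact fun hc => Relation.EqvGen.trans _ _ _ (Relation.EqvGen.symm _ _ h) hc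

/-- the boundary clusters with at least `k` boundary vertices -/
def Cl (n k : ℕ) (ω : Conf n) : Set (Set (ZMod (2 * n))) :=
  {C | (∃ b : ZMod (2 * n), Even b.val ∧ C = bc n b ω) ∧ k ≤ C.ncard}

/-- the boundary vertices -/
def bnd (n : ℕ) : Finset (ZMod (2 * n)) :=
  (Finset.range n).image fun k => ((2 * k : ℕ) : ZMod (2 * n))

theorem mem_bnd {n : ℕ} (hn : 1 ≤ n) {b : ZMod (2 * n)} : b ∈ bnd n ↔ Even b.val := by
  have : NeZero (2 * n) := ⟨by omega⟩
  unfold bnd
  rw [Finset.mem_image]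
  constructor
  · rintro ⟨k, hk, rfl⟩
    rw [Finset.mem_range] at hk
    rw [ZMod.val_cast_of_lt (by omega)]
    exact even_two_mul k
  · rintro ⟨k, hk⟩
    have hlt := ZMod.val_lt b
    refine ⟨k, Finset.mem_range.2 (by omega), ?_⟩
    rw [show 2 * k = b.val by omega]
    exact ZMod.natCast_zmod_val b

theorem card_bnd {n : ℕ} (hn : 1 ≤ n) : (bnd n).card = n := by
  have : NeZero (2 * n) := ⟨by omega⟩
  unfold bnd
  rw [Finset.card_image_of_injOn, Finset.card_range]
  intro k hk l hl h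
  simp only [Finset.coe_range, Set.mem_Iio] at hk hl
  have := congrArg ZMod.val h
  simp only at this
  rw [ZMod.val_cast_of_lt (by omega), ZMod.val_cast_of_lt (by omega)] at this
  omega

open Classical in
theorem count_eq {n : ℕ} (hn : 1 ≤ n) {k : ℕ} (ω : Conf n) :
    ((Cl n k ω).ncard : ℝ) = ∑ b ∈ bnd n, if k ≤ (bc n b ω).ncard then
      (1 : ℝ) / ((bc n b ω).ncard : ℝ) else 0 := by
  have : NeZero (2 * n) := ⟨by omega⟩
  set S := (bnd n).filter (fun b => k ≤ (bc n b ω).ncard) with hS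
  have e1 : Cl n k ω = ((S.image fun b => bc n b ω : Finset (Set (ZMod (2 * n)))) :
      Set (Set (ZMod (2 * n)))) := by
    ext C
    simp only [Cl, Set.mem_ofPred_eq, Finset.coe_image, Set.mem_image, Finset.mem_coe, hS,
      Finset.mem_filter, mem_bnd hn]
    constructor
    · rintro ⟨⟨b, hb, rfl⟩, hk⟩
      exact ⟨b, ⟨hb, hk⟩, rfl⟩
    · rintro ⟨b, ⟨hb, hk⟩, rfl⟩
      exact ⟨⟨b, hb, rfl⟩, hk⟩
  rw [e1, Set.ncard_coe_finset, ← Finset.sum_filter, ← hS,
    Finset.sum_comp (fun C : Set (ZMod (2 * n)) => (1 : ℝ) / (C.ncard : ℝ)) (fun b => bc n b ω),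
    Finset.card_eq_sum_ones, Nat.cast_sum]
  refine Finset.sum_congr rfl fun C hC => ?_
  rw [Finset.mem_image] at hC
  obtain ⟨b, hb, rfl⟩ := hC
  rw [hS, Finset.mem_filter, mem_bnd hn] at hb
  have e2 : ((S.filter fun b' => bc n b' ω = bc n b ω : Finset (ZMod (2 * n))) :
      Set (ZMod (2 * n))) = bc n b ω := by
    ext c
    simp only [hS, Finset.coe_filter, Finset.mem_filter, mem_bnd hn, Set.mem_ofPred_eq]
    constructor
    · rintro ⟨-, h⟩
      rw [← h]
      exact mem_bc_self n c ω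
    · intro hc
      have h1 := bc_eq hc
      refine ⟨⟨?_, ?_⟩, h1⟩
      · have := parity hn ω (b, 0) (c, 0) hc
        simp only [add_zero] at this
        exact this.1 hb.1
      · rw [h1]
        exact hb.2
  have e3 : (S.filter fun b' => bc n b' ω = bc n b ω).card = (bc n b ω).ncard := by
    rw [← Set.ncard_coe_finset, e2]
  rw [e3, nsmul_eq_mul]
  have h0 : ((bc n b ω).ncard : ℝ) ≠ 0 := by
    have : 0 < (bc n b ω).ncard := by
      rw [Set.ncard_pos (Set.toFinite _)]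
      exact ⟨b, mem_bc_self n b ω⟩
    exact_mod_cast this.ne'
  rw [mul_one_div_cancel h0]
  simp

theorem meas_fun {n : ℕ} (hn : 1 ≤ n) (k : ℕ) :
    (∀ b : ZMod (2 * n), Even b.val → (fun ω => if k ≤ (bc n b ω).ncard then
      (1 : ℝ) / ((bc n b ω).ncard : ℝ) else 0) = (fun ω => if k ≤ (bcl n ω).ncard then
      (1 : ℝ) / ((bcl n ω).ncard : ℝ) else 0) ∘ sh n b) := by
  intro b hb
  funext ω
  simp only [Function.comp_apply, ncard_sh hn hb]

theorem one_pos_ncard {n : ℕ} (hn : 1 ≤ n) (ω : Conf n) : 1 ≤ (bcl n ω).ncard := by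
  have : NeZero (2 * n) := ⟨by omega⟩
  have : 0 < (bc n 0 ω).ncard := by
    rw [Set.ncard_pos (Set.toFinite _)]
    exact ⟨0, mem_bc_self n 0 ω⟩
  exact this

/-- the telescoping sum -/
theorem tele {n k c : ℕ} (hk : 1 ≤ k) (hc : c ≤ n) (hc1 : 1 ≤ c) :
    (if k ≤ c then (1 : ℝ) / c else 0) = ∑ j ∈ Finset.Icc k n, (1 / (j : ℝ)) *
      ((if j ≤ c then (1 : ℝ) else 0) - (if j + 1 ≤ c then (1 : ℝ) else 0)) := by
  have h1 : ∀ j ∈ Finset.Icc k n, (1 / (j : ℝ)) *
      ((if j ≤ c then (1 : ℝ) else 0) - (if j + 1 ≤ c then (1 : ℝ) else 0)) =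
      if j = c then 1 / (c : ℝ) else 0 := by
    intro j _
    rcases lt_trichotomy j c with h | h | h
    · rw [if_pos h.le, if_pos (by omega), if_neg h.ne, sub_self, mul_zero]
    · subst h
      rw [if_pos le_rfl, if_neg (by omega), if_pos rfl]
      ring
    · rw [if_neg (by omega), if_neg (by omega), if_neg (by omega), sub_self, mul_zero]
  rw [Finset.sum_congr rfl h1, Finset.sum_ite_eq']
  simp only [Finset.mem_Icc]
  by_cases h : k ≤ c
  · rw [if_pos h, if_pos ⟨h, hc⟩]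
  · rw [if_neg h, if_neg (fun h' => h h'.1)]

instance (n : ℕ) : IsProbabilityMeasure (perc n) := by unfold perc; infer_instance

theorem law' {n : ℕ} (hn : 1 ≤ n) {k : ℕ} (hk : k ≤ n + 1) :
    (perc n).real {ω | k ≤ (bcl n ω).ncard} = tl n k := by
  rcases Nat.lt_or_ge n k with h | h
  · have e : {ω | k ≤ (bcl n ω).ncard} = (∅ : Set (Conf n)) := by
      ext ω
      have := ncard_le hn ω
      simp only [Set.mem_ofPred_eq, Set.mem_empty_iff_false, iff_false]
      omega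
    rw [e, tl_gt h]
    simp
  · exact exact_law hn h

theorem mean_zero {n : ℕ} (hn : 1 ≤ n) {k : ℕ} (hk : 1 ≤ k) :
    Integrable (fun ω => if k ≤ (bcl n ω).ncard then (1 : ℝ) / ((bcl n ω).ncard : ℝ) else 0)
      (perc n) ∧
    ∫ ω, (if k ≤ (bcl n ω).ncard then (1 : ℝ) / ((bcl n ω).ncard : ℝ) else 0) ∂(perc n) =
      ∑ j ∈ Finset.Icc k n, (tl n j - tl n (j + 1)) / (j : ℝ) := by
  have e : (fun ω => if k ≤ (bcl n ω).ncard then (1 : ℝ) / ((bcl n ω).ncard : ℝ) else 0) =
      fun ω => ∑ j ∈ Finset.Icc k n, (1 / (j : ℝ)) *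
        (({ω : Conf n | j ≤ (bcl n ω).ncard}.indicator (fun _ => (1 : ℝ)) ω) -
          ({ω : Conf n | j + 1 ≤ (bcl n ω).ncard}.indicator (fun _ => (1 : ℝ)) ω)) := by
    funext ω
    rw [tele hk (ncard_le hn ω) (one_pos_ncard hn ω)]
    refine Finset.sum_congr rfl fun j _ => ?_
    simp only [Set.indicator_apply, Set.mem_ofPred_eq]
  have hI : ∀ j : ℕ, Integrable ({ω : Conf n | j ≤ (bcl n ω).ncard}.indicator (fun _ => (1 : ℝ)))
      (perc n) := fun j => (integrable_const _).indicator (meas_bcl hn j)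
  rw [e]
  have hI2 : ∀ j ∈ Finset.Icc k n, Integrable (fun ω => (1 / (j : ℝ)) *
        (({ω : Conf n | j ≤ (bcl n ω).ncard}.indicator (fun _ => (1 : ℝ)) ω) -
          ({ω : Conf n | j + 1 ≤ (bcl n ω).ncard}.indicator (fun _ => (1 : ℝ)) ω))) (perc n) :=
    fun j _ => ((hI j).sub (hI (j + 1))).const_mul _
  refine ⟨integrable_finsetSum _ hI2, ?_⟩
  rw [integral_finsetSum _ hI2]
  refine Finset.sum_congr rfl fun j hj => ?_
  rw [Finset.mem_Icc] at hj
  rw [integral_const_mul, integral_sub (hI j) (hI (j + 1)),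
    integral_indicator_const _ (meas_bcl hn j), integral_indicator_const _ (meas_bcl hn (j + 1)),
    law' hn (by omega), law' hn (by omega)]
  simp only [smul_eq_mul, mul_one]
  ring

/-- **the mean number of boundary clusters with at least `k` boundary vertices** -/
theorem mean_count {n : ℕ} (hn : 1 ≤ n) {k : ℕ} (hk : 1 ≤ k) :
    Integrable (fun ω => ((Cl n k ω).ncard : ℝ)) (perc n) ∧
    ∫ ω, ((Cl n k ω).ncard : ℝ) ∂(perc n) =
      n * ∑ j ∈ Finset.Icc k n, (tl n j - tl n (j + 1)) / (j : ℝ) := by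
  classical
  obtain ⟨h1, h2⟩ := mean_zero hn hk
  have hI : ∀ b ∈ bnd n, Integrable (fun ω => if k ≤ (bc n b ω).ncard then
      (1 : ℝ) / ((bc n b ω).ncard : ℝ) else 0) (perc n) := by
    intro b hb
    rw [meas_fun hn k b ((mem_bnd hn).1 hb)]
    exact (sh_mp n b).integrable_comp_of_integrable h1
  have e : (fun ω => ((Cl n k ω).ncard : ℝ)) = fun ω => ∑ b ∈ bnd n,
      if k ≤ (bc n b ω).ncard then (1 : ℝ) / ((bc n b ω).ncard : ℝ) else 0 := by
    funext ω
    exact count_eq hn ω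
  rw [e]
  refine ⟨integrable_finsetSum _ hI, ?_⟩
  rw [integral_finsetSum _ hI]
  have h3 : ∀ b ∈ bnd n, ∫ ω, (if k ≤ (bc n b ω).ncard then
      (1 : ℝ) / ((bc n b ω).ncard : ℝ) else 0) ∂(perc n) =
      ∑ j ∈ Finset.Icc k n, (tl n j - tl n (j + 1)) / (j : ℝ) := by
    intro b hb
    rw [meas_fun hn k b ((mem_bnd hn).1 hb), ← h2]
    have h4 := integral_map (μ := perc n) (sh_mp n b).measurable.aemeasurable
      (f := fun ω => if k ≤ (bcl n ω).ncard then (1 : ℝ) / ((bcl n ω).ncard : ℝ) else 0)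
      (by rw [(sh_mp n b).map_eq]; exact h1.aestronglyMeasurable)
    rw [(sh_mp n b).map_eq] at h4
    exact h4.symm
  rw [Finset.sum_congr rfl h3, Finset.sum_const, card_bnd hn, nsmul_eq_mul]

end Pool.Agent.Q291.BC
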