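import Pool.Agent.Q291.BC.Law
import Pool.Agent.Q291.BC.Count

/-!
Two distinct boundary clusters: disjoint occurrence.
-/

set_option autoImplicit false

namespace Pool.Agent.Q291.BC

open MeasureTheory H974 H731B Filter Topology

/-- adjacency by the cells of `K` -/
def AdjK (n : ℕ) (K : Finset (ZMod (2 * n) × ℕ)) (p r : ZMod (2 * n) × ℕ) : Prop :=
  ∃ (a : ZMod (2 * n)) (t : ℕ), (a, t) ∈ K ∧ CellEnds n a t p r

/-- the boundary vertices joined to `(b, 0)` in `K` -/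
def bK (n : ℕ) (b : ZMod (2 * n)) (K : Finset (ZMod (2 * n) × ℕ)) : Set (ZMod (2 * n)) :=
  {b' | Relation.EqvGen (AdjK n K) (b, 0) (b', 0)}

theorem eqv_mono {α : Type*} {G G' : α → α → Prop} (h : ∀ a b, G a b → G' a b) {a b : α}
    (hab : Relation.EqvGen G a b) : Relation.EqvGen G' a b := P5.mono_rel h hab

theorem bK_mono {n : ℕ} {b : ZMod (2 * n)} {K L : Finset (ZMod (2 * n) × ℕ)} (h : K ⊆ L) :
    bK n b K ⊆ bK n b L :=
  fun _ hb => eqv_mono (fun _ _ ⟨a, t, h1, h2⟩ => ⟨a, t, h h1, h2⟩) hb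

/-- at least `i` boundary vertices -/
def Big (n i : ℕ) (b : ZMod (2 * n)) (K : Finset (ZMod (2 * n) × ℕ)) : Prop := i ≤ (bK n b K).ncard

theorem Big_incr {n : ℕ} (hn : 1 ≤ n) (i : ℕ) (b : ZMod (2 * n)) (S : Finset (ZMod (2 * n) × ℕ)) :
    IncrE S (Big n i b) := by
  have : NeZero (2 * n) := ⟨by omega⟩
  intro F G h1 _ h3
  exact h3.trans (Set.ncard_le_ncard (bK_mono h1) (Set.toFinite _))

open Classical in
/-- the cells of `K` with an end joined to `b` -/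
noncomputable def wit (n : ℕ) (b : ZMod (2 * n)) (K : Finset (ZMod (2 * n) × ℕ)) :
    Finset (ZMod (2 * n) × ℕ) :=
  K.filter fun e => ∃ p r, CellEnds n e.1 e.2 p r ∧ Relation.EqvGen (AdjK n K) (b, 0) p

theorem ends_unique {n : ℕ} {a : ZMod (2 * n)} {t : ℕ} {p r p' r' : ZMod (2 * n) × ℕ}
    (h : CellEnds n a t p r) (h' : CellEnds n a t p' r') : p = p' ∧ r = r' := by
  rcases h with ⟨h1, rfl, rfl⟩ | ⟨h1, rfl, rfl⟩ <;> rcases h' with ⟨h2, rfl, rfl⟩ | ⟨h2, rfl, rfl⟩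
  · exact ⟨rfl, rfl⟩
  · exact absurd h1 h2
  · exact absurd h2 h1
  · exact ⟨rfl, rfl⟩

open Classical in
theorem wit_conn {n : ℕ} {b : ZMod (2 * n)} {K : Finset (ZMod (2 * n) × ℕ)}
    {p r : ZMod (2 * n) × ℕ} (h : Relation.EqvGen (AdjK n K) p r) :
    Relation.EqvGen (AdjK n K) (b, 0) p → Relation.EqvGen (AdjK n (wit n b K)) p r := by
  induction h with
  | rel p r h =>
    intro hb
    obtain ⟨a, t, h1, h2⟩ := h
    refine Relation.EqvGen.rel _ _ ⟨a, t, ?_, h2⟩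
    unfold wit
    rw [Finset.mem_filter]
    exact ⟨h1, p, r, h2, hb⟩
  | refl p => exact fun _ => Relation.EqvGen.refl _
  | symm p r h ih =>
    intro hb
    exact Relation.EqvGen.symm _ _ (ih (Relation.EqvGen.trans _ _ _ hb (Relation.EqvGen.symm _ _ h)))
  | trans p q r h1 _ ih1 ih2 =>
    intro hb
    exact Relation.EqvGen.trans _ _ _ (ih1 hb) (ih2 (Relation.EqvGen.trans _ _ _ hb h1))

open Classical in
theorem wit_big {n i : ℕ} {b : ZMod (2 * n)} {K : Finset (ZMod (2 * n) × ℕ)} (h : Big n i b K) :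
    Big n i b (wit n b K) := by
  have e : bK n b (wit n b K) = bK n b K := by
    apply Set.Subset.antisymm
    · exact bK_mono (Finset.filter_subset _ _)
    · intro b' hb'
      exact wit_conn hb' (Relation.EqvGen.refl _)
  unfold Big
  rw [e]
  exact h

open Classical in
theorem disj_wit {n : ℕ} {b b' : ZMod (2 * n)} {K : Finset (ZMod (2 * n) × ℕ)}
    (h : b' ∉ bK n b K) : Disjoint (wit n b K) (wit n b' K) := by
  rw [Finset.disjoint_left]
  intro e h1 h2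
  unfold wit at h1 h2
  rw [Finset.mem_filter] at h1 h2
  obtain ⟨h3, p, r, h4, h5⟩ := h1
  obtain ⟨-, p', r', h6, h7⟩ := h2
  obtain ⟨rfl, rfl⟩ := ends_unique h4 h6
  exact h (Relation.EqvGen.trans _ _ _ h5 (Relation.EqvGen.symm _ _ h7))

open Classical in
theorem occ {n i j : ℕ} {b b' : ZMod (2 * n)} {K : Finset (ZMod (2 * n) × ℕ)}
    (h1 : Big n i b K) (h2 : Big n j b' K) (h3 : b' ∉ bK n b K) :
    DisjOcc (Big n i b) (Big n j b') K :=
  ⟨wit n b K, wit n b' K, Finset.filter_subset _ _, Finset.filter_subset _ _, disj_wit h3,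
    wit_big h1, wit_big h2⟩

theorem perc_coins (n : ℕ) : perc n = coins (ZMod (2 * n) × ℕ) := rfl

/-- the cells of the first `M` rows -/
noncomputable def cells (n : ℕ) (hn : 1 ≤ n) (M : ℕ) : Finset (ZMod (2 * n) × ℕ) :=
  haveI : NeZero (2 * n) := ⟨by omega⟩
  Finset.univ ×ˢ Finset.range M

theorem mem_cells {n : ℕ} (hn : 1 ≤ n) {M : ℕ} {a : ZMod (2 * n)} {t : ℕ} :
    (a, t) ∈ cells n hn M ↔ t < M := by
  have : NeZero (2 * n) := ⟨by omega⟩
  unfold cells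
  rw [Finset.mem_product, Finset.mem_range]
  exact ⟨fun h => h.2, fun h => ⟨Finset.mem_univ _, h⟩⟩

theorem adj_cells {n : ℕ} (hn : 1 ≤ n) (M : ℕ) (ω : Conf n) (p r : ZMod (2 * n) × ℕ) :
    AdjK n (On (cells n hn M) ω) p r ↔ OpenAdjM n M ω p r := by
  unfold AdjK OpenAdjM
  constructor
  · rintro ⟨a, t, h1, h2⟩
    rw [mem_On, mem_cells] at h1
    exact ⟨a, t, h1.1, h1.2, h2⟩
  · rintro ⟨a, t, h1, h2, h3⟩
    exact ⟨a, t, by rw [mem_On, mem_cells]; exact ⟨h1, h2⟩, h3⟩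

theorem bK_cells {n : ℕ} (hn : 1 ≤ n) (M : ℕ) (ω : Conf n) (b : ZMod (2 * n)) :
    bK n b (On (cells n hn M) ω) = {b' | Relation.EqvGen (OpenAdjM n M ω) (b, 0) (b', 0)} := by
  have : AdjK n (On (cells n hn M) ω) = OpenAdjM n M ω := by
    funext p r
    exact propext (adj_cells hn M ω p r)
  unfold bK
  rw [this]

theorem bK_sub {n : ℕ} (hn : 1 ≤ n) (M : ℕ) (ω : Conf n) (b : ZMod (2 * n)) :
    bK n b (On (cells n hn M) ω) ⊆ bc n b ω := by
  rw [bK_cells]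
  intro b' hb'
  refine P5.mono_rel ?_ hb'
  rintro p r ⟨a, t, _, h1, h2⟩
  exact ⟨a, t, h1, h2⟩

theorem bK_mono_M {n : ℕ} (hn : 1 ≤ n) (ω : Conf n) (b : ZMod (2 * n)) :
    Monotone fun M => bK n b (On (cells n hn M) ω) := by
  intro M M' h
  apply bK_mono
  intro e he
  obtain ⟨a, t⟩ := e
  rw [mem_On, mem_cells] at he ⊢
  exact ⟨lt_of_lt_of_le he.1 h, he.2⟩

theorem bK_iUnion {n : ℕ} (hn : 1 ≤ n) (ω : Conf n) (b : ZMod (2 * n)) :
    ⋃ M, bK n b (On (cells n hn M) ω) = bc n b ω := by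
  ext b'
  rw [Set.mem_iUnion]
  constructor
  · rintro ⟨M, hM⟩
    exact bK_sub hn M ω b hM
  · intro h
    obtain ⟨M, hM⟩ := P5.exists_M ω h
    refine ⟨M, ?_⟩
    rw [bK_cells]
    exact hM

/-- eventually the finite cluster is the cluster -/
theorem bK_ev {n : ℕ} (hn : 1 ≤ n) (ω : Conf n) (b : ZMod (2 * n)) :
    ∃ M, bK n b (On (cells n hn M) ω) = bc n b ω := by
  have : NeZero (2 * n) := ⟨by omega⟩
  have h1 : (bc n b ω).Finite := Set.toFinite _
  have h2 : bc n b ω ⊆ ⋃ M, bK n b (On (cells n hn M) ω) := (bK_iUnion hn ω b).symm.subset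
  obtain ⟨M, hM⟩ := Directed.exists_mem_subset_of_finset_subset_biUnion
    (bK_mono_M hn ω b).directed_le (s := h1.toFinset) (by simpa using h2)
  rw [Set.Finite.coe_toFinset] at hM
  exact ⟨M, Set.Subset.antisymm (bK_sub hn M ω b) hM⟩

end Pool.Agent.Q291.BC
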