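import Mathlib

/-!
The closed form of the integral in the scaling limit.
-/

set_option autoImplicit false

namespace Pool.Agent.Q291.BC

open MeasureTheory Filter Topology Set

/-- the Gaussian tail -/
noncomputable def Ph (s : ℝ) : ℝ := ∫ u in Ioi s, Real.exp (-u ^ 2)

theorem gint : Integrable (fun u : ℝ => Real.exp (-u ^ 2)) := by
  have := integrable_exp_neg_mul_sq (b := 1) one_pos
  simpa using this

theorem gcont : Continuous (fun u : ℝ => Real.exp (-u ^ 2)) := by fun_prop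

theorem Ph_eq (s : ℝ) : Ph s = Ph 0 - ∫ u in (0 : ℝ)..s, Real.exp (-u ^ 2) := by
  unfold Ph
  rw [← intervalIntegral.integral_Ioi_sub_Ioi' gint.integrableOn gint.integrableOn]
  ring

theorem Ph_deriv (s : ℝ) : HasDerivAt Ph (-Real.exp (-s ^ 2)) s := by
  have h1 : Ph = fun s => Ph 0 - ∫ u in (0 : ℝ)..s, Real.exp (-u ^ 2) := funext Ph_eq
  rw [h1]
  have h2 : HasDerivAt (fun s => ∫ u in (0 : ℝ)..s, Real.exp (-u ^ 2)) (Real.exp (-s ^ 2)) s :=
    intervalIntegral.integral_hasDerivAt_right (gcont.intervalIntegrable 0 s)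
      (gcont.stronglyMeasurableAtFilter _ _) gcont.continuousAt
  simpa using h2.const_sub (Ph 0)

theorem Ph_zero : Tendsto Ph atTop (𝓝 0) := by
  have h1 : Ph = fun s => Ph 0 - ∫ u in (0 : ℝ)..s, Real.exp (-u ^ 2) := funext Ph_eq
  rw [h1]
  have h2 := intervalIntegral_tendsto_integral_Ioi (0 : ℝ) gint.integrableOn tendsto_id
  have h3 : Tendsto (fun s : ℝ => Ph 0 - ∫ u in (0 : ℝ)..s, Real.exp (-u ^ 2)) atTop
      (𝓝 (Ph 0 - Ph 0)) := tendsto_const_nhds.sub h2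
  simpa using h3

/-- the antiderivative -/
noncomputable def Gf (θ y : ℝ) : ℝ := -(2 / 3) * (1 / (y * Real.sqrt y) *
  Real.exp (-(θ ^ 3 / 4 * y ^ 3)) - Real.sqrt (θ ^ 3) * Ph (Real.sqrt (θ ^ 3) / 2 * (y * Real.sqrt y)))

theorem sq_s {θ y : ℝ} (hθ : 0 ≤ θ) (hy : 0 ≤ y) :
    (Real.sqrt (θ ^ 3) / 2 * (y * Real.sqrt y)) ^ 2 = θ ^ 3 / 4 * y ^ 3 := by
  rw [mul_pow, div_pow, mul_pow, Real.sq_sqrt (by positivity), Real.sq_sqrt hy]
  ring

theorem ysy {y : ℝ} (hy : 0 < y) : HasDerivAt (fun y : ℝ => y * Real.sqrt y) (3 / 2 * Real.sqrt y) y := by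
  have h1 := (hasDerivAt_id y).mul (Real.hasDerivAt_sqrt hy.ne')
  refine h1.congr_deriv ?_
  have hs : 0 < Real.sqrt y := Real.sqrt_pos.2 hy
  have hs2 : Real.sqrt y * Real.sqrt y = y := Real.mul_self_sqrt hy.le
  simp only [id]
  field_simp
  nlinarith

theorem Gf_deriv {θ y : ℝ} (hθ : 0 ≤ θ) (hy : 0 < y) :
    HasDerivAt (Gf θ) (1 / (y ^ 2 * Real.sqrt y) * Real.exp (-(θ ^ 3 / 4 * y ^ 3))) y := by
  have hs : 0 < Real.sqrt y := Real.sqrt_pos.2 hy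
  have hs2 : Real.sqrt y * Real.sqrt y = y := Real.mul_self_sqrt hy.le
  have hne : y * Real.sqrt y ≠ 0 := by positivity
  have h1 : HasDerivAt (fun y : ℝ => 1 / (y * Real.sqrt y))
      (-(3 / 2 * Real.sqrt y) / (y * Real.sqrt y) ^ 2) y := by
    have h := (ysy hy).inv hne
    refine h.congr_of_eventuallyEq (Eventually.of_forall fun x => ?_)
    simp only [one_div, Pi.inv_apply]
  have h2 : HasDerivAt (fun y : ℝ => Real.exp (-(θ ^ 3 / 4 * y ^ 3)))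
      (Real.exp (-(θ ^ 3 / 4 * y ^ 3)) * (-(θ ^ 3 / 4 * (3 * y ^ 2)))) y := by
    have h3 : HasDerivAt (fun y : ℝ => -(θ ^ 3 / 4 * y ^ 3)) (-(θ ^ 3 / 4 * (3 * y ^ 2))) y := by
      have := ((hasDerivAt_pow 3 y).const_mul (θ ^ 3 / 4)).neg
      have h9 : -(θ ^ 3 / 4 * (((3 : ℕ) : ℝ) * y ^ (3 - 1))) = -(θ ^ 3 / 4 * (3 * y ^ 2)) := by
        norm_num
      rw [h9] at this
      exact this
    exact h3.exp
  have h4 : HasDerivAt (fun y : ℝ => Ph (Real.sqrt (θ ^ 3) / 2 * (y * Real.sqrt y)))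
      (-Real.exp (-(θ ^ 3 / 4 * y ^ 3)) * (Real.sqrt (θ ^ 3) / 2 * (3 / 2 * Real.sqrt y))) y := by
    have h5 := (ysy hy).const_mul (Real.sqrt (θ ^ 3) / 2)
    have h6 := (Ph_deriv (Real.sqrt (θ ^ 3) / 2 * (y * Real.sqrt y))).comp y h5
    rw [sq_s hθ hy.le] at h6
    exact h6
  have h7 := ((h1.mul h2).sub (h4.const_mul (Real.sqrt (θ ^ 3)))).const_mul (-(2 / 3 : ℝ))
  refine h7.congr_deriv ?_
  have e1 : Real.sqrt (θ ^ 3) * Real.sqrt (θ ^ 3) = θ ^ 3 := Real.mul_self_sqrt (by positivity)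
  set E := Real.exp (-(θ ^ 3 / 4 * y ^ 3))
  set w := Real.sqrt (θ ^ 3)
  have e2 : Real.sqrt y ^ 2 = y := by rw [sq]; exact hs2
  have e3 : -(2 / 3) * (-(3 / 2 * Real.sqrt y) / (y * Real.sqrt y) ^ 2 * E +
      1 / (y * Real.sqrt y) * (E * -(θ ^ 3 / 4 * (3 * y ^ 2))) -
      w * (-E * (w / 2 * (3 / 2 * Real.sqrt y)))) =
      1 / (y ^ 2 * Real.sqrt y) * E + (-(2 / 3)) * E * (3 / 4) *
        ((w * w) * Real.sqrt y - θ ^ 3 * (y ^ 2 / (y * Real.sqrt y))) := by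
    field_simp
    rw [e2]
    ring
  rw [e3, e1]
  have e4 : y ^ 2 / (y * Real.sqrt y) = Real.sqrt y := by
    rw [div_eq_iff hne]
    nlinarith
  rw [e4]
  ring

theorem Gf_zero {θ : ℝ} (hθ : 0 ≤ θ) : Tendsto (Gf θ) atTop (𝓝 0) := by
  have hys : Tendsto (fun y : ℝ => y * Real.sqrt y) atTop atTop :=
    tendsto_id.atTop_mul_atTop₀ Real.tendsto_sqrt_atTop
  have h1 : Tendsto (fun y : ℝ => 1 / (y * Real.sqrt y) * Real.exp (-(θ ^ 3 / 4 * y ^ 3))) atTop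
      (𝓝 0) := by
    have h2 : Tendsto (fun y : ℝ => 1 / (y * Real.sqrt y)) atTop (𝓝 0) :=
      tendsto_const_nhds.div_atTop hys
    refine squeeze_zero' ?_ ?_ h2
    · filter_upwards [eventually_gt_atTop 0] with y hy
      positivity
    · filter_upwards [eventually_gt_atTop 0] with y hy
      apply mul_le_of_le_one_right (by positivity)
      rw [Real.exp_le_one_iff]
      have : 0 ≤ θ ^ 3 / 4 * y ^ 3 := by positivity
      linarith
  have h2 : Tendsto (fun y : ℝ => Real.sqrt (θ ^ 3) *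
      Ph (Real.sqrt (θ ^ 3) / 2 * (y * Real.sqrt y))) atTop (𝓝 0) := by
    rcases hθ.eq_or_lt with h | h
    · rw [← h]
      simp
    · have hw : 0 < Real.sqrt (θ ^ 3) := Real.sqrt_pos.2 (by positivity)
      have h3 := Ph_zero.comp (hys.const_mul_atTop (show 0 < Real.sqrt (θ ^ 3) / 2 by positivity))
      have h4 := h3.const_mul (Real.sqrt (θ ^ 3))
      rw [mul_zero] at h4
      exact h4
  have h3 := (h1.sub h2).const_mul (-(2 / 3 : ℝ))
  simp only [sub_zero, mul_zero] at h3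
  exact h3

theorem int_closed {θ : ℝ} (hθ : 0 ≤ θ) :
    ∫ y in Ioi (1 : ℝ), 1 / (y ^ 2 * Real.sqrt y) * Real.exp (-(θ ^ 3 / 4 * y ^ 3)) =
      2 / 3 * (Real.exp (-(θ ^ 3 / 4)) - Real.sqrt (θ ^ 3) * Ph (Real.sqrt (θ ^ 3) / 2)) := by
  have h1 := integral_Ioi_of_hasDerivAt_of_nonneg' (a := 1) (g := Gf θ)
    (g' := fun y => 1 / (y ^ 2 * Real.sqrt y) * Real.exp (-(θ ^ 3 / 4 * y ^ 3))) (l := 0)
    (fun y hy => Gf_deriv hθ (lt_of_lt_of_le one_pos hy))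
    (fun y hy => by
      have : (0 : ℝ) < y := lt_trans one_pos hy
      positivity) (Gf_zero hθ)
  rw [h1]
  unfold Gf
  simp only [Real.sqrt_one, mul_one, one_pow, div_one, one_mul]
  ring

end Pool.Agent.Q291.BC
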