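import Pool.Agent.H974R2.BK
import Pool.Agent.H731R6.Bc.P2a

/-!
Events of finitely many independent fair coins and the disjoint occurrence inequality.
-/

set_option autoImplicit false

namespace Pool.Agent.Q291.BC

open MeasureTheory H974

variable {E : Type} [DecidableEq E]

/-- independent fair coins -/
noncomputable def coins (E : Type) : Measure (E → Bool) :=
  Measure.infinitePi (fun _ => (PMF.uniformOfFintype Bool).toMeasure)

instance : IsProbabilityMeasure (coins E) := by unfold coins; infer_instance

/-- the open elements of a finite set -/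
def On (S : Finset E) (ω : E → Bool) : Finset E := S.filter (fun e => ω e = true)

theorem mem_On {S : Finset E} {ω : E → Bool} {e : E} : e ∈ On S ω ↔ e ∈ S ∧ ω e = true := by
  unfold On; rw [Finset.mem_filter]

theorem On_eq_pi {S T : Finset E} (hT : T ⊆ S) :
    {ω | On S ω = T} = Set.pi (↑S : Set E) (fun g => {b : Bool | b = true ↔ g ∈ T}) := by
  ext ω
  rw [Set.mem_pi]
  constructor
  · intro h g hg
    have h' : On S ω = T := h
    show ω g = true ↔ g ∈ T
    rw [← h', mem_On]
    exact ⟨fun h => ⟨hg, h⟩, fun h => h.2⟩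
  · intro h
    show On S ω = T
    ext e
    rw [mem_On]
    constructor
    · rintro ⟨h1, h2⟩
      exact (h e h1).1 h2
    · intro h1
      exact ⟨hT h1, (h e (hT h1)).2 h1⟩

theorem meas_On (S T : Finset E) : MeasurableSet {ω | On S ω = T} := by
  by_cases hT : T ⊆ S
  · rw [On_eq_pi hT]
    exact MeasurableSet.pi (Finset.countable_toSet _) (fun _ _ => (Set.toFinite _).measurableSet)
  · have : {ω | On S ω = T} = ∅ := by
      ext ω
      simp only [Set.mem_empty_iff_false, iff_false]
      intro h
      have h' : On S ω = T := h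
      exact hT (h' ▸ Finset.filter_subset _ _)
    rw [this]
    exact MeasurableSet.empty

theorem coins_eq {S T : Finset E} (hT : T ⊆ S) : (coins E).real {ω | On S ω = T} =
    (∏ _e ∈ T, (1 / 2 : ℝ)) * ∏ _e ∈ S \ T, (1 - (1 / 2 : ℝ)) := by
  rw [measureReal_def, On_eq_pi hT]
  unfold coins
  rw [Measure.infinitePi_pi _ (fun _ _ => (Set.toFinite _).measurableSet)]
  have h1 : ∀ e ∈ S, (PMF.uniformOfFintype Bool).toMeasure {b : Bool | b = true ↔ e ∈ T} = 2⁻¹ := by
    intro e _
    by_cases he : e ∈ T
    · have : {b : Bool | b = true ↔ e ∈ T} = {true} := by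
        ext b
        simp [he]
      rw [this]
      exact H731B.P2a.coin _
    · have : {b : Bool | b = true ↔ e ∈ T} = {false} := by
        ext b
        simp [he]
      rw [this]
      exact H731B.P2a.coin _
  rw [Finset.prod_congr rfl h1, Finset.prod_const, Finset.prod_const, Finset.prod_const,
    show (1 - (1 / 2 : ℝ)) = 1 / 2 by norm_num, ← pow_add, Finset.card_sdiff_of_subset hT,
    Nat.add_sub_cancel' (Finset.card_le_card hT), ENNReal.toReal_pow, ENNReal.toReal_inv]
  simp

theorem event_union (S : Finset E) (Q : Finset E → Prop) [DecidablePred Q] :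
    {ω | Q (On S ω)} = ⋃ T ∈ S.powerset.filter Q, {ω | On S ω = T} := by
  ext ω
  simp only [Set.mem_iUnion, Finset.mem_filter, Finset.mem_powerset]
  constructor
  · intro h
    exact ⟨On S ω, ⟨Finset.filter_subset _ _, h⟩, rfl⟩
  · rintro ⟨T, ⟨-, hQ⟩, hω⟩
    have hω' : On S ω = T := hω
    show Q (On S ω)
    rw [hω']; exact hQ

theorem meas_event (S : Finset E) (Q : Finset E → Prop) : MeasurableSet {ω | Q (On S ω)} := by
  classical
  rw [event_union]
  exact Finset.measurableSet_biUnion _ (fun T _ => meas_On S T)

theorem law_event (S : Finset E) (Q : Finset E → Prop) :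
    (coins E).real {ω | Q (On S ω)} = Pr (fun _ => (1 / 2 : ℝ)) S Q := by
  classical
  rw [event_union, measureReal_biUnion_finset]
  · unfold Pr Ex
    rw [Finset.sum_filter]
    apply Finset.sum_congr rfl
    intro T hT
    show _ = (∏ _e ∈ T, (1 / 2 : ℝ)) * (∏ _e ∈ S \ T, (1 - (1 / 2 : ℝ))) * ind (Q T)
    split_ifs with hQ
    · rw [coins_eq (Finset.mem_powerset.mp hT), ind_of hQ, mul_one]
    · rw [ind_not_of hQ, mul_zero]
  · intro T _ T' _ hne
    rw [Function.onFun, Set.disjoint_left]
    intro ω h1 h2
    exact hne ((show On S ω = T from h1).symm.trans (show On S ω = T' from h2))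
  · intro T _
    exact meas_On S T

theorem coins_bk (S : Finset E) {A B : Finset E → Prop} (hA : IncrE S A) (hB : IncrE S B) :
    (coins E).real {ω | DisjOcc A B (On S ω)} ≤
      (coins E).real {ω | A (On S ω)} * (coins E).real {ω | B (On S ω)} := by
  rw [law_event, law_event, law_event]
  exact bk (fun _ => by norm_num) hA hB

end Pool.Agent.Q291.BC
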