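import Pool.Agent.Q291.BC.Abel
import Pool.Agent.Q291.BC.Erfc
import Pool.Agent.H980R2.Cont.T21

/-!
The scaling limit of the mean number of large boundary clusters.
-/

set_option autoImplicit false

namespace Pool.Agent.Q291.BC

open MeasureTheory Filter Topology H731B
open Pool.Agent.H980R2

/-- the terms -/
noncomputable def at' (R : ℕ → ℝ) (n k : ℕ) : ℝ :=
  if R n / 2 ≤ (k : ℝ) + 1 ∧ 1 ≤ n then tl n (k + 2) / (((k : ℝ) + 1) * ((k : ℝ) + 2)) else 0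

theorem at_nonneg (R : ℕ → ℝ) (n k : ℕ) : 0 ≤ at' R n k := by
  unfold at'
  split_ifs with h
  · exact div_nonneg (tl_nonneg n _ h.2) (by positivity)
  · exact le_rfl

theorem at_fin (R : ℕ → ℝ) (n : ℕ) : (Function.support (at' R n)).Finite := by
  refine (Finset.range n).finite_toSet.subset ?_
  intro k hk
  rw [Finset.mem_coe, Finset.mem_range]
  by_contra hcon
  refine hk ?_
  unfold at'
  rw [tl_gt (by omega)]
  simp

theorem kseq {R : ℕ → ℝ} (hR : Tendsto R atTop atTop) {y : ℝ} (hy : 0 < y) (c : ℕ) :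
    Tendsto (fun n => ((⌊y * R n⌋₊ + c : ℕ) : ℝ) / R n) atTop (𝓝 y) := by
  have h1 : Tendsto (fun n => ((⌊y * R n⌋₊ : ℕ) : ℝ) / R n) atTop (𝓝 y) :=
    (tendsto_nat_floor_mul_div_atTop hy.le).comp hR
  have h2 : Tendsto (fun n => (c : ℝ) / R n) atTop (𝓝 0) := tendsto_const_nhds.div_atTop hR
  have h3 := h1.add h2
  rw [add_zero] at h3
  refine h3.congr fun n => ?_
  push_cast
  rw [add_div]

theorem ktop {R : ℕ → ℝ} (hR : Tendsto R atTop atTop) {y : ℝ} (hy : 0 < y) (c : ℕ) :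
    Tendsto (fun n => ⌊y * R n⌋₊ + c) atTop atTop :=
  (tendsto_add_atTop_nat c).comp (tendsto_nat_floor_atTop.comp (hR.const_mul_atTop hy))

theorem kn {R : ℕ → ℝ} {θ : ℝ} (hR : Tendsto R atTop atTop)
    (hθ : Tendsto (fun n : ℕ => R n / (n : ℝ) ^ ((2 : ℝ) / 3)) atTop (𝓝 θ)) {y : ℝ} (hy : 0 < y)
    (c : ℕ) : Tendsto (fun n : ℕ => ((⌊y * R n⌋₊ + c : ℕ) : ℝ) / (n : ℝ) ^ ((2 : ℝ) / 3)) atTop
      (𝓝 (y * θ)) := by
  refine ((kseq hR hy c).mul hθ).congr' ?_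
  filter_upwards [hR.eventually_gt_atTop 0] with n hn
  field_simp

/-- the limit function -/
noncomputable def gg (θ y : ℝ) : ℝ := if 1 / 2 ≤ y then
  3 / (2 * Real.sqrt Real.pi) * (1 / (y ^ 2 * Real.sqrt y) * Real.exp (-(θ ^ 3 / 4 * y ^ 3))) else 0

theorem at_lim {R : ℕ → ℝ} {θ : ℝ} (hθ0 : 0 ≤ θ) (hR : Tendsto R atTop atTop)
    (hθ : Tendsto (fun n : ℕ => R n / (n : ℝ) ^ ((2 : ℝ) / 3)) atTop (𝓝 θ)) {y : ℝ} (hy : 0 < y) :
    Tendsto (fun n => at' R n ⌊y * R n⌋₊ / (1 / (R n ^ 2 * Real.sqrt (R n)))) atTop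
      (𝓝 (gg θ y)) := by
  unfold gg
  split_ifs with hy2
  · have h1 := tl_tendsto (y * θ) (by positivity) _ (ktop hR hy 2) (kn hR hθ hy 2)
    have h2 := (kseq hR hy 1).inv₀ hy.ne'
    have h3 := (kseq hR hy 2).inv₀ hy.ne'
    have h4 := ((kseq hR hy 2).sqrt).inv₀ (Real.sqrt_pos.2 hy).ne'
    have h5 := (h1.mul (h2.mul h3)).mul h4
    have e : 3 / (2 * Real.sqrt Real.pi) * Real.exp (-((y * θ) ^ 3 / 4)) * (y⁻¹ * y⁻¹) *
        (Real.sqrt y)⁻¹ = 3 / (2 * Real.sqrt Real.pi) *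
          (1 / (y ^ 2 * Real.sqrt y) * Real.exp (-(θ ^ 3 / 4 * y ^ 3))) := by
      have e1 : (y * θ) ^ 3 / 4 = θ ^ 3 / 4 * y ^ 3 := by ring
      rw [e1]
      have hs : 0 < Real.sqrt y := Real.sqrt_pos.2 hy
      field_simp
    rw [e] at h5
    refine h5.congr' ?_
    filter_upwards [hR.eventually_gt_atTop 0, eventually_ge_atTop 1] with n hn hn1
    have hfl : R n / 2 ≤ ((⌊y * R n⌋₊ : ℕ) : ℝ) + 1 := by
      have h6 := (Nat.lt_floor_add_one (y * R n)).le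
      have h7 : R n / 2 ≤ y * R n := by nlinarith
      linarith
    unfold at'
    rw [if_pos ⟨hfl, hn1⟩]
    have hs : 0 < Real.sqrt (R n) := Real.sqrt_pos.2 hn
    have hk1 : (0 : ℝ) < ((⌊y * R n⌋₊ + 2 : ℕ) : ℝ) := by positivity
    have hs2 : 0 < Real.sqrt ((⌊y * R n⌋₊ + 2 : ℕ) : ℝ) := Real.sqrt_pos.2 hk1
    rw [Real.sqrt_div hk1.le]
    have e3 : ((⌊y * R n⌋₊ + 1 : ℕ) : ℝ) = ((⌊y * R n⌋₊ : ℕ) : ℝ) + 1 := by push_cast; ring
    have e4 : ((⌊y * R n⌋₊ + 2 : ℕ) : ℝ) = ((⌊y * R n⌋₊ : ℕ) : ℝ) + 2 := by push_cast; ring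
    rw [e3, e4]
    rw [e4] at hs2
    have hk2 : (0 : ℝ) ≤ ((⌊y * R n⌋₊ : ℕ) : ℝ) := Nat.cast_nonneg _
    generalize ((⌊y * R n⌋₊ : ℕ) : ℝ) = k at *
    have hk3 : k + 1 ≠ 0 := by positivity
    have hk4 : k + 2 ≠ 0 := by positivity
    field_simp
  · push Not at hy2
    have h1 : ∀ᶠ n in atTop, 1 / (1 / 2 - y) < R n := hR.eventually_gt_atTop _
    refine tendsto_const_nhds.congr' ?_
    filter_upwards [h1, hR.eventually_gt_atTop 0] with n hn hn0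
    have h2 : ¬ (R n / 2 ≤ ((⌊y * R n⌋₊ : ℕ) : ℝ) + 1) := by
      have h3 := Nat.floor_le (show 0 ≤ y * R n by positivity)
      have h4 : 0 < 1 / 2 - y := by linarith
      rw [div_lt_iff₀ h4] at hn
      intro h5
      nlinarith
    unfold at'
    rw [if_neg (fun h => h2 h.1), zero_div]

theorem at_dom {R : ℕ → ℝ} (hR : Tendsto R atTop atTop) {C : ℝ} (hC : 0 < C)
    (hC2 : ∀ n k : ℕ, 1 ≤ k → k ≤ n →
      tl n k ≤ C / Real.sqrt k * Real.exp (-((k : ℝ)^3 / (4 * (n : ℝ)^2)))) :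
    ∀ᶠ n : ℕ in atTop, ∀ y, 0 < y → at' R n ⌊y * R n⌋₊ / (1 / (R n ^ 2 * Real.sqrt (R n))) ≤
      32 * C * (y + 1) ^ (-(5 / 2) : ℝ) := by
  filter_upwards [hR.eventually_gt_atTop 0] with n hn y hy
  have hs : 0 < Real.sqrt (R n) := Real.sqrt_pos.2 hn
  have hpos : 0 ≤ 32 * C * (y + 1) ^ (-(5 / 2) : ℝ) := by positivity
  set k := ⌊y * R n⌋₊ with hk
  rw [div_div_eq_mul_div, div_one]
  unfold at'
  split_ifs with h
  · rcases Nat.lt_or_ge n (k + 2) with h1 | h1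
    · rw [tl_gt h1, zero_div, zero_mul]
      exact hpos
    · have h2 := hC2 n (k + 2) (by omega) h1
      have h3 : Real.exp (-(((k + 2 : ℕ) : ℝ)^3 / (4 * (n : ℝ)^2))) ≤ 1 := by
        rw [Real.exp_le_one_iff]
        have : 0 ≤ ((k + 2 : ℕ) : ℝ)^3 / (4 * (n : ℝ)^2) := by positivity
        linarith
      have h4 : y * R n ≤ (k : ℝ) + 1 := (Nat.lt_floor_add_one _).le
      set u := R n * ((y + 1) / 4) with hu
      have hu0 : 0 < u := by positivity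
      have h5 : u ≤ (k : ℝ) + 1 := by
        rw [hu]
        have := h.1
        nlinarith
      have hsu : 0 < Real.sqrt u := Real.sqrt_pos.2 hu0
      have h6 : tl n (k + 2) ≤ C / Real.sqrt u := by
        refine h2.trans ?_
        have h7 : Real.sqrt u ≤ Real.sqrt ((k + 2 : ℕ) : ℝ) := by
          apply Real.sqrt_le_sqrt
          push_cast
          linarith
        calc C / Real.sqrt ((k + 2 : ℕ) : ℝ) * Real.exp (-(((k + 2 : ℕ) : ℝ)^3 / (4 * (n : ℝ)^2)))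
            ≤ C / Real.sqrt ((k + 2 : ℕ) : ℝ) * 1 := mul_le_mul_of_nonneg_left h3 (by positivity)
          _ = C / Real.sqrt ((k + 2 : ℕ) : ℝ) := mul_one _
          _ ≤ C / Real.sqrt u := div_le_div_of_nonneg_left hC.le hsu h7
      have h8 : tl n (k + 2) / (((k : ℝ) + 1) * ((k : ℝ) + 2)) ≤ C / Real.sqrt u / (u * u) := by
        apply div_le_div₀ (by positivity) h6 (by positivity)
        apply mul_le_mul h5 (by linarith) hu0.le (by positivity)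
      refine (mul_le_mul_of_nonneg_right h8 (by positivity)).trans ?_
      have h9 : (y + 1) ^ (-(5 / 2) : ℝ) = 1 / ((y + 1) ^ 2 * Real.sqrt (y + 1)) := by
        rw [Real.sqrt_eq_rpow, ← Real.rpow_natCast, ← Real.rpow_add (by positivity), Real.rpow_neg (by positivity),
          one_div]
        norm_num
      rw [h9]
      have h10 : Real.sqrt u = Real.sqrt (R n) * (Real.sqrt (y + 1) / 2) := by
        rw [hu, Real.sqrt_mul hn.le, Real.sqrt_div (by positivity)]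
        congr 2
        rw [show (4 : ℝ) = 2 ^ 2 by norm_num, Real.sqrt_sq (by norm_num)]
      rw [h10, hu]
      have hsy : 0 < Real.sqrt (y + 1) := Real.sqrt_pos.2 (by positivity)
      have hy1 : y + 1 ≠ 0 := by positivity
      apply le_of_eq
      field_simp
      norm_num
  · rw [zero_mul]
    exact hpos

theorem hint (C : ℝ) : IntegrableOn (fun y : ℝ => 32 * C * (y + 1) ^ (-(5 / 2) : ℝ)) (Set.Ioi 0) := by
  apply Integrable.const_mul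
  exact integrableOn_add_rpow_Ioi_of_lt (by norm_num) (by norm_num)

theorem at_sum {R : ℕ → ℝ} {n : ℕ} (hn : 1 ≤ n) :
    (∑ᶠ k ∈ {k : ℕ | ⌊(1 : ℝ) * R n⌋₊ ≤ k}, at' R n k) =
      ∑ i ∈ Finset.Ico (⌊R n⌋₊ + 1) n, tl n (i + 1) / ((i : ℝ) * ((i : ℝ) + 1)) := by
  rw [one_mul]
  have h1 : (∑ᶠ k ∈ {k : ℕ | ⌊R n⌋₊ ≤ k}, at' R n k) = ∑ k ∈ Finset.Ico ⌊R n⌋₊ (n - 1), at' R n k := by
    rw [finsum_mem_eq_sum_of_inter_support_eq]
    ext k
    simp only [Set.mem_inter_iff, Set.mem_ofPred_eq, Function.mem_support, Finset.coe_Ico, Set.mem_Ico]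
    constructor
    · rintro ⟨h1, h2⟩
      refine ⟨⟨h1, ?_⟩, h2⟩
      by_contra hcon
      refine h2 ?_
      unfold at'
      rw [tl_gt (by omega)]
      simp
    · rintro ⟨h1, h2⟩
      exact ⟨h1.1, h2⟩
  rw [h1]
  have h2 : Finset.Ico (⌊R n⌋₊ + 1) n = (Finset.Ico ⌊R n⌋₊ (n - 1)).map (addRightEmbedding 1) := by
    rw [Finset.map_add_right_Ico, Nat.sub_add_cancel hn]
  rw [h2, Finset.sum_map]
  refine Finset.sum_congr rfl fun k hk => ?_
  rw [Finset.mem_Ico] at hk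
  have h3 : R n / 2 ≤ (k : ℝ) + 1 := by
    have h4 := (Nat.lt_floor_add_one (R n)).le
    have h5 : ((⌊R n⌋₊ : ℕ) : ℝ) ≤ k := by exact_mod_cast hk.1
    linarith
  unfold at'
  rw [if_pos ⟨h3, hn⟩]
  simp only [addRightEmbedding_apply]
  push_cast
  rw [show (k : ℝ) + 1 + 1 = k + 2 by ring]

/-- the limit -/
noncomputable def FF (θ : ℝ) : ℝ := 1 / (2 * Real.sqrt Real.pi) * Real.exp (-(θ ^ 3 / 4)) +
  Real.sqrt (θ ^ 3) / Real.sqrt Real.pi * Ph (Real.sqrt (θ ^ 3) / 2)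

theorem Sm_lim {R : ℕ → ℝ} {θ : ℝ} (hθ0 : 0 ≤ θ) (hR : Tendsto R atTop atTop)
    (hθ : Tendsto (fun n : ℕ => R n / (n : ℝ) ^ ((2 : ℝ) / 3)) atTop (𝓝 θ)) :
    Tendsto (fun n => R n * Real.sqrt (R n) * Sm n (⌊R n⌋₊ + 1)) atTop (𝓝 (FF θ)) := by
  obtain ⟨C, hC, hC2⟩ := tl_le
  have hA : ∀ᶠ n : ℕ in atTop, 0 < 1 / (R n ^ 2 * Real.sqrt (R n)) := by
    filter_upwards [hR.eventually_gt_atTop 0] with n hn
    have : 0 < Real.sqrt (R n) := Real.sqrt_pos.2 hn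
    positivity
  have h1 := Cont.riemann (at' R) R (fun n => 1 / (R n ^ 2 * Real.sqrt (R n))) (gg θ)
    (fun y : ℝ => 32 * C * (y + 1) ^ (-(5 / 2) : ℝ)) hR hA (at_nonneg R) (at_fin R)
    (fun y hy => at_lim hθ0 hR hθ hy) (hint C) (at_dom hR hC hC2) 1 (by norm_num)
  have h2 : ∫ y in Set.Ioi (1 : ℝ), gg θ y = 3 / (2 * Real.sqrt Real.pi) *
      (2 / 3 * (Real.exp (-(θ ^ 3 / 4)) - Real.sqrt (θ ^ 3) * Ph (Real.sqrt (θ ^ 3) / 2))) := by
    rw [← int_closed hθ0, ← integral_const_mul]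
    apply setIntegral_congr_fun measurableSet_Ioi
    intro y hy
    have : (1 : ℝ) < y := hy
    unfold gg
    simp only
    rw [if_pos (by linarith)]
  rw [h2] at h1
  have h3 := tl_tendsto θ hθ0 (fun n => ⌊(1 : ℝ) * R n⌋₊ + 1) (ktop hR one_pos 1) (by
    have := kn hR hθ one_pos 1
    rwa [one_mul] at this)
  have h4 := (kseq hR one_pos 1).inv₀ one_ne_zero
  have h5 := ((kseq hR one_pos 1).sqrt).inv₀ (by rw [Real.sqrt_one]; exact one_ne_zero)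
  have h6 := ((h3.mul h4).mul h5).sub h1
  have e : 3 / (2 * Real.sqrt Real.pi) * Real.exp (-(θ ^ 3 / 4)) * 1⁻¹ * (Real.sqrt 1)⁻¹ -
      3 / (2 * Real.sqrt Real.pi) *
      (2 / 3 * (Real.exp (-(θ ^ 3 / 4)) - Real.sqrt (θ ^ 3) * Ph (Real.sqrt (θ ^ 3) / 2))) =
      FF θ := by
    unfold FF
    rw [Real.sqrt_one]
    have : 0 < Real.sqrt Real.pi := Real.sqrt_pos.2 Real.pi_pos
    field_simp
    ring
  rw [e] at h6
  refine h6.congr' ?_
  have hev := F2.ev_le (1 * θ) (fun n => ⌊(1 : ℝ) * R n⌋₊ + 1) (kn hR hθ one_pos 1)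
  filter_upwards [hR.eventually_gt_atTop 0, eventually_ge_atTop 1, hev] with n hn hn1 hev
  rw [one_mul] at hev
  have hsum := at_sum (R := R) hn1
  simp only [Set.mem_ofPred_eq] at hsum
  rw [hsum, Sm_eq (by omega) hev, one_mul]
  have hs : 0 < Real.sqrt (R n) := Real.sqrt_pos.2 hn
  have hk : (0 : ℝ) < ((⌊R n⌋₊ + 1 : ℕ) : ℝ) := by positivity
  have hs2 : 0 < Real.sqrt ((⌊R n⌋₊ + 1 : ℕ) : ℝ) := Real.sqrt_pos.2 hk
  rw [Real.sqrt_div hk.le]
  generalize ((⌊R n⌋₊ + 1 : ℕ) : ℝ) = k at *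
  generalize (∑ i ∈ Finset.Ico (⌊R n⌋₊ + 1) n, tl n (i + 1) / ((i : ℝ) * ((i : ℝ) + 1))) = S
  field_simp

end Pool.Agent.Q291.BC
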