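import Pool.Agent.Q291.BC.Rank

/-!
The largest boundary cluster: sharp upper tail.
-/

set_option autoImplicit false

namespace Pool.Agent.Q291.BC

open MeasureTheory H731B Filter Topology

/-- pairs of distinct clusters: pointwise -/
theorem pairs_le {n : ℕ} (hn : 1 ≤ n) {k : ℕ} (hk : 1 ≤ k) (ω : Conf n) :
    ((Cl n k ω).ncard : ℝ) * (((Cl n k ω).ncard : ℝ) - 1) ≤
      (∑ b ∈ bnd n, ∑ b' ∈ bnd n, DD' n k b b' ω) / (k : ℝ) ^ 2 := by
  classical
  have hk0 : (0 : ℝ) < k := by exact_mod_cast hk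
  set f : ZMod (2 * n) → ℝ := fun b => if k ≤ (bc n b ω).ncard then
      (1 : ℝ) / ((bc n b ω).ncard : ℝ) else 0 with hf
  have h1 : ((Cl n k ω).ncard : ℝ) = ∑ b ∈ bnd n, f b := count_eq hn ω
  have h2 : ∀ b ∈ bnd n, ∑ b' ∈ bnd n, CC n b b' ω * f b' = if k ≤ (bc n b ω).ncard then 1 else 0 := by
    intro b hb
    have h3 : ∀ b' ∈ bnd n, CC n b b' ω * f b' = CC n b b' ω * f b := by
      intro b' _
      unfold CC
      simp only [Set.indicator_apply, Set.mem_ofPred_eq]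
      split_ifs with h4
      · rw [hf]
        simp only
        rw [bc_eq h4]
      · ring
    rw [Finset.sum_congr rfl h3, ← Finset.sum_mul, CC_sum hn ((mem_bnd hn).1 hb)]
    rw [hf]
    simp only
    split_ifs with h5
    · have : (0 : ℝ) < ((bc n b ω).ncard : ℝ) := by
        have : 0 < (bc n b ω).ncard := by omega
        exact_mod_cast this
      field_simp
    · ring
  have h3 : ∑ b ∈ bnd n, f b * ∑ b' ∈ bnd n, CC n b b' ω * f b' = ∑ b ∈ bnd n, f b := by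
    refine Finset.sum_congr rfl fun b hb => ?_
    rw [h2 b hb, hf]
    simp only
    split_ifs <;> ring
  have h4 : ((Cl n k ω).ncard : ℝ) * (((Cl n k ω).ncard : ℝ) - 1) =
      ∑ b ∈ bnd n, ∑ b' ∈ bnd n, f b * f b' * (1 - CC n b b' ω) := by
    rw [mul_sub, mul_one, h1]
    conv_lhs => rw [← h3]
    rw [h3, Finset.sum_mul_sum]
    conv_lhs => rw [← h3]
    rw [← Finset.sum_sub_distrib]
    refine Finset.sum_congr rfl fun b _ => ?_
    rw [Finset.mul_sum, ← Finset.sum_sub_distrib]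
    refine Finset.sum_congr rfl fun b' _ => ?_
    ring
  rw [h4, Finset.sum_div]
  apply Finset.sum_le_sum
  intro b _
  rw [Finset.sum_div]
  apply Finset.sum_le_sum
  intro b' _
  have hfb : ∀ c : ZMod (2 * n), 0 ≤ f c ∧ f c ≤ 1 / k ∧ (¬ k ≤ (bc n c ω).ncard → f c = 0) := by
    intro c
    rw [hf]
    simp only
    split_ifs with h5
    · refine ⟨by positivity, ?_, fun h => absurd h5 h⟩
      exact one_div_le_one_div_of_le hk0 (by exact_mod_cast h5)
    · exact ⟨le_rfl, by positivity, fun _ => rfl⟩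
  unfold CC DD' Dst
  simp only [Set.indicator_apply, Set.mem_ofPred_eq]
  obtain ⟨a1, a2, a3⟩ := hfb b
  obtain ⟨c1, c2, c3⟩ := hfb b'
  by_cases h5 : b' ∈ bc n b ω
  · simp only [h5, not_true_eq_false, and_false, if_false, if_true, sub_self, mul_zero]
    positivity
  · by_cases h6 : k ≤ (bc n b ω).ncard
    · by_cases h7 : k ≤ (bc n b' ω).ncard
      · simp only [h5, h6, h7, not_false_eq_true, and_self, if_true, if_false, sub_zero, mul_one]
        calc f b * f b' ≤ 1 / k * (1 / k) := mul_le_mul a2 c2 c1 (by positivity)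
          _ = 1 / (k : ℝ) ^ 2 := by
            field_simp
      · simp only [h5, h6, h7, if_false, false_and, and_false, sub_zero, mul_one, c3 h7, mul_zero]
        positivity
    · simp only [h5, h6, if_false, false_and, sub_zero, mul_one, a3 h6, zero_mul]
      positivity

/-- some cluster has at least `k` boundary vertices -/
def Ev (n k : ℕ) : Set (Conf n) := {ω | 1 ≤ (Cl n k ω).ncard}

theorem Ev_eq {n : ℕ} (hn : 1 ≤ n) (k : ℕ) : Ev n k = ⋃ b ∈ bnd n, {ω | k ≤ (bc n b ω).ncard} := by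
  ext ω
  simp only [Set.mem_iUnion]
  unfold Ev
  rw [Set.mem_ofPred_eq]
  constructor
  · intro h
    have h1 : (Cl n k ω).Nonempty := by
      rw [← Set.ncard_pos (Cl_fin hn k ω)]
      omega
    obtain ⟨C, ⟨b, hb, rfl⟩, hC⟩ := h1
    exact ⟨b, (mem_bnd hn).2 hb, hC⟩
  · rintro ⟨b, hb, hk⟩
    have h1 : (Cl n k ω).Nonempty := ⟨bc n b ω, ⟨b, (mem_bnd hn).1 hb, rfl⟩, hk⟩
    have := (Set.ncard_pos (Cl_fin hn k ω)).2 h1
    omega

theorem Ev_meas {n : ℕ} (hn : 1 ≤ n) (k : ℕ) : MeasurableSet (Ev n k) := by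
  rw [Ev_eq hn]
  exact Finset.measurableSet_biUnion _ fun b _ => meas_big hn b k

/-- upper bound -/
theorem Ev_upper {n : ℕ} (hn : 1 ≤ n) {k : ℕ} (hk : 1 ≤ k) : (perc n).real (Ev n k) ≤ n * Sm n k := by
  rw [show (n : ℝ) * Sm n k = ∫ ω, ((Cl n k ω).ncard : ℝ) ∂(perc n) from (mean_count hn hk).2.symm]
  have h1 : (perc n).real (Ev n k) = ∫ ω, (Ev n k).indicator (fun _ => (1 : ℝ)) ω ∂(perc n) := by
    rw [integral_indicator_const _ (Ev_meas hn k), smul_eq_mul, mul_one]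
  rw [h1]
  apply integral_mono ((integrable_const _).indicator (Ev_meas hn k)) (mean_count hn hk).1
  intro ω
  by_cases h : ω ∈ Ev n k
  · show (Ev n k).indicator (fun _ => (1 : ℝ)) ω ≤ ((Cl n k ω).ncard : ℝ)
    rw [Set.indicator_of_mem h]
    have : 1 ≤ (Cl n k ω).ncard := h
    exact_mod_cast this
  · show (Ev n k).indicator (fun _ => (1 : ℝ)) ω ≤ ((Cl n k ω).ncard : ℝ)
    rw [Set.indicator_of_notMem h]
    exact Nat.cast_nonneg _

/-- lower bound by inclusion and exclusion -/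
theorem Ev_lower {n : ℕ} (hn : 1 ≤ n) {k : ℕ} (hk : 1 ≤ k) (hkn : k ≤ n) :
    n * Sm n k - (n * tl n k / k) ^ 2 / 2 ≤ (perc n).real (Ev n k) := by
  have hk0 : (0 : ℝ) < k := by exact_mod_cast hk
  have h1 : (perc n).real (Ev n k) = ∫ ω, (Ev n k).indicator (fun _ => (1 : ℝ)) ω ∂(perc n) := by
    rw [integral_indicator_const _ (Ev_meas hn k), smul_eq_mul, mul_one]
  have hD : ∀ b b' : ZMod (2 * n), Integrable (DD' n k b b') (perc n) := fun b b' =>
    (integrable_const _).indicator (meas_Dst hn k b b')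
  have hI : Integrable (fun ω => (∑ b ∈ bnd n, ∑ b' ∈ bnd n, DD' n k b b' ω) / (k : ℝ) ^ 2 / 2)
      (perc n) :=
    ((integrable_finsetSum _ fun b _ => integrable_finsetSum _ fun b' _ => hD b b').div_const _).div_const _
  have h2 : ∫ ω, (((Cl n k ω).ncard : ℝ) -
      (∑ b ∈ bnd n, ∑ b' ∈ bnd n, DD' n k b b' ω) / (k : ℝ) ^ 2 / 2) ∂(perc n) ≤
      (perc n).real (Ev n k) := by
    rw [h1]
    apply integral_mono ((mean_count hn hk).1.sub hI) ((integrable_const _).indicator (Ev_meas hn k))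
    intro ω
    have h3 := pairs_le hn hk ω
    have h4 : ((Cl n k ω).ncard : ℝ) - ((Cl n k ω).ncard : ℝ) * (((Cl n k ω).ncard : ℝ) - 1) / 2 ≤
        (Ev n k).indicator (fun _ => (1 : ℝ)) ω := by
      by_cases h : ω ∈ Ev n k
      · rw [Set.indicator_of_mem h]
        have h5 : 1 ≤ (Cl n k ω).ncard := h
        rcases Nat.lt_or_ge (Cl n k ω).ncard 2 with h6 | h6
        · have : (Cl n k ω).ncard = 1 := by omega
          rw [this]
          norm_num
        · have h7 : (2 : ℝ) ≤ ((Cl n k ω).ncard : ℝ) := by exact_mod_cast h6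
          nlinarith [mul_nonneg (sub_nonneg.2 h7) (show (0 : ℝ) ≤ ((Cl n k ω).ncard : ℝ) - 1 by linarith)]
      · rw [Set.indicator_of_notMem h]
        have h5 : (Cl n k ω).ncard = 0 := by
          have : ¬ 1 ≤ (Cl n k ω).ncard := h
          omega
        rw [h5]
        norm_num
    show ((Cl n k ω).ncard : ℝ) - (∑ b ∈ bnd n, ∑ b' ∈ bnd n, DD' n k b b' ω) / (k : ℝ) ^ 2 / 2 ≤
      (Ev n k).indicator (fun _ => (1 : ℝ)) ω
    linarith
  refine le_trans ?_ h2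
  have hm : ∫ ω, ((Cl n k ω).ncard : ℝ) ∂(perc n) = (n : ℝ) * Sm n k := (mean_count hn hk).2
  rw [integral_sub (mean_count hn hk).1 hI, hm, integral_div, integral_div,
    integral_finsetSum _ (fun b _ => integrable_finsetSum _ fun b' _ => hD b b')]
  have h5 : ∑ b ∈ bnd n, ∫ ω, ∑ b' ∈ bnd n, DD' n k b b' ω ∂(perc n) ≤
      ∑ b ∈ bnd n, ∑ b' ∈ bnd n, tl n k * tl n k := by
    apply Finset.sum_le_sum
    intro b hb
    rw [integral_finsetSum _ fun b' _ => hD b b']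
    apply Finset.sum_le_sum
    intro b' hb'
    unfold DD'
    rw [integral_indicator_const _ (meas_Dst hn k b b'), smul_eq_mul, mul_one]
    exact two_distinct hn ((mem_bnd hn).1 hb) ((mem_bnd hn).1 hb') (by omega)
  rw [Finset.sum_const, Finset.sum_const, card_bnd hn, nsmul_eq_mul, nsmul_eq_mul] at h5
  have h6 : (n * tl n k / k) ^ 2 / 2 = (n * (n * (tl n k * tl n k))) / (k : ℝ) ^ 2 / 2 := by
    field_simp
  rw [h6]
  apply sub_le_sub_left
  gcongr

/-- the ratio of consecutive weights -/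
theorem tl_ratio {n k : ℕ} (hk : 1 ≤ k) (hkn : k + 1 ≤ n) :
    tl n (k + 1) ≤ (1 - 3 * (k : ℝ) ^ 2 / (4 * (n : ℝ) ^ 2)) * tl n k := by
  have hn : 1 ≤ n := by omega
  have hn0 : (0 : ℝ) < n := by exact_mod_cast hn
  have hk' : (1 : ℝ) ≤ k := by exact_mod_cast hk
  unfold tl
  rw [hc_eq (by omega) hkn, hc_eq hk (by omega)]
  have hw : ww n (k + 1) = ww n k * ((1 - (k : ℝ)^2 / (n : ℝ)^2) / (1 - (k : ℝ)^2 / (4 * (n : ℝ)^2))) := by
    unfold ww
    obtain ⟨j, rfl⟩ : ∃ j, k = j + 1 := ⟨k - 1, by omega⟩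
    rw [show j + 1 + 1 - 1 = j + 1 by omega, show j + 1 - 1 = j by omega,
      Finset.prod_Icc_succ_top (by omega)]
  obtain ⟨h1, h2, -, h4⟩ := F2b.fac hn hkn (i := k) (by rw [Finset.mem_Icc]; omega)
  rw [hw, h4]
  have h5 : 1 - 3 * ((k : ℝ) ^ 2 / (4 * (n : ℝ) ^ 2)) / (1 - (k : ℝ)^2 / (4 * (n : ℝ)^2)) ≤
      1 - 3 * (k : ℝ) ^ 2 / (4 * (n : ℝ) ^ 2) := by
    have h6 : 3 * ((k : ℝ) ^ 2 / (4 * (n : ℝ) ^ 2)) ≤
        3 * ((k : ℝ) ^ 2 / (4 * (n : ℝ) ^ 2)) / (1 - (k : ℝ)^2 / (4 * (n : ℝ)^2)) := by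
      rw [le_div_iff₀ (by linarith)]
      nlinarith
    have h7 : 3 * ((k : ℝ) ^ 2 / (4 * (n : ℝ) ^ 2)) = 3 * (k : ℝ) ^ 2 / (4 * (n : ℝ) ^ 2) := by ring
    linarith
  have h6 : (3 * ((k + 1 : ℕ) : ℝ) - 1) * hi (k + 1) ≤ (3 * (k : ℝ) - 1) * hi k := by
    have e : ∀ m : ℕ, 1 ≤ m → (3 * (m : ℝ) - 1) * hi m = aj m * ((3 * (m : ℝ) - 1) / (2 * m - 1)) := by
      intro m hm
      unfold hi aj
      have hm' : (1 : ℝ) ≤ m := by exact_mod_cast hm
      have : (2 * (m : ℝ) - 1) ≠ 0 := by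
        have : 0 < 2 * (m : ℝ) - 1 := by linarith
        exact this.ne'
      field_simp
    rw [e (k + 1) (by omega), e k hk]
    have h7 := aj_step k
    have ha := aj_pos k
    have hb := aj_pos (k + 1)
    have h8 : aj (k + 1) ≤ aj k := by nlinarith
    have h9 : (3 * ((k + 1 : ℕ) : ℝ) - 1) / (2 * ((k + 1 : ℕ) : ℝ) - 1) ≤ (3 * (k : ℝ) - 1) / (2 * k - 1) := by
      push_cast
      rw [div_le_div_iff₀ (by linarith) (by linarith)]
      nlinarith
    have h10 : 0 ≤ (3 * ((k + 1 : ℕ) : ℝ) - 1) / (2 * ((k + 1 : ℕ) : ℝ) - 1) := by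
      push_cast
      apply div_nonneg <;> linarith
    exact mul_le_mul h8 h9 h10 ha.le
  have h7 := ww_nonneg (n := n) (k := k) (by omega)
  have h8 : 0 ≤ (3 * (k : ℝ) - 1) * hi k := mul_nonneg (by linarith) (hi_pos hk).le
  have h9 : 0 ≤ 1 - 3 * (k : ℝ) ^ 2 / (4 * (n : ℝ) ^ 2) := by
    have : 3 * (k : ℝ) ^ 2 / (4 * (n : ℝ) ^ 2) ≤ 3 / 4 := by
      have h10 : (k : ℝ) ^ 2 / (4 * (n : ℝ)^2) ≤ 1 / 4 := h2
      have h11 : 3 * (k : ℝ) ^ 2 / (4 * (n : ℝ) ^ 2) = 3 * ((k : ℝ) ^ 2 / (4 * (n : ℝ)^2)) := by ring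
      linarith
    linarith
  calc (3 * ((k + 1 : ℕ) : ℝ) - 1) * (hi (k + 1) * (ww n k * (1 - 3 * ((k : ℝ) ^ 2 /
        (4 * (n : ℝ) ^ 2)) / (1 - (k : ℝ)^2 / (4 * (n : ℝ)^2)))))
      = ((3 * ((k + 1 : ℕ) : ℝ) - 1) * hi (k + 1)) * (ww n k * (1 - 3 * ((k : ℝ) ^ 2 /
        (4 * (n : ℝ) ^ 2)) / (1 - (k : ℝ)^2 / (4 * (n : ℝ)^2)))) := by ring
    _ ≤ ((3 * (k : ℝ) - 1) * hi k) * (ww n k * (1 - 3 * (k : ℝ) ^ 2 / (4 * (n : ℝ) ^ 2))) := by
        apply mul_le_mul h6 (mul_le_mul_of_nonneg_left h5 h7) _ h8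
        rw [← h4]
        apply mul_nonneg h7
        have h5' : (k : ℝ)^2 / (n : ℝ)^2 = 4 * ((k : ℝ) ^ 2 / (4 * (n : ℝ) ^ 2)) := by
          field_simp
        rw [h5']
        apply div_nonneg <;> linarith
    _ = _ := by ring

/-- the sum of the following weights -/
theorem tail_sum {n k : ℕ} (hk : 1 ≤ k) (hkn : k ≤ n) :
    ∑ i ∈ Finset.Ico k n, tl n (i + 1) ≤ 4 * (n : ℝ) ^ 2 / (3 * (k : ℝ) ^ 2) * tl n k := by
  have hn : 1 ≤ n := by omega
  have hn0 : (0 : ℝ) < n := by exact_mod_cast hn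
  have hk0 : (0 : ℝ) < k := by exact_mod_cast hk
  set c : ℝ := 3 * (k : ℝ) ^ 2 / (4 * (n : ℝ) ^ 2) with hc
  have hc0 : 0 < c := by positivity
  -- telescoping: c * tl (i) <= tl i - tl (i+1) for i >= k
  have h1 : ∀ i ∈ Finset.Ico k n, c * tl n i ≤ tl n i - tl n (i + 1) := by
    intro i hi
    rw [Finset.mem_Ico] at hi
    have h2 := tl_ratio (n := n) (k := i) (by omega) (by omega)
    have h3 : c ≤ 3 * (i : ℝ) ^ 2 / (4 * (n : ℝ) ^ 2) := by
      rw [hc]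
      have : (k : ℝ) ≤ i := by exact_mod_cast hi.1
      gcongr
    have h4 := tl_nonneg n i hn
    nlinarith
  have h2 : ∑ i ∈ Finset.Ico k n, c * tl n (i + 1) ≤ ∑ i ∈ Finset.Ico k n, (tl n i - tl n (i + 1)) := by
    apply Finset.sum_le_sum
    intro i hi
    refine le_trans ?_ (h1 i hi)
    rw [Finset.mem_Ico] at hi
    exact mul_le_mul_of_nonneg_left (tl_anti' hn (by omega)) hc0.le
  have h3 : ∑ i ∈ Finset.Ico k n, (tl n i - tl n (i + 1)) = tl n k - tl n n := by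
    have : ∀ m, k ≤ m → ∑ i ∈ Finset.Ico k m, (tl n i - tl n (i + 1)) = tl n k - tl n m := by
      intro m hm
      induction m, hm using Nat.le_induction with
      | base => simp
      | succ m hm ih =>
        rw [Finset.sum_Ico_succ_top hm, ih]
        ring
    exact this n hkn
  rw [h3, ← Finset.mul_sum] at h2
  have h4 := tl_nonneg n n hn
  have h5 : ∑ i ∈ Finset.Ico k n, tl n (i + 1) ≤ tl n k / c := by
    rw [le_div_iff₀ hc0]
    linarith
  refine h5.trans (le_of_eq ?_)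
  rw [hc]
  field_simp

/-- the mean is `n T / k` up to a small relative error -/
theorem Sm_sharp {n k : ℕ} (hk : 1 ≤ k) (hkn : k ≤ n) :
    (1 - 4 * (n : ℝ) ^ 2 / (3 * (k : ℝ) ^ 3)) * (tl n k / k) ≤ Sm n k := by
  have hn : 1 ≤ n := by omega
  have hk0 : (0 : ℝ) < k := by exact_mod_cast hk
  rw [Sm_eq hk hkn]
  have h1 : ∑ i ∈ Finset.Ico k n, tl n (i + 1) / ((i : ℝ) * ((i : ℝ) + 1)) ≤
      ∑ i ∈ Finset.Ico k n, tl n (i + 1) / (k : ℝ) ^ 2 := by
    apply Finset.sum_le_sum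
    intro i hi
    rw [Finset.mem_Ico] at hi
    have h2 : (k : ℝ) ≤ i := by exact_mod_cast hi.1
    apply div_le_div_of_nonneg_left (tl_nonneg n _ hn) (by positivity)
    nlinarith
  rw [← Finset.sum_div] at h1
  have h2 := tail_sum hk hkn
  have h3 : (∑ i ∈ Finset.Ico k n, tl n (i + 1)) / (k : ℝ) ^ 2 ≤
      4 * (n : ℝ) ^ 2 / (3 * (k : ℝ) ^ 2) * tl n k / (k : ℝ) ^ 2 :=
    div_le_div_of_nonneg_right h2 (by positivity)
  have h4 : 4 * (n : ℝ) ^ 2 / (3 * (k : ℝ) ^ 2) * tl n k / (k : ℝ) ^ 2 =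
      4 * (n : ℝ) ^ 2 / (3 * (k : ℝ) ^ 3) * (tl n k / k) := by
    field_simp
  rw [h4] at h3
  linarith

end Pool.Agent.Q291.BC
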