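import Pool.Agent.Q291.BC.Max

/-!
The largest boundary cluster: sharp asymptotics of the upper tail.
-/

set_option autoImplicit false

namespace Pool.Agent.Q291.BC

open MeasureTheory H731B Filter Topology

/-- the main term -/
noncomputable def mm (n k : ℕ) : ℝ := n * tl n k / k

/-- the mean number of pairs -/
theorem DD_int {n : ℕ} (hn : 1 ≤ n) {k : ℕ} (hk : 1 ≤ k) (hkn : k ≤ n) :
    Integrable (fun ω => (∑ b ∈ bnd n, ∑ b' ∈ bnd n, DD' n k b b' ω) / (k : ℝ) ^ 2 / 2) (perc n) ∧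
    ∫ ω, (∑ b ∈ bnd n, ∑ b' ∈ bnd n, DD' n k b b' ω) / (k : ℝ) ^ 2 / 2 ∂(perc n) ≤ mm n k ^ 2 / 2 := by
  have hk0 : (0 : ℝ) < k := by exact_mod_cast hk
  have hD : ∀ b b' : ZMod (2 * n), Integrable (DD' n k b b') (perc n) := fun b b' =>
    (integrable_const _).indicator (meas_Dst hn k b b')
  refine ⟨((integrable_finsetSum _ fun b _ => integrable_finsetSum _ fun b' _ => hD b b').div_const
    _).div_const _, ?_⟩
  rw [integral_div, integral_div,
    integral_finsetSum _ (fun b _ => integrable_finsetSum _ fun b' _ => hD b b')]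
  have h5 : ∑ b ∈ bnd n, ∫ ω, ∑ b' ∈ bnd n, DD' n k b b' ω ∂(perc n) ≤
      ∑ b ∈ bnd n, ∑ b' ∈ bnd n, tl n k * tl n k := by
    apply Finset.sum_le_sum
    intro b hb
    rw [integral_finsetSum _ fun b' _ => hD b b']
    apply Finset.sum_le_sum
    intro b' hb'
    unfold DD'
    rw [integral_indicator_const _ (meas_Dst hn k b b'), smul_eq_mul, mul_one]
    exact two_distinct hn ((mem_bnd hn).1 hb) ((mem_bnd hn).1 hb') (by omega)
  rw [Finset.sum_const, Finset.sum_const, card_bnd hn, nsmul_eq_mul, nsmul_eq_mul] at h5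
  have h6 : mm n k ^ 2 / 2 = (n * (n * (tl n k * tl n k))) / (k : ℝ) ^ 2 / 2 := by
    unfold mm
    field_simp
  rw [h6]
  gcongr

theorem Ev_two {n : ℕ} (hn : 1 ≤ n) {k : ℕ} (hk : 1 ≤ k) (hkn : k ≤ n) :
    (perc n).real {ω | 2 ≤ (Cl n k ω).ncard} ≤ mm n k ^ 2 / 2 := by
  obtain ⟨h1, h2⟩ := DD_int hn hk hkn
  refine le_trans ?_ h2
  have h3 : (perc n).real {ω | 2 ≤ (Cl n k ω).ncard} ≤ (perc n).real {ω | (1 : ℝ) ≤
      (∑ b ∈ bnd n, ∑ b' ∈ bnd n, DD' n k b b' ω) / (k : ℝ) ^ 2 / 2} := by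
    refine measureReal_mono (fun ω hω => ?_) (measure_ne_top _ _)
    have h4 : 2 ≤ (Cl n k ω).ncard := hω
    have h5 : (2 : ℝ) ≤ ((Cl n k ω).ncard : ℝ) := by exact_mod_cast h4
    have h6 := pairs_le hn hk ω
    show (1 : ℝ) ≤ _
    nlinarith [mul_nonneg (sub_nonneg.2 h5) (show (0 : ℝ) ≤ ((Cl n k ω).ncard : ℝ) + 1 by linarith)]
  refine h3.trans ?_
  have h4 := mul_meas_ge_le_integral_of_nonneg (μ := perc n)
    (f := fun ω => (∑ b ∈ bnd n, ∑ b' ∈ bnd n, DD' n k b b' ω) / (k : ℝ) ^ 2 / 2)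
    (Eventually.of_forall fun ω => ?_) h1 1
  · rw [one_mul] at h4
    exact h4
  · show (0 : ℝ) ≤ _
    apply div_nonneg (div_nonneg _ (by positivity)) (by norm_num)
    refine Finset.sum_nonneg fun b _ => Finset.sum_nonneg fun b' _ => ?_
    unfold DD'
    exact Set.indicator_nonneg (fun _ _ => zero_le_one) _

/-! ### the weights -/

/-- the factors -/
noncomputable def ff (n i : ℕ) : ℝ :=
  (1 - (i : ℝ)^2 / (n : ℝ)^2) / (1 - (i : ℝ)^2 / (4 * (n : ℝ)^2))

/-- the half plane weights -/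
noncomputable def al (k : ℕ) : ℝ := (3 * (k : ℝ) - 1) * hi k

theorem al_pos {k : ℕ} (hk : 1 ≤ k) : 0 < al k := by
  have hk' : (1 : ℝ) ≤ k := by exact_mod_cast hk
  exact mul_pos (by linarith) (hi_pos hk)

theorem tl_al {n k : ℕ} (h1 : 1 ≤ k) (hk : k ≤ n) : tl n k = al k * ww n k := by
  unfold tl al
  rw [hc_eq h1 hk]
  ring

theorem den_pos {n i : ℕ} (hi : i < n) : 3 / 4 ≤ 1 - (i : ℝ)^2 / (4 * (n : ℝ)^2) := by
  have hn0 : (0 : ℝ) < n := by
    have : 0 < n := by omega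
    exact_mod_cast this
  have h1 : (i : ℝ) ≤ n := by exact_mod_cast hi.le
  have h2 : (i : ℝ)^2 / (4 * (n : ℝ)^2) ≤ 1 / 4 := by
    rw [div_le_div_iff₀ (by positivity) (by norm_num)]
    have := pow_le_pow_left₀ (Nat.cast_nonneg i) h1 2
    linarith
  linarith

theorem sq_lt {n i : ℕ} (hi : i < n) : (i : ℝ)^2 / (n : ℝ)^2 < 1 := by
  have hn0 : (0 : ℝ) < n := by
    have : 0 < n := by omega
    exact_mod_cast this
  have h1 : (i : ℝ) < n := by exact_mod_cast hi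
  rw [div_lt_one (by positivity)]
  exact pow_lt_pow_left₀ h1 (Nat.cast_nonneg i) (by norm_num)

theorem ff_pos {n i : ℕ} (hi : i < n) : 0 < ff n i :=
  div_pos (sub_pos.2 (sq_lt hi)) (lt_of_lt_of_le (by norm_num) (den_pos hi))

theorem ff_upper {n i : ℕ} (hi : i < n) : ff n i ≤ Real.exp (-(3 / 4 * ((i : ℝ)^2 / (n : ℝ)^2))) := by
  have h1 := den_pos hi
  have h2 := sq_lt hi
  set u : ℝ := (i : ℝ)^2 / (n : ℝ)^2 with hu
  have hu0 : 0 ≤ u := by positivity
  have h3 : (i : ℝ)^2 / (4 * (n : ℝ)^2) = u / 4 := by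
    rw [hu, div_div, mul_comm]
  rw [h3] at h1
  have h4 : ff n i ≤ 1 - 3 / 4 * u := by
    unfold ff
    rw [h3, ← hu, div_le_iff₀ (by linarith)]
    nlinarith
  refine h4.trans ?_
  have := Real.add_one_le_exp (-(3 / 4 * u))
  linarith

theorem ff_lower {n i : ℕ} (hi : i < n) :
    Real.exp (-(3 / 4 * ((i : ℝ)^2 / (n : ℝ)^2) / (1 - (i : ℝ)^2 / (n : ℝ)^2))) ≤ ff n i := by
  have h1 := den_pos hi
  have h2 := sq_lt hi
  set u : ℝ := (i : ℝ)^2 / (n : ℝ)^2 with hu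
  have hu0 : 0 ≤ u := by positivity
  have h3 : (i : ℝ)^2 / (4 * (n : ℝ)^2) = u / 4 := by
    rw [hu, div_div, mul_comm]
  rw [h3] at h1
  have h4 : ff n i = (1 - u) / (1 - u / 4) := by
    unfold ff
    rw [h3]
  rw [h4]
  have h5 : 0 < 1 - u := by linarith
  have h6 : 0 < 1 - u / 4 := by linarith
  have h7 : (1 - u / 4) / (1 - u) = 1 + 3 / 4 * u / (1 - u) := by
    field_simp
    ring
  have h8 := Real.add_one_le_exp (3 / 4 * u / (1 - u))
  rw [Real.exp_neg, inv_le_comm₀ (Real.exp_pos _) (div_pos h5 h6), inv_div, h7]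
  linarith

theorem ww_step {n k : ℕ} (hk : 1 ≤ k) : ∀ l, k ≤ l → ww n l = ww n k * ∏ i ∈ Finset.Ico k l, ff n i := by
  intro l hl
  induction l, hl using Nat.le_induction with
  | base => simp
  | succ l hl ih =>
    rw [Finset.prod_Ico_succ_top hl, ← mul_assoc, ← ih]
    unfold ww
    obtain ⟨j, rfl⟩ : ∃ j, l = j + 1 := ⟨l - 1, by omega⟩
    rw [show j + 1 + 1 - 1 = j + 1 by omega, show j + 1 - 1 = j by omega,
      Finset.prod_Icc_succ_top (by omega)]
    rfl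

theorem ww_one (n : ℕ) : ww n 1 = 1 := by
  unfold ww
  simp

theorem ww_eq {n k : ℕ} (hk : 1 ≤ k) : ww n k = ∏ i ∈ Finset.Ico 1 k, ff n i := by
  rw [ww_step le_rfl k hk, ww_one, one_mul]

theorem ww_pos {n k : ℕ} (hk : 1 ≤ k) (hkn : k ≤ n) : 0 < ww n k := by
  rw [ww_eq hk]
  refine Finset.prod_pos fun i hi => ?_
  rw [Finset.mem_Ico] at hi
  exact ff_pos (by omega)

theorem tl_pos {n k : ℕ} (hk : 1 ≤ k) (hkn : k ≤ n) : 0 < tl n k := by
  rw [tl_al hk hkn]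
  exact mul_pos (al_pos hk) (ww_pos hk hkn)

theorem mm_pos {n k : ℕ} (hk : 1 ≤ k) (hkn : k ≤ n) : 0 < mm n k := by
  have h1 : (0 : ℝ) < k := by exact_mod_cast hk
  have h2 : (0 : ℝ) < n := lt_of_lt_of_le h1 (by exact_mod_cast hkn)
  have := tl_pos hk hkn
  unfold mm
  positivity

/-- the ratio of the weights -/
theorem tl_quot {n k l : ℕ} (hk : 1 ≤ k) (hkl : k ≤ l) (hl : l ≤ n) :
    tl n l / tl n k = al l / al k * ∏ i ∈ Finset.Ico k l, ff n i := by
  rw [tl_al hk (by omega), tl_al (by omega) hl, ww_step hk l hkl]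
  have h1 := al_pos hk
  have h2 := ww_pos hk (hkl.trans hl)
  field_simp

theorem prod_upper {n k l : ℕ} (hl : l ≤ n) :
    ∏ i ∈ Finset.Ico k l, ff n i ≤ Real.exp (-(3 / 4 * (((l : ℝ) - k) * ((k : ℝ)^2 / (n : ℝ)^2)))) ∨
      l < k := by
  rcases Nat.lt_or_ge l k with h | h
  · exact Or.inr h
  left
  calc ∏ i ∈ Finset.Ico k l, ff n i
      ≤ ∏ i ∈ Finset.Ico k l, Real.exp (-(3 / 4 * ((k : ℝ)^2 / (n : ℝ)^2))) := by
        apply Finset.prod_le_prod
        · intro i hi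
          rw [Finset.mem_Ico] at hi
          exact (ff_pos (by omega)).le
        · intro i hi
          rw [Finset.mem_Ico] at hi
          refine (ff_upper (by omega)).trans ?_
          apply Real.exp_le_exp.2
          have : (k : ℝ) ≤ i := by exact_mod_cast hi.1
          gcongr
    _ = _ := by
        rw [Finset.prod_const, Nat.card_Ico, ← Real.exp_nat_mul, Nat.cast_sub h]
        congr 1
        ring

theorem prod_lower {n k l : ℕ} (hkl : k ≤ l) (hl : l < n) :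
    Real.exp (-(3 / 4 * (((l : ℝ) - k) * ((l : ℝ)^2 / (n : ℝ)^2)) / (1 - (l : ℝ)^2 / (n : ℝ)^2))) ≤
      ∏ i ∈ Finset.Ico k l, ff n i := by
  have h2 := sq_lt hl
  calc Real.exp (-(3 / 4 * (((l : ℝ) - k) * ((l : ℝ)^2 / (n : ℝ)^2)) / (1 - (l : ℝ)^2 / (n : ℝ)^2)))
      = ∏ i ∈ Finset.Ico k l, Real.exp (-(3 / 4 * ((l : ℝ)^2 / (n : ℝ)^2) / (1 - (l : ℝ)^2 / (n : ℝ)^2))) := by
        rw [Finset.prod_const, Nat.card_Ico, ← Real.exp_nat_mul, Nat.cast_sub hkl]
        congr 1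
        ring
    _ ≤ ∏ i ∈ Finset.Ico k l, ff n i := by
        apply Finset.prod_le_prod
        · intro i _
          exact (Real.exp_pos _).le
        · intro i hi
          rw [Finset.mem_Ico] at hi
          refine le_trans ?_ (ff_lower (by omega))
          apply Real.exp_le_exp.2
          have h3 : (i : ℝ) ≤ l := by exact_mod_cast hi.2.le
          have h4 : (i : ℝ)^2 / (n : ℝ)^2 ≤ (l : ℝ)^2 / (n : ℝ)^2 := by gcongr
          have h5 : 0 < 1 - (l : ℝ)^2 / (n : ℝ)^2 := by linarith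
          apply neg_le_neg
          apply div_le_div₀ (by positivity) (by linarith) h5 (by linarith)

end Pool.Agent.Q291.BC
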