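import Pool.Agent.Q291.BC.Max2

/-!
The largest boundary cluster: limits.
-/

set_option autoImplicit false

namespace Pool.Agent.Q291.BC

open MeasureTheory H731B Filter Topology

/-- `k_n / n^(2/3)` tends to infinity -/
def Lrg (k : ℕ → ℕ) : Prop :=
  Tendsto (fun n : ℕ => (k n : ℝ) / (n : ℝ) ^ ((2 : ℝ) / 3)) atTop atTop

theorem Lrg.pos {k : ℕ → ℕ} (hk : Lrg k) : ∀ᶠ n in atTop, 1 ≤ k n := by
  filter_upwards [hk.eventually_gt_atTop 0] with n hn
  by_contra h
  have h0 : k n = 0 := by omega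
  rw [h0] at hn
  simp at hn

theorem Lrg.top {k : ℕ → ℕ} (hk : Lrg k) : Tendsto k atTop atTop := by
  have h1 : Tendsto (fun n : ℕ => (n : ℝ) ^ ((2 : ℝ) / 3)) atTop atTop :=
    (tendsto_rpow_atTop (by norm_num)).comp tendsto_natCast_atTop_atTop
  have h2 : Tendsto (fun n : ℕ => (k n : ℝ) / (n : ℝ) ^ ((2 : ℝ) / 3) * (n : ℝ) ^ ((2 : ℝ) / 3))
      atTop atTop := hk.atTop_mul_atTop₀ h1
  have h3 : Tendsto (fun n : ℕ => (k n : ℝ)) atTop atTop := by
    refine h2.congr' ?_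
    filter_upwards [eventually_gt_atTop 0] with n hn
    have : (0 : ℝ) < (n : ℝ) ^ ((2 : ℝ) / 3) := Real.rpow_pos_of_pos (by exact_mod_cast hn) _
    field_simp
  exact tendsto_natCast_atTop_iff.1 h3

theorem Lrg.mono {k l : ℕ → ℕ} (hk : Lrg k) (hl : ∀ᶠ n in atTop, k n ≤ l n) : Lrg l := by
  refine tendsto_atTop_mono' atTop ?_ hk
  filter_upwards [hl] with n hn
  have : (k n : ℝ) ≤ l n := by exact_mod_cast hn
  gcongr

/-- `n² / k³` tends to zero -/
theorem Lrg.sq {k : ℕ → ℕ} (hk : Lrg k) :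
    Tendsto (fun n : ℕ => (n : ℝ) ^ 2 / (k n : ℝ) ^ 3) atTop (𝓝 0) := by
  have h1 := (tendsto_pow_atTop (α := ℝ) (n := 3) (by norm_num)).comp hk
  refine (h1.inv_tendsto_atTop).congr' ?_
  filter_upwards [eventually_gt_atTop 0] with n hn
  have hn0 : (0 : ℝ) < n := by exact_mod_cast hn
  have h2 : ((n : ℝ) ^ ((2 : ℝ) / 3)) ^ 3 = (n : ℝ) ^ 2 := by
    rw [← Real.rpow_natCast, ← Real.rpow_mul hn0.le]
    norm_num
  simp only [Pi.inv_apply, Function.comp_apply]
  rw [div_pow, inv_div, h2]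

theorem mm_le : ∃ C : ℝ, 0 < C ∧ ∀ n k : ℕ, 1 ≤ k → k ≤ n →
    mm n k ≤ C * Real.sqrt ((n : ℝ) ^ 2 / (k : ℝ) ^ 3) := by
  obtain ⟨C, hC, h⟩ := tl_le
  refine ⟨C, hC, fun n k hk hkn => ?_⟩
  have hk0 : (0 : ℝ) < k := by exact_mod_cast hk
  have hn0 : (0 : ℝ) ≤ n := Nat.cast_nonneg n
  have h1 := h n k hk hkn
  have hs : 0 < Real.sqrt k := Real.sqrt_pos.2 hk0
  have h2 : tl n k ≤ C / Real.sqrt k := by
    refine h1.trans ?_
    have : Real.exp (-((k : ℝ)^3 / (4 * (n : ℝ)^2))) ≤ 1 := by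
      rw [Real.exp_le_one_iff]
      have : 0 ≤ (k : ℝ)^3 / (4 * (n : ℝ)^2) := by positivity
      linarith
    calc C / Real.sqrt k * Real.exp (-((k : ℝ)^3 / (4 * (n : ℝ)^2))) ≤ C / Real.sqrt k * 1 :=
          mul_le_mul_of_nonneg_left this (by positivity)
      _ = _ := mul_one _
  have h3 : Real.sqrt ((n : ℝ) ^ 2 / (k : ℝ) ^ 3) = n / (Real.sqrt k * k) := by
    rw [Real.sqrt_div (by positivity), Real.sqrt_sq hn0]
    congr 1
    rw [show (k : ℝ) ^ 3 = (k : ℝ) ^ 2 * k by ring, Real.sqrt_mul (by positivity),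
      Real.sqrt_sq hk0.le, mul_comm]
  rw [h3]
  unfold mm
  calc n * tl n k / k ≤ n * (C / Real.sqrt k) / k := by gcongr
    _ = C * (n / (Real.sqrt k * k)) := by field_simp

theorem mm_lim {k : ℕ → ℕ} (hk : Lrg k) (hkn : ∀ᶠ n in atTop, k n ≤ n) :
    Tendsto (fun n : ℕ => mm n (k n)) atTop (𝓝 0) := by
  obtain ⟨C, hC, h⟩ := mm_le
  have h1 : Tendsto (fun n : ℕ => C * Real.sqrt ((n : ℝ) ^ 2 / (k n : ℝ) ^ 3)) atTop (𝓝 0) := by
    have := (hk.sq.sqrt).const_mul C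
    simpa using this
  refine squeeze_zero' ?_ ?_ h1
  · filter_upwards [hk.pos, hkn] with n h2 h3
    exact (mm_pos h2 h3).le
  · filter_upwards [hk.pos, hkn] with n h2 h3
    exact h n (k n) h2 h3

/-- two-sided bounds -/
theorem Ev_bounds {n k : ℕ} (hk : 1 ≤ k) (hkn : k ≤ n) :
    (1 - 4 / 3 * ((n : ℝ) ^ 2 / (k : ℝ) ^ 3)) * mm n k - mm n k ^ 2 / 2 ≤ (perc n).real (Ev n k) ∧
      (perc n).real (Ev n k) ≤ mm n k := by
  have hn : 1 ≤ n := by omega
  have hn0 : (0 : ℝ) < n := by exact_mod_cast hn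
  have hk0 : (0 : ℝ) < k := by exact_mod_cast hk
  constructor
  · refine le_trans ?_ (Ev_lower hn hk hkn)
    have h1 := mul_le_mul_of_nonneg_left (Sm_sharp hk hkn) hn0.le
    have h2 : (n : ℝ) * ((1 - 4 * (n : ℝ) ^ 2 / (3 * (k : ℝ) ^ 3)) * (tl n k / k)) =
        (1 - 4 / 3 * ((n : ℝ) ^ 2 / (k : ℝ) ^ 3)) * mm n k := by
      unfold mm
      field_simp
    have h3 : (n * tl n k / k) ^ 2 / 2 = mm n k ^ 2 / 2 := rfl
    linarith
  · refine (Ev_upper hn hk).trans ?_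
    have h1 := mul_le_mul_of_nonneg_left (Sm_le hn hk) hn0.le
    unfold mm
    rw [mul_div_assoc]
    exact h1

/-- **sharp asymptotics** -/
theorem Ev_asymp {k : ℕ → ℕ} (hk : Lrg k) (hkn : ∀ᶠ n in atTop, k n ≤ n) :
    Tendsto (fun n : ℕ => (perc n).real (Ev n (k n)) / mm n (k n)) atTop (𝓝 1) := by
  have h1 : Tendsto (fun n : ℕ => 1 - 4 / 3 * ((n : ℝ) ^ 2 / (k n : ℝ) ^ 3) - mm n (k n) / 2) atTop
      (𝓝 1) := by
    have := (((hk.sq.const_mul (4 / 3)).const_sub 1).sub ((mm_lim hk hkn).div_const 2))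
    simpa using this
  refine tendsto_of_tendsto_of_tendsto_of_le_of_le' h1 tendsto_const_nhds ?_ ?_
  · filter_upwards [hk.pos, hkn] with n h2 h3
    have h4 := mm_pos h2 h3
    rw [le_div_iff₀ h4]
    have := (Ev_bounds h2 h3).1
    nlinarith
  · filter_upwards [hk.pos, hkn] with n h2 h3
    have h4 := mm_pos h2 h3
    rw [div_le_one h4]
    exact (Ev_bounds h2 h3).2

/-- **uniqueness** -/
theorem two_asymp {k : ℕ → ℕ} (hk : Lrg k) (hkn : ∀ᶠ n in atTop, k n ≤ n) :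
    Tendsto (fun n : ℕ => (perc n).real {ω | 2 ≤ (Cl n (k n) ω).ncard} /
      (perc n).real (Ev n (k n))) atTop (𝓝 0) := by
  have h1 := Ev_asymp hk hkn
  have h2 : Tendsto (fun n : ℕ => mm n (k n) / 2 / ((perc n).real (Ev n (k n)) / mm n (k n))) atTop
      (𝓝 0) := by
    have := ((mm_lim hk hkn).div_const 2).div h1 one_ne_zero
    rw [zero_div, zero_div] at this
    exact this
  refine squeeze_zero' (Eventually.of_forall fun n => by positivity) ?_ h2
  filter_upwards [hk.pos, hkn, h1.eventually_const_lt (show (0 : ℝ) < 1 by norm_num)] with n h3 h4 h5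
  have h6 := mm_pos h3 h4
  have h7 : 0 < (perc n).real (Ev n (k n)) := by
    rcases (div_pos_iff.1 h5) with h | h
    · exact h.1
    · linarith [h.2]
  have h8 := Ev_two (show 1 ≤ n by omega) h3 h4
  rw [div_le_iff₀ h7]
  refine h8.trans (le_of_eq ?_)
  field_simp

/-! ### overshoot -/

theorem al_quot {k l : ℕ → ℕ} (hk : Tendsto k atTop atTop) (hl : Tendsto l atTop atTop)
    (hkl : Tendsto (fun n => (l n : ℝ) / k n) atTop (𝓝 1)) :
    Tendsto (fun n => al (l n) / al (k n)) atTop (𝓝 1) := by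
  have hc : (3 : ℝ) / (2 * Real.sqrt Real.pi) ≠ 0 := by
    have : 0 < Real.sqrt Real.pi := Real.sqrt_pos.mpr Real.pi_pos
    positivity
  have h1 := (hi_tendsto.comp hl).div (hi_tendsto.comp hk) hc
  rw [div_self hc] at h1
  have h2 := hkl.sqrt
  rw [Real.sqrt_one] at h2
  have h3 := h1.div h2 one_ne_zero
  rw [div_one] at h3
  refine h3.congr' ?_
  filter_upwards [hk.eventually_ge_atTop 1, hl.eventually_ge_atTop 1] with n h4 h5
  have h6 : (0 : ℝ) < k n := by exact_mod_cast h4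
  have h7 : (0 : ℝ) < l n := by exact_mod_cast h5
  have h8 := Real.sqrt_pos.2 h6
  have h9 := Real.sqrt_pos.2 h7
  have ha := al_pos h4
  simp only [Pi.div_apply, Function.comp_apply]
  rw [Real.sqrt_div h7.le]
  show (al (l n) * Real.sqrt (l n)) / (al (k n) * Real.sqrt (k n)) / (Real.sqrt (l n) / Real.sqrt (k n)) = _
  field_simp

/-- the ratio of two tail probabilities -/
theorem Ev_quot {k l : ℕ → ℕ} (hk : Lrg k) (hkn : ∀ᶠ n in atTop, k n ≤ l n)
    (hl : ∀ᶠ n in atTop, l n ≤ n) (hkl : Tendsto (fun n => (l n : ℝ) / k n) atTop (𝓝 1)) {c : ℝ}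
    (hp : Tendsto (fun n => ∏ i ∈ Finset.Ico (k n) (l n), ff n i) atTop (𝓝 c)) :
    Tendsto (fun n => (perc n).real (Ev n (l n)) / (perc n).real (Ev n (k n))) atTop (𝓝 c) := by
  have hbl : Lrg l := hk.mono hkn
  have hkn' : ∀ᶠ n in atTop, k n ≤ n := by
    filter_upwards [hkn, hl] with n h1 h2
    omega
  have h1 := Ev_asymp hk hkn'
  have h2 := Ev_asymp hbl hl
  have h3 := al_quot hk.top hbl.top hkl
  have h4 := (((h2.div h1 one_ne_zero).mul h3).mul hp).div hkl one_ne_zero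
  rw [show (1 : ℝ) / 1 * 1 * c / 1 = c by ring] at h4
  refine h4.congr' ?_
  filter_upwards [hk.pos, hkn, hl, h1.eventually_const_lt (show (0 : ℝ) < 1 by norm_num)] with n h5 h6 h7 h8
  have ha := mm_pos h5 (show k n ≤ n by omega)
  have hb := mm_pos (show 1 ≤ l n by omega) h7
  have h9 : 0 < (perc n).real (Ev n (k n)) := by
    rcases (div_pos_iff.1 h8) with h | h
    · exact h.1
    · linarith [h.2]
  have h10 := tl_quot h5 h6 h7
  have hk0 : (0 : ℝ) < k n := by exact_mod_cast h5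
  have hl0 : (0 : ℝ) < l n := by
    have : 0 < l n := by omega
    exact_mod_cast this
  have hn0 : (0 : ℝ) < n := by
    have : 0 < n := by omega
    exact_mod_cast this
  have ht := tl_pos h5 (show k n ≤ n by omega)
  simp only [Pi.div_apply]
  rw [mul_assoc, ← h10]
  unfold mm
  have ht2 := tl_pos (show 1 ≤ l n by omega) h7
  field_simp

/-- overshoot, moderate deviations: exponential law -/
theorem overshoot {k : ℕ → ℕ} (hk : Lrg k)
    (hk0 : Tendsto (fun n : ℕ => (k n : ℝ) / n) atTop (𝓝 0)) {y : ℝ} (hy : 0 ≤ y) :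
    Tendsto (fun n : ℕ => (perc n).real (Ev n ⌈(k n : ℝ) + y * ((n : ℝ) ^ 2 / (k n : ℝ) ^ 2)⌉₊) /
      (perc n).real (Ev n (k n))) atTop (𝓝 (Real.exp (-(3 / 4 * y)))) := by
  set l : ℕ → ℕ := fun n => ⌈(k n : ℝ) + y * ((n : ℝ) ^ 2 / (k n : ℝ) ^ 2)⌉₊ with hl
  have hl1 : ∀ n, (k n : ℝ) + y * ((n : ℝ) ^ 2 / (k n : ℝ) ^ 2) ≤ l n := fun n => Nat.le_ceil _
  have hl2 : ∀ n, (l n : ℝ) < (k n : ℝ) + y * ((n : ℝ) ^ 2 / (k n : ℝ) ^ 2) + 1 := fun n =>
    Nat.ceil_lt_add_one (by positivity)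
  have hkl : ∀ n, k n ≤ l n := by
    intro n
    have h1 := hl1 n
    have h2 : 0 ≤ y * ((n : ℝ) ^ 2 / (k n : ℝ) ^ 2) := by positivity
    have : (k n : ℝ) ≤ l n := by linarith
    exact_mod_cast this
  have hinv : Tendsto (fun n : ℕ => 1 / (k n : ℝ)) atTop (𝓝 0) :=
    tendsto_const_nhds.div_atTop (tendsto_natCast_atTop_atTop.comp hk.top)
  have hr : Tendsto (fun n => (l n : ℝ) / k n) atTop (𝓝 1) := by
    have h1 : Tendsto (fun n : ℕ => 1 + y * ((n : ℝ) ^ 2 / (k n : ℝ) ^ 3) + 1 / (k n : ℝ)) atTop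
        (𝓝 1) := by
      have := ((hk.sq.const_mul y).const_add 1).add hinv
      simpa using this
    refine tendsto_of_tendsto_of_tendsto_of_le_of_le' tendsto_const_nhds h1 ?_ ?_
    · filter_upwards [hk.pos] with n h2
      have h3 : (0 : ℝ) < k n := by exact_mod_cast h2
      rw [le_div_iff₀ h3, one_mul]
      exact_mod_cast hkl n
    · filter_upwards [hk.pos] with n h2
      have h3 : (0 : ℝ) < k n := by exact_mod_cast h2
      rw [div_le_iff₀ h3]
      refine (hl2 n).le.trans (le_of_eq ?_)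
      field_simp
  have hln0 : Tendsto (fun n : ℕ => (l n : ℝ) / n) atTop (𝓝 0) := by
    have := hr.mul hk0
    rw [mul_zero] at this
    refine this.congr' ?_
    filter_upwards [hk.pos] with n h2
    have h3 : (0 : ℝ) < k n := by exact_mod_cast h2
    field_simp
  have hln : ∀ᶠ n in atTop, l n < n := by
    filter_upwards [hln0.eventually_lt_const (show (0 : ℝ) < 1 by norm_num), eventually_gt_atTop 0] with n h2 h3
    have h4 : (0 : ℝ) < n := by exact_mod_cast h3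
    rw [div_lt_one h4] at h2
    exact_mod_cast h2
  -- the exponent
  have hm : Tendsto (fun n : ℕ => ((l n : ℝ) - k n) * ((k n : ℝ)^2 / (n : ℝ)^2)) atTop (𝓝 y) := by
    have h1 : Tendsto (fun n : ℕ => y + ((k n : ℝ) / n) ^ 2) atTop (𝓝 y) := by
      have := (hk0.pow 2).const_add y
      simpa using this
    refine tendsto_of_tendsto_of_tendsto_of_le_of_le' tendsto_const_nhds h1 ?_ ?_
    · filter_upwards [hk.pos, eventually_gt_atTop 0] with n h2 h3
      have h4 : (0 : ℝ) < k n := by exact_mod_cast h2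
      have h5 : (0 : ℝ) < n := by exact_mod_cast h3
      have h6 : y * ((n : ℝ) ^ 2 / (k n : ℝ) ^ 2) ≤ (l n : ℝ) - k n := by linarith [hl1 n]
      calc y = y * ((n : ℝ) ^ 2 / (k n : ℝ) ^ 2) * ((k n : ℝ)^2 / (n : ℝ)^2) := by field_simp
        _ ≤ _ := mul_le_mul_of_nonneg_right h6 (by positivity)
    · filter_upwards [hk.pos, eventually_gt_atTop 0] with n h2 h3
      have h4 : (0 : ℝ) < k n := by exact_mod_cast h2
      have h5 : (0 : ℝ) < n := by exact_mod_cast h3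
      have h6 : (l n : ℝ) - k n ≤ y * ((n : ℝ) ^ 2 / (k n : ℝ) ^ 2) + 1 := by linarith [hl2 n]
      calc ((l n : ℝ) - k n) * ((k n : ℝ)^2 / (n : ℝ)^2) ≤
          (y * ((n : ℝ) ^ 2 / (k n : ℝ) ^ 2) + 1) * ((k n : ℝ)^2 / (n : ℝ)^2) :=
            mul_le_mul_of_nonneg_right h6 (by positivity)
        _ = _ := by field_simp
  refine Ev_quot hk (Eventually.of_forall hkl) (hln.mono fun n h => h.le) hr ?_
  have hup : Tendsto (fun n : ℕ => Real.exp (-(3 / 4 * (((l n : ℝ) - k n) * ((k n : ℝ)^2 / (n : ℝ)^2)))))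
      atTop (𝓝 (Real.exp (-(3 / 4 * y)))) :=
    (Real.continuous_exp.tendsto _).comp ((hm.const_mul (3 / 4)).neg)
  have hlo : Tendsto (fun n : ℕ => Real.exp (-(3 / 4 * (((l n : ℝ) - k n) * ((l n : ℝ)^2 / (n : ℝ)^2)) /
      (1 - (l n : ℝ)^2 / (n : ℝ)^2)))) atTop (𝓝 (Real.exp (-(3 / 4 * y)))) := by
    have h1 : Tendsto (fun n : ℕ => 3 / 4 * (((l n : ℝ) - k n) * ((l n : ℝ)^2 / (n : ℝ)^2)) /
        (1 - (l n : ℝ)^2 / (n : ℝ)^2)) atTop (𝓝 (3 / 4 * y)) := by
      have h2 := ((hm.mul (hr.pow 2)).const_mul (3 / 4)).div ((hln0.pow 2).const_sub 1) (by norm_num)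
      rw [show (3 : ℝ) / 4 * (y * 1 ^ 2) / (1 - 0 ^ 2) = 3 / 4 * y by norm_num] at h2
      refine h2.congr' ?_
      filter_upwards [hk.pos, eventually_gt_atTop 0] with n h3 h4
      have h5 : (0 : ℝ) < k n := by exact_mod_cast h3
      have h6 : (0 : ℝ) < n := by exact_mod_cast h4
      simp only [Pi.div_apply]
      congr 1
      · field_simp
      · rw [div_pow]
    exact (Real.continuous_exp.tendsto _).comp h1.neg
  refine tendsto_of_tendsto_of_tendsto_of_le_of_le' hlo hup ?_ ?_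
  · filter_upwards [hln] with n h
    exact prod_lower (hkl n) h
  · filter_upwards [hln] with n h
    rcases prod_upper (k := k n) (l := l n) (n := n) h.le with h1 | h1
    · exact h1
    · exact absurd h1 (by have := hkl n; omega)

theorem big_of_lin {k : ℕ → ℕ} {κ : ℝ} (hκ : 0 < κ)
    (hk : Tendsto (fun n : ℕ => (k n : ℝ) / n) atTop (𝓝 κ)) : Lrg k := by
  have h1 : Tendsto (fun n : ℕ => (n : ℝ) ^ ((1 : ℝ) / 3)) atTop atTop :=
    (tendsto_rpow_atTop (by norm_num)).comp tendsto_natCast_atTop_atTop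
  have h2 := Filter.Tendsto.pos_mul_atTop hκ hk h1
  refine h2.congr' ?_
  filter_upwards [eventually_gt_atTop 0] with n hn
  have hn0 : (0 : ℝ) < n := by exact_mod_cast hn
  have h3 : (n : ℝ) = (n : ℝ) ^ ((1 : ℝ) / 3) * (n : ℝ) ^ ((2 : ℝ) / 3) := by
    rw [← Real.rpow_add hn0]
    norm_num
  have h4 : (0 : ℝ) < (n : ℝ) ^ ((2 : ℝ) / 3) := Real.rpow_pos_of_pos hn0 _
  have h5 : (0 : ℝ) < (n : ℝ) ^ ((1 : ℝ) / 3) := Real.rpow_pos_of_pos hn0 _
  rw [div_mul_eq_mul_div, div_eq_div_iff hn0.ne' h4.ne', mul_assoc, ← h3]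

/-- overshoot, large deviations: geometric law -/
theorem overshoot_lin {k : ℕ → ℕ} {κ : ℝ} (hκ : 0 < κ) (hκ1 : κ < 1)
    (hk : Tendsto (fun n : ℕ => (k n : ℝ) / n) atTop (𝓝 κ)) (j : ℕ) :
    Tendsto (fun n : ℕ => (perc n).real (Ev n (k n + j)) / (perc n).real (Ev n (k n))) atTop
      (𝓝 (((1 - κ ^ 2) / (1 - κ ^ 2 / 4)) ^ j)) := by
  have hb := big_of_lin hκ hk
  have hinv : Tendsto (fun n : ℕ => (j : ℝ) / (k n : ℝ)) atTop (𝓝 0) :=
    tendsto_const_nhds.div_atTop (tendsto_natCast_atTop_atTop.comp hb.top)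
  have hr : Tendsto (fun n => ((k n + j : ℕ) : ℝ) / k n) atTop (𝓝 1) := by
    have := hinv.const_add 1
    rw [add_zero] at this
    refine this.congr' ?_
    filter_upwards [hb.pos] with n h2
    have h3 : (0 : ℝ) < k n := by exact_mod_cast h2
    push_cast
    field_simp
  have hi : ∀ i : ℕ, Tendsto (fun n : ℕ => ((k n + i : ℕ) : ℝ) / n) atTop (𝓝 κ) := by
    intro i
    have h1 : Tendsto (fun n : ℕ => (i : ℝ) / (n : ℝ)) atTop (𝓝 0) :=
      tendsto_const_nhds.div_atTop tendsto_natCast_atTop_atTop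
    have := hk.add h1
    rw [add_zero] at this
    refine this.congr fun n => ?_
    push_cast
    ring
  have hl : ∀ᶠ n in atTop, k n + j ≤ n := by
    filter_upwards [(hi j).eventually_lt_const hκ1, eventually_gt_atTop 0] with n h2 h3
    have h4 : (0 : ℝ) < n := by exact_mod_cast h3
    rw [div_lt_one h4] at h2
    have : k n + j < n := by exact_mod_cast h2
    omega
  refine Ev_quot hb (Eventually.of_forall fun n => Nat.le_add_right _ _) hl hr ?_
  have h1 : ∀ i : ℕ, Tendsto (fun n : ℕ => ff n (k n + i)) atTop (𝓝 ((1 - κ ^ 2) / (1 - κ ^ 2 / 4))) := by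
    intro i
    have h2 := ((hi i).pow 2)
    have h3 := (h2.const_sub 1).div ((h2.div_const 4).const_sub 1)
      (by nlinarith : (1 : ℝ) - κ ^ 2 / 4 ≠ 0)
    refine h3.congr fun n => ?_
    unfold ff
    simp only [Pi.div_apply]
    congr 1
    · rw [div_pow]
    · rw [div_pow, div_div, mul_comm (4 : ℝ)]
  have h2 := tendsto_finsetProd (Finset.range j) fun i _ => h1 i
  rw [Finset.prod_const, Finset.card_range] at h2
  refine h2.congr fun n => ?_
  rw [Finset.prod_Ico_eq_prod_range, Nat.add_sub_cancel_left]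

end Pool.Agent.Q291.BC
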