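import Pool.Agent.Q291.BC.Max3

/-!
The largest boundary cluster: the rate function and the lower tail.
-/

set_option autoImplicit false

namespace Pool.Agent.Q291.BC

open MeasureTheory H731B Filter Topology

/-! ### the rate function -/

/-- the density of the rate -/
noncomputable def GG (s : ℝ) : ℝ := Real.log ((1 - s ^ 2) / (1 - s ^ 2 / 4))

theorem GG_anti : AntitoneOn GG (Set.Ico 0 1) := by
  intro a ha b hb hab
  have h1 : b ^ 2 < 1 := by
    have := hb.2
    have := hb.1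
    nlinarith
  have h2 : a ^ 2 ≤ b ^ 2 := pow_le_pow_left₀ ha.1 hab 2
  unfold GG
  apply Real.log_le_log
  · apply div_pos <;> linarith
  · rw [div_le_div_iff₀ (by linarith) (by linarith)]
    nlinarith

theorem GG_nonpos {s : ℝ} (h0 : 0 ≤ s) (h1 : s < 1) : GG s ≤ 0 := by
  have := GG_anti (show (0 : ℝ) ∈ Set.Ico (0 : ℝ) 1 by simp) ⟨h0, h1⟩ h0
  have h2 : GG 0 = 0 := by
    unfold GG
    norm_num
  linarith

theorem GG_cont : ContinuousOn GG (Set.Ico 0 1) := by
  have h : ∀ s ∈ Set.Ico (0 : ℝ) 1, s ^ 2 < 1 := by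
    intro s hs
    have := hs.1
    have := hs.2
    nlinarith
  unfold GG
  apply ContinuousOn.log
  · apply ContinuousOn.div (by fun_prop) (by fun_prop)
    intro s hs
    have := h s hs
    have : 0 < 1 - s ^ 2 / 4 := by linarith
    exact this.ne'
  · intro s hs
    have := h s hs
    have h3 : 0 < (1 - s ^ 2) / (1 - s ^ 2 / 4) := by
      apply div_pos <;> linarith
    exact h3.ne'

theorem log_ff {n i : ℕ} : Real.log (ff n i) = GG ((i : ℝ) / n) := by
  unfold ff GG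
  congr 2
  · rw [div_pow]
  · rw [div_pow, div_div, mul_comm (4 : ℝ)]

theorem log_ww {n k : ℕ} (hk : 1 ≤ k) (hkn : k ≤ n) :
    Real.log (ww n k) = ∑ i ∈ Finset.Ico 1 k, GG ((i : ℝ) / n) := by
  rw [ww_eq hk, Real.log_prod]
  · exact Finset.sum_congr rfl fun i _ => log_ff
  · intro i hi
    rw [Finset.mem_Ico] at hi
    exact (ff_pos (by omega)).ne'

theorem sum_bounds {n k : ℕ} (hk : 1 ≤ k) (hkn : k < n) :
    (n : ℝ) * ∫ s in (0 : ℝ)..(k : ℝ) / n, GG s ≤ ∑ i ∈ Finset.Ico 1 k, GG ((i : ℝ) / n) ∧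
      ∑ i ∈ Finset.Ico 1 k, GG ((i : ℝ) / n) ≤ (n : ℝ) * ∫ s in (0 : ℝ)..((k : ℝ) - 1) / n, GG s := by
  have hn0 : (0 : ℝ) < n := by
    have : 0 < n := by omega
    exact_mod_cast this
  have hkn' : (k : ℝ) < n := by exact_mod_cast hkn
  have hanti : AntitoneOn (fun t : ℝ => GG (t / n)) (Set.Icc 0 (k : ℝ)) := by
    intro a ha b hb hab
    apply GG_anti
    · exact ⟨div_nonneg ha.1 hn0.le, by rw [div_lt_one hn0]; linarith [ha.2]⟩
    · exact ⟨div_nonneg hb.1 hn0.le, by rw [div_lt_one hn0]; linarith [hb.2]⟩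
    · exact div_le_div_of_nonneg_right hab hn0.le
  constructor
  · have h1 : AntitoneOn (fun t : ℝ => GG (t / n)) (Set.Icc ((0 : ℕ) : ℝ) (k : ℝ)) := by
      rw [Nat.cast_zero]
      exact hanti
    have h2 := AntitoneOn.integral_le_sum_Ico (Nat.zero_le k) h1
    rw [intervalIntegral.integral_comp_div _ hn0.ne', Nat.cast_zero, zero_div, smul_eq_mul] at h2
    refine h2.trans ?_
    rw [Finset.sum_eq_sum_Ico_succ_bot (by omega : 0 < k)]
    have h3 : GG (((0 : ℕ) : ℝ) / n) = 0 := by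
      unfold GG
      norm_num
    rw [h3, zero_add]
  · have h1 : AntitoneOn (fun t : ℝ => GG (t / n)) (Set.Icc ((0 : ℕ) : ℝ) ((k - 1 : ℕ) : ℝ)) := by
      rw [Nat.cast_zero]
      apply hanti.mono
      apply Set.Icc_subset_Icc le_rfl
      exact_mod_cast Nat.sub_le k 1
    have h2 := AntitoneOn.sum_le_integral_Ico (Nat.zero_le (k - 1)) h1
    rw [intervalIntegral.integral_comp_div _ hn0.ne', Nat.cast_zero, zero_div, smul_eq_mul,
      Nat.cast_sub hk, Nat.cast_one] at h2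
    refine le_trans (le_of_eq ?_) h2
    rw [Finset.sum_Ico_eq_sum_range, Finset.sum_Ico_eq_sum_range, Nat.sub_zero]
    refine Finset.sum_congr rfl fun i _ => ?_
    rw [Nat.zero_add, Nat.add_comm 1 i]

theorem prim_cont {κ : ℝ} (h0 : 0 < κ) (h1 : κ < 1) :
    ContinuousAt (fun x => ∫ s in (0 : ℝ)..x, GG s) κ := by
  have h2 : (Set.uIcc (0 : ℝ) ((κ + 1) / 2)) ⊆ Set.Ico 0 1 := by
    rw [Set.uIcc_of_le (by linarith)]
    intro x hx
    exact ⟨hx.1, by linarith [hx.2]⟩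
  have h3 : IntegrableOn GG (Set.uIcc (0 : ℝ) ((κ + 1) / 2)) volume :=
    (GG_cont.mono h2).integrableOn_compact isCompact_uIcc
  have h4 := intervalIntegral.continuousOn_primitive_interval h3
  apply h4.continuousAt
  rw [Set.uIcc_of_le (by linarith)]
  exact Icc_mem_nhds h0 (by linarith)

theorem rate_ww {k : ℕ → ℕ} {κ : ℝ} (hκ : 0 < κ) (hκ1 : κ < 1)
    (hk : Tendsto (fun n : ℕ => (k n : ℝ) / n) atTop (𝓝 κ)) :
    Tendsto (fun n : ℕ => Real.log (ww n (k n)) / n) atTop (𝓝 (∫ s in (0 : ℝ)..κ, GG s)) := by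
  have hb := big_of_lin hκ hk
  have hc := prim_cont hκ hκ1
  have h1 : Tendsto (fun n : ℕ => ∫ s in (0 : ℝ)..((k n : ℝ) / n), GG s) atTop
      (𝓝 (∫ s in (0 : ℝ)..κ, GG s)) := hc.tendsto.comp hk
  have h2 : Tendsto (fun n : ℕ => ∫ s in (0 : ℝ)..(((k n : ℝ) - 1) / n), GG s) atTop
      (𝓝 (∫ s in (0 : ℝ)..κ, GG s)) := by
    refine hc.tendsto.comp ?_
    have h3 : Tendsto (fun n : ℕ => (1 : ℝ) / (n : ℝ)) atTop (𝓝 0) :=
      tendsto_const_nhds.div_atTop tendsto_natCast_atTop_atTop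
    have := hk.sub h3
    rw [sub_zero] at this
    refine this.congr fun n => ?_
    rw [sub_div]
  have hl : ∀ᶠ n in atTop, k n < n := by
    filter_upwards [hk.eventually_lt_const hκ1, eventually_gt_atTop 0] with n h2 h3
    have h4 : (0 : ℝ) < n := by exact_mod_cast h3
    rw [div_lt_one h4] at h2
    exact_mod_cast h2
  refine tendsto_of_tendsto_of_tendsto_of_le_of_le' h1 h2 ?_ ?_
  · filter_upwards [hb.pos, hl] with n h3 h4
    have hn0 : (0 : ℝ) < n := by
      have : 0 < n := by omega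
      exact_mod_cast this
    rw [le_div_iff₀ hn0, log_ww h3 h4.le, mul_comm]
    exact (sum_bounds h3 h4).1
  · filter_upwards [hb.pos, hl] with n h3 h4
    have hn0 : (0 : ℝ) < n := by
      have : 0 < n := by omega
      exact_mod_cast this
    rw [div_le_iff₀ hn0, log_ww h3 h4.le, mul_comm]
    exact (sum_bounds h3 h4).2

theorem log_div : Tendsto (fun n : ℕ => Real.log n / n) atTop (𝓝 0) := by
  have h := Real.isLittleO_log_id_atTop.tendsto_div_nhds_zero
  exact h.comp tendsto_natCast_atTop_atTop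

/-- **the large deviation principle** -/
theorem rate {k : ℕ → ℕ} {κ : ℝ} (hκ : 0 < κ) (hκ1 : κ < 1)
    (hk : Tendsto (fun n : ℕ => (k n : ℝ) / n) atTop (𝓝 κ)) :
    Tendsto (fun n : ℕ => Real.log ((perc n).real (Ev n (k n))) / n) atTop
      (𝓝 (∫ s in (0 : ℝ)..κ, GG s)) := by
  have hb := big_of_lin hκ hk
  have hl : ∀ᶠ n in atTop, k n ≤ n := by
    filter_upwards [hk.eventually_lt_const hκ1, eventually_gt_atTop 0] with n h2 h3
    have h4 : (0 : ℝ) < n := by exact_mod_cast h3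
    rw [div_lt_one h4] at h2
    have : k n < n := by exact_mod_cast h2
    exact this.le
  have hA := Ev_asymp hb hl
  have hinv : Tendsto (fun n : ℕ => (1 : ℝ) / (n : ℝ)) atTop (𝓝 0) :=
    tendsto_const_nhds.div_atTop tendsto_natCast_atTop_atTop
  have h1 : Tendsto (fun n : ℕ => Real.log ((perc n).real (Ev n (k n)) / mm n (k n)) * (1 / n)) atTop
      (𝓝 0) := by
    have := (hA.log one_ne_zero).mul hinv
    rw [Real.log_one, zero_mul] at this
    exact this
  have hc : (0 : ℝ) < 3 / (2 * Real.sqrt Real.pi) := by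
    have : 0 < Real.sqrt Real.pi := Real.sqrt_pos.mpr Real.pi_pos
    positivity
  have h2 : Tendsto (fun n : ℕ => Real.log (al (k n) * Real.sqrt (k n)) * (1 / n)) atTop (𝓝 0) := by
    have := ((hi_tendsto.comp hb.top).log hc.ne').mul hinv
    rw [mul_zero] at this
    exact this
  have h3 : Tendsto (fun n : ℕ => Real.log (k n) / n) atTop (𝓝 0) := by
    refine squeeze_zero' (Eventually.of_forall fun n => ?_) ?_ log_div
    · exact div_nonneg (Real.log_natCast_nonneg _) (Nat.cast_nonneg _)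
    · filter_upwards [hb.pos, hl] with n h4 h5
      apply div_le_div_of_nonneg_right _ (Nat.cast_nonneg _)
      apply Real.log_le_log
      · exact_mod_cast h4
      · exact_mod_cast h5
  have h4 := (((h1.add log_div).add h2).sub (h3.const_mul (3 / 2))).add (rate_ww hκ hκ1 hk)
  simp only [add_zero, mul_zero, sub_zero, zero_add] at h4
  refine h4.congr' ?_
  filter_upwards [hb.pos, hl, hA.eventually_const_lt (show (0 : ℝ) < 1 by norm_num)] with n h5 h6 h7
  have hm := mm_pos h5 h6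
  have hk0 : (0 : ℝ) < k n := by exact_mod_cast h5
  have hn0 : (0 : ℝ) < n := by
    have : 0 < n := by omega
    exact_mod_cast this
  have hP : 0 < (perc n).real (Ev n (k n)) := by
    rcases (div_pos_iff.1 h7) with h | h
    · exact h.1
    · linarith [h.2]
  have ha := al_pos h5
  have hw := ww_pos h5 h6
  have hs := Real.sqrt_pos.2 hk0
  have h8 : Real.log ((perc n).real (Ev n (k n))) =
      Real.log ((perc n).real (Ev n (k n)) / mm n (k n)) + Real.log (mm n (k n)) := by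
    rw [Real.log_div hP.ne' hm.ne']
    ring
  have h9 : Real.log (mm n (k n)) = Real.log n + Real.log (al (k n) * Real.sqrt (k n)) -
      3 / 2 * Real.log (k n) + Real.log (ww n (k n)) := by
    unfold mm
    rw [tl_al h5 h6, Real.log_div (by positivity) hk0.ne', Real.log_mul hn0.ne' (by positivity),
      Real.log_mul ha.ne' hw.ne', Real.log_mul ha.ne' hs.ne', Real.log_sqrt hk0.le]
    ring
  rw [h8, h9]
  ring

/-! ### the lower tail -/

theorem al_lower : ∃ c : ℝ, 0 < c ∧ ∀ k : ℕ, 1 ≤ k → c ≤ al k * Real.sqrt k := by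
  have hc : (0 : ℝ) < 3 / (2 * Real.sqrt Real.pi) := by
    have : 0 < Real.sqrt Real.pi := Real.sqrt_pos.mpr Real.pi_pos
    positivity
  have h := hi_tendsto.inv₀ hc.ne'
  obtain ⟨M, hM⟩ := h.bddAbove_range
  refine ⟨1 / (|M| + 1), by positivity, fun k hk => ?_⟩
  have h1 := hM (Set.mem_range_self k)
  have hk0 : (0 : ℝ) < k := by exact_mod_cast hk
  have h2 : 0 < al k * Real.sqrt k := mul_pos (al_pos hk) (Real.sqrt_pos.2 hk0)
  have h3 : (al k * Real.sqrt k)⁻¹ ≤ |M| + 1 := by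
    have h4 : (al k * Real.sqrt k)⁻¹ ≤ M := h1
    exact h4.trans ((le_abs_self M).trans (by linarith))
  rw [one_div, inv_le_comm₀ (by positivity) h2]
  exact h3

theorem tl_lower : ∃ c : ℝ, 0 < c ∧ ∀ n k : ℕ, 8 ≤ n → 1 ≤ k → (k : ℝ) ≤ (n : ℝ) ^ ((2 : ℝ) / 3) →
    c / Real.sqrt k ≤ tl n k := by
  obtain ⟨c, hc, h⟩ := al_lower
  refine ⟨c * Real.exp (-1), by positivity, fun n k hn hk hkn => ?_⟩
  have hn0 : (0 : ℝ) < n := by
    have : 0 < n := by omega
    exact_mod_cast this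
  have hk0 : (0 : ℝ) < k := by exact_mod_cast hk
  have hk3 : (k : ℝ) ^ 3 ≤ (n : ℝ) ^ 2 := by
    have h2 : ((n : ℝ) ^ ((2 : ℝ) / 3)) ^ 3 = (n : ℝ) ^ 2 := by
      rw [← Real.rpow_natCast, ← Real.rpow_mul hn0.le]
      norm_num
    rw [← h2]
    exact pow_le_pow_left₀ hk0.le hkn 3
  have h8 : (8 : ℝ) ≤ n := by exact_mod_cast hn
  have hk2 : (k : ℝ) ^ 2 / (n : ℝ) ^ 2 ≤ 1 / 4 := by
    rw [div_le_div_iff₀ (by positivity) (by norm_num), one_mul]
    by_contra hcon
    push Not at hcon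
    have h9 : (n : ℝ) < 2 * k := by
      by_contra h10
      push Not at h10
      nlinarith
    have h10 : (n : ℝ) ^ 3 < 8 * (n : ℝ) ^ 2 := by
      calc (n : ℝ) ^ 3 < (2 * (k : ℝ)) ^ 3 := pow_lt_pow_left₀ h9 hn0.le (by norm_num)
        _ = 8 * (k : ℝ) ^ 3 := by ring
        _ ≤ 8 * (n : ℝ) ^ 2 := by linarith
    nlinarith [sq_nonneg (n : ℝ), mul_nonneg (sub_nonneg.2 h8) (sq_nonneg (n : ℝ))]
  have hkn2 : k < n := by
    have h9 : (k : ℝ) < n := by
      by_contra h10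
      push Not at h10
      rw [div_le_div_iff₀ (by positivity) (by norm_num)] at hk2
      nlinarith
    exact_mod_cast h9
  rw [tl_al hk hkn2.le]
  have h1 : Real.exp (-1) ≤ ww n k := by
    rw [ww_eq hk]
    refine le_trans ?_ (prod_lower hk hkn2)
    apply Real.exp_le_exp.2
    apply neg_le_neg
    rw [div_le_one (by linarith)]
    have h3 : ((k : ℝ) - ((1 : ℕ) : ℝ)) * ((k : ℝ) ^ 2 / (n : ℝ) ^ 2) ≤ 1 := by
      calc ((k : ℝ) - ((1 : ℕ) : ℝ)) * ((k : ℝ) ^ 2 / (n : ℝ) ^ 2) ≤ k * ((k : ℝ) ^ 2 / (n : ℝ) ^ 2) := by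
            apply mul_le_mul_of_nonneg_right _ (by positivity)
            push_cast
            linarith
        _ = (k : ℝ) ^ 3 / (n : ℝ) ^ 2 := by ring
        _ ≤ 1 := by
            rw [div_le_one (by positivity)]
            exact hk3
    linarith
  have hs := Real.sqrt_pos.2 hk0
  rw [div_le_iff₀ hs]
  have h3 := h k hk
  calc c * Real.exp (-1) ≤ (al k * Real.sqrt k) * ww n k :=
        mul_le_mul h3 h1 (Real.exp_pos _).le (by have := al_pos hk; positivity)
    _ = al k * ww n k * Real.sqrt k := by ring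

/-- **the lower tail** -/
theorem lower_tail : ∃ C : ℝ, 0 < C ∧ ∀ n k : ℕ, 1 ≤ n → 1 ≤ k →
    (perc n).real (Ev n k)ᶜ ≤ C * (k / (n : ℝ) ^ ((2 : ℝ) / 3)) := by
  obtain ⟨C, hC, hv⟩ := var_le
  obtain ⟨c, hc, hc2⟩ := tl_lower
  refine ⟨4 + 64 * C / c ^ 2, by positivity, fun n k hn hk => ?_⟩
  have hn0 : (0 : ℝ) < n := by exact_mod_cast hn
  have hk0 : (0 : ℝ) < k := by exact_mod_cast hk
  have hk1 : (1 : ℝ) ≤ k := by exact_mod_cast hk
  set N : ℝ := (n : ℝ) ^ ((2 : ℝ) / 3) with hN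
  have hN0 : 0 < N := Real.rpow_pos_of_pos hn0 _
  have hN3 : N ^ 3 = (n : ℝ) ^ 2 := by
    rw [hN, ← Real.rpow_natCast, ← Real.rpow_mul hn0.le]
    norm_num
  have hone : (perc n).real (Ev n k)ᶜ ≤ 1 := measureReal_le_one
  rcases lt_or_ge N k with h1 | h1
  · refine hone.trans ?_
    have h2 : 1 ≤ (k : ℝ) / N := (one_le_div hN0).2 h1.le
    have h3 : 0 ≤ 64 * C / c ^ 2 := by positivity
    nlinarith
  rcases Nat.lt_or_ge n 8 with h2 | h2
  · refine hone.trans ?_
    have h3 : N ≤ 4 := by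
      by_contra hcon
      push Not at hcon
      have h4 : (64 : ℝ) < N ^ 3 := by
        calc (64 : ℝ) = 4 ^ 3 := by norm_num
          _ < N ^ 3 := pow_lt_pow_left₀ hcon (by norm_num) (by norm_num)
      rw [hN3] at h4
      have h5 : (n : ℝ) < 8 := by exact_mod_cast h2
      nlinarith
    have h4 : 1 / 4 ≤ (k : ℝ) / N := by
      rw [div_le_div_iff₀ (by norm_num) hN0]
      linarith
    have h5 : 0 ≤ 64 * C / c ^ 2 := by positivity
    nlinarith
  obtain ⟨hI, hV⟩ := hv n k hn hk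
  have h3 := hc2 n k h2 hk h1
  have h4 := Sm_ge hn hk
  have hs := Real.sqrt_pos.2 hk0
  have hss : Real.sqrt k ^ 2 = k := Real.sq_sqrt hk0.le
  set A : ℝ := n * Sm n k with hA
  have h5 : n * c / (8 * k * Real.sqrt k) ≤ A := by
    rw [hA, mul_div_assoc]
    apply mul_le_mul_of_nonneg_left _ hn0.le
    refine le_trans ?_ h4
    rw [show c / (8 * k * Real.sqrt k) = c / Real.sqrt k / (8 * k) by field_simp]
    gcongr
  have hA0 : 0 < A := lt_of_lt_of_le (by positivity) h5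
  have h6 : (perc n).real (Ev n k)ᶜ ≤ (perc n).real {ω | A ^ 2 ≤ (((Cl n k ω).ncard : ℝ) - A) ^ 2} := by
    refine measureReal_mono (fun ω hω => ?_) (measure_ne_top _ _)
    have h7 : (Cl n k ω).ncard = 0 := by
      have : ¬ 1 ≤ (Cl n k ω).ncard := hω
      omega
    show A ^ 2 ≤ (((Cl n k ω).ncard : ℝ) - A) ^ 2
    rw [h7]
    push_cast
    nlinarith
  have h7 := mul_meas_ge_le_integral_of_nonneg (μ := perc n)
    (f := fun ω => (((Cl n k ω).ncard : ℝ) - A) ^ 2)
    (Eventually.of_forall fun ω => sq_nonneg _) hI (A ^ 2)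
  have h8 : (perc n).real {ω | A ^ 2 ≤ (((Cl n k ω).ncard : ℝ) - A) ^ 2} ≤
      C * (n : ℝ) ^ ((4 : ℝ) / 3) / (k : ℝ) ^ 2 / A ^ 2 := by
    rw [le_div_iff₀ (by positivity), mul_comm]
    exact h7.trans hV
  refine (h6.trans h8).trans ?_
  have h9 : (n : ℝ) ^ ((4 : ℝ) / 3) = N ^ 2 := by
    rw [hN, ← Real.rpow_natCast, ← Real.rpow_mul hn0.le]
    norm_num
  have h10 : ((n : ℝ) * c / (8 * k * Real.sqrt k)) ^ 2 ≤ A ^ 2 :=
    pow_le_pow_left₀ (by positivity) h5 2
  have h11 : ((n : ℝ) * c / (8 * k * Real.sqrt k)) ^ 2 = N ^ 3 * c ^ 2 / (64 * (k : ℝ) ^ 3) := by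
    rw [div_pow, mul_pow, mul_pow, mul_pow, hss, hN3]
    ring
  rw [h11] at h10
  calc C * (n : ℝ) ^ ((4 : ℝ) / 3) / (k : ℝ) ^ 2 / A ^ 2
      ≤ C * (n : ℝ) ^ ((4 : ℝ) / 3) / (k : ℝ) ^ 2 / (N ^ 3 * c ^ 2 / (64 * (k : ℝ) ^ 3)) := by
        apply div_le_div_of_nonneg_left (by positivity) (by positivity) h10
    _ = 64 * C / c ^ 2 * (k / N) := by
        rw [h9]
        field_simp
    _ ≤ _ := by
        apply mul_le_mul_of_nonneg_right _ (by positivity)
        linarith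

end Pool.Agent.Q291.BC
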