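import Pool.Agent.Q291.BC.Var
import Pool.Agent.Q291.BC.Lim
import Pool.Agent.H731R6.Bc.Fin

/-!
The law of large numbers for the number of large boundary clusters, and the ranked sizes.
-/

set_option autoImplicit false

namespace Pool.Agent.Q291.BC

open MeasureTheory H731B Filter Topology

theorem Esz_le : ∃ C : ℝ, 0 < C ∧ ∀ n : ℕ, 1 ≤ n → Esz n ≤ C * (n : ℝ) ^ ((1 : ℝ) / 3) := by
  have h := H731B.main.2.2 1 le_rfl
  obtain ⟨C, hC⟩ := h.bddAbove_range
  refine ⟨|C| + 1, by positivity, fun n hn => ?_⟩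
  have h1 := hC (Set.mem_range_self n)
  simp only [pow_one, Nat.cast_one, mul_one] at h1
  rw [show ((2 : ℝ) - 1) / 3 = 1 / 3 by norm_num] at h1
  have hn0 : (0 : ℝ) < n := by exact_mod_cast hn
  have hp : 0 < (n : ℝ) ^ ((1 : ℝ) / 3) := Real.rpow_pos_of_pos hn0 _
  rw [div_le_iff₀ hp] at h1
  unfold Esz
  refine h1.trans (mul_le_mul_of_nonneg_right ?_ hp.le)
  exact (le_abs_self C).trans (by linarith)

theorem Cl_empty {n k : ℕ} (hn : 1 ≤ n) (hk : n < k) (ω : Conf n) : Cl n k ω = ∅ := by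
  ext C
  simp only [Cl, Set.mem_ofPred_eq, Set.mem_empty_iff_false, iff_false]
  rintro ⟨⟨b, hb, rfl⟩, h⟩
  rw [ncard_sh hn hb] at h
  have := ncard_le hn (sh n b ω)
  omega

theorem Sm_zero {n k : ℕ} (hk : n < k) : Sm n k = 0 := by
  unfold Sm
  rw [Finset.Icc_eq_empty (by omega), Finset.sum_empty]

/-- **variance bound** -/
theorem var_le : ∃ C : ℝ, 0 < C ∧ ∀ n k : ℕ, 1 ≤ n → 1 ≤ k →
    Integrable (fun ω => (((Cl n k ω).ncard : ℝ) - n * Sm n k) ^ 2) (perc n) ∧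
    ∫ ω, (((Cl n k ω).ncard : ℝ) - n * Sm n k) ^ 2 ∂(perc n) ≤
      C * (n : ℝ) ^ ((4 : ℝ) / 3) / (k : ℝ) ^ 2 := by
  obtain ⟨C, hC, h⟩ := Esz_le
  refine ⟨4 * C, by positivity, fun n k hn hk => ?_⟩
  have hn0 : (0 : ℝ) < n := by exact_mod_cast hn
  have hk0 : (0 : ℝ) < k := by exact_mod_cast hk
  rcases Nat.lt_or_ge n k with h1 | h1
  · have e : (fun ω : Conf n => (((Cl n k ω).ncard : ℝ) - n * Sm n k) ^ 2) = fun _ => 0 := by
      funext ω
      rw [Cl_empty hn h1, Sm_zero h1]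
      simp
    rw [e]
    refine ⟨integrable_zero _ _ _, ?_⟩
    rw [integral_zero]
    positivity
  · obtain ⟨h2, h3⟩ := count_var hn hk h1
    refine ⟨h2, h3.trans ?_⟩
    apply div_le_div_of_nonneg_right _ (by positivity)
    have h4 : (n : ℝ) * (n : ℝ) ^ ((1 : ℝ) / 3) = (n : ℝ) ^ ((4 : ℝ) / 3) := by
      rw [show (4 : ℝ) / 3 = 1 + 1 / 3 by norm_num, Real.rpow_add hn0, Real.rpow_one]
    calc 4 * (n : ℝ) * Esz n ≤ 4 * (n : ℝ) * (C * (n : ℝ) ^ ((1 : ℝ) / 3)) :=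
          mul_le_mul_of_nonneg_left (h n hn) (by positivity)
      _ = 4 * C * ((n : ℝ) * (n : ℝ) ^ ((1 : ℝ) / 3)) := by ring
      _ = _ := by rw [h4]

/-- the constant of the law of large numbers -/
noncomputable def cz : ℝ := 1 / (2 * Real.sqrt Real.pi)

theorem cz_pos : 0 < cz := by
  unfold cz
  have : 0 < Real.sqrt Real.pi := Real.sqrt_pos.2 Real.pi_pos
  positivity

theorem FF_zero : FF 0 = cz := by
  unfold FF cz
  simp

/-- **law of large numbers in mean square** -/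
theorem lln {R : ℕ → ℝ} (hR : Tendsto R atTop atTop)
    (hR2 : Tendsto (fun n : ℕ => R n / (n : ℝ) ^ ((2 : ℝ) / 3)) atTop (𝓝 0)) :
    Tendsto (fun n : ℕ => ∫ ω, (R n * Real.sqrt (R n) / n * ((Cl n (⌊R n⌋₊ + 1) ω).ncard : ℝ) - cz) ^ 2
      ∂(perc n)) atTop (𝓝 0) := by
  obtain ⟨C, hC, hv⟩ := var_le
  have h1 := Sm_lim le_rfl hR hR2
  rw [FF_zero] at h1
  have h2 : Tendsto (fun n : ℕ => 2 * C * (R n / (n : ℝ) ^ ((2 : ℝ) / 3)) +
      2 * (R n * Real.sqrt (R n) * Sm n (⌊R n⌋₊ + 1) - cz) ^ 2) atTop (𝓝 0) := by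
    have h3 := (hR2.const_mul (2 * C)).add (((h1.sub_const cz).pow 2).const_mul 2)
    simpa using h3
  refine squeeze_zero' (Eventually.of_forall fun n => integral_nonneg fun ω => sq_nonneg _) ?_ h2
  filter_upwards [eventually_ge_atTop 1, hR.eventually_gt_atTop 0] with n hn hRn
  have hn0 : (0 : ℝ) < n := by exact_mod_cast hn
  set K := ⌊R n⌋₊ + 1 with hK
  have hK0 : (0 : ℝ) < K := by rw [hK]; positivity
  have hRK : R n ≤ K := by
    rw [hK]
    push_cast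
    exact (Nat.lt_floor_add_one _).le
  obtain ⟨hI, hV⟩ := hv n K hn (by omega)
  set a := R n * Real.sqrt (R n) / n with ha
  have hs : 0 < Real.sqrt (R n) := Real.sqrt_pos.2 hRn
  have ha0 : 0 < a := by positivity
  have h3 : ∀ ω, (a * ((Cl n K ω).ncard : ℝ) - cz) ^ 2 ≤
      2 * a ^ 2 * (((Cl n K ω).ncard : ℝ) - n * Sm n K) ^ 2 + 2 * (a * (n * Sm n K) - cz) ^ 2 := by
    intro ω
    have : a * ((Cl n K ω).ncard : ℝ) - cz = a * (((Cl n K ω).ncard : ℝ) - n * Sm n K) +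
        (a * (n * Sm n K) - cz) := by ring
    rw [this]
    nlinarith [sq_nonneg (a * (((Cl n K ω).ncard : ℝ) - n * Sm n K) - (a * (n * Sm n K) - cz))]
  have h4 : ∫ ω, (a * ((Cl n K ω).ncard : ℝ) - cz) ^ 2 ∂(perc n) ≤
      ∫ ω, (2 * a ^ 2 * (((Cl n K ω).ncard : ℝ) - n * Sm n K) ^ 2 + 2 * (a * (n * Sm n K) - cz) ^ 2)
        ∂(perc n) := by
    apply integral_mono_of_nonneg (Eventually.of_forall fun ω => sq_nonneg _)
    · exact (hI.const_mul _).add (integrable_const _)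
    · exact Eventually.of_forall h3
  rw [integral_add (hI.const_mul _) (integrable_const _), integral_const_mul, integral_const] at h4
  simp only [probReal_univ, smul_eq_mul, one_mul] at h4
  have h5 : a * (n * Sm n K) = R n * Real.sqrt (R n) * Sm n K := by
    rw [ha]
    field_simp
  rw [h5] at h4
  refine h4.trans ?_
  refine add_le_add ?_ le_rfl
  calc 2 * a ^ 2 * ∫ ω, (((Cl n K ω).ncard : ℝ) - n * Sm n K) ^ 2 ∂(perc n)
      ≤ 2 * a ^ 2 * (C * (n : ℝ) ^ ((4 : ℝ) / 3) / (K : ℝ) ^ 2) :=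
        mul_le_mul_of_nonneg_left hV (by positivity)
    _ ≤ 2 * a ^ 2 * (C * (n : ℝ) ^ ((4 : ℝ) / 3) / (R n) ^ 2) := by
        gcongr
    _ = 2 * C * (R n / (n : ℝ) ^ ((2 : ℝ) / 3)) := by
        have h6 : (n : ℝ) ^ 2 = (n : ℝ) ^ ((4 : ℝ) / 3) * (n : ℝ) ^ ((2 : ℝ) / 3) := by
          rw [← Real.rpow_add hn0, ← Real.rpow_natCast]
          norm_num
        have h7 : a ^ 2 = R n ^ 3 / (n : ℝ) ^ 2 := by
          rw [ha, div_pow, mul_pow, Real.sq_sqrt hRn.le]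
          ring
        rw [h7, h6]
        have hp1 : 0 < (n : ℝ) ^ ((4 : ℝ) / 3) := Real.rpow_pos_of_pos hn0 _
        have hp2 : 0 < (n : ℝ) ^ ((2 : ℝ) / 3) := Real.rpow_pos_of_pos hn0 _
        field_simp

theorem Cl_anti {n k l : ℕ} (h : k ≤ l) (ω : Conf n) : Cl n l ω ⊆ Cl n k ω :=
  fun _ hC => ⟨hC.1, h.trans hC.2⟩

theorem Cl_fin {n : ℕ} (hn : 1 ≤ n) (k : ℕ) (ω : Conf n) : (Cl n k ω).Finite := by
  have : NeZero (2 * n) := ⟨by omega⟩
  exact Set.toFinite _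

/-- the number of boundary vertices of the `r`-th largest boundary cluster -/
noncomputable def rk (n r : ℕ) (ω : Conf n) : ℕ := sSup {k : ℕ | r ≤ (Cl n k ω).ncard}

theorem rk_iff {n r k : ℕ} (hn : 1 ≤ n) (hr : 1 ≤ r) (hk : 1 ≤ k) (ω : Conf n) :
    k ≤ rk n r ω ↔ r ≤ (Cl n k ω).ncard := by
  have hb : BddAbove {k : ℕ | r ≤ (Cl n k ω).ncard} := by
    refine ⟨n, fun m hm => ?_⟩
    by_contra hcon
    rw [Set.mem_ofPred_eq, Cl_empty hn (by omega), Set.ncard_empty] at hm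
    omega
  constructor
  · intro h
    have hne : {k : ℕ | r ≤ (Cl n k ω).ncard}.Nonempty := by
      by_contra hcon
      rw [Set.not_nonempty_iff_eq_empty] at hcon
      unfold rk at h
      rw [hcon, csSup_empty] at h
      simp only [bot_eq_zero', nonpos_iff_eq_zero] at h
      omega
    have h1 := Nat.sSup_mem hne hb
    exact le_trans h1 (Set.ncard_le_ncard (Cl_anti h ω) (Cl_fin hn _ ω))
  · intro h
    exact le_csSup hb h

/-- Chebyshev -/
theorem cheb {R : ℕ → ℝ} (hR : Tendsto R atTop atTop)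
    (hR2 : Tendsto (fun n : ℕ => R n / (n : ℝ) ^ ((2 : ℝ) / 3)) atTop (𝓝 0)) {η : ℝ} (hη : 0 < η) :
    Tendsto (fun n : ℕ => (perc n).real {ω | η ≤
      |R n * Real.sqrt (R n) / n * ((Cl n (⌊R n⌋₊ + 1) ω).ncard : ℝ) - cz|}) atTop (𝓝 0) := by
  have h1 := (lln hR hR2).div_const (η ^ 2)
  rw [zero_div] at h1
  refine squeeze_zero' (Eventually.of_forall fun n => measureReal_nonneg) ?_ h1
  filter_upwards [eventually_ge_atTop 1] with n hn
  set a := R n * Real.sqrt (R n) / n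
  set K := ⌊R n⌋₊ + 1
  have hI : Integrable (fun ω => (a * ((Cl n K ω).ncard : ℝ) - cz) ^ 2) (perc n) := by
    obtain ⟨C, hC, hv⟩ := var_le
    obtain ⟨hI, -⟩ := hv n K hn (by omega)
    have h2 := ((mean_count (k := K) hn (by omega)).1.const_mul (2 * a * (a * (n * Sm n K) - cz))).add
      ((hI.const_mul (a ^ 2)).add (integrable_const ((a * (n * Sm n K) - cz) ^ 2 -
        2 * a * (a * (n * Sm n K) - cz) * (n * Sm n K))))
    refine h2.congr (Eventually.of_forall fun ω => ?_)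
    simp only [Pi.add_apply]
    ring
  have h3 := mul_meas_ge_le_integral_of_nonneg (μ := perc n)
    (Eventually.of_forall fun ω => sq_nonneg (a * ((Cl n K ω).ncard : ℝ) - cz)) hI (η ^ 2)
  rw [le_div_iff₀ (by positivity), mul_comm]
  refine le_trans (le_of_eq ?_) h3
  congr 2
  ext ω
  simp only [Set.mem_ofPred_eq]
  rw [← sq_abs (a * _ - cz)]
  exact (pow_le_pow_iff_left₀ hη.le (abs_nonneg _) two_ne_zero).symm

theorem xx_pow {t : ℝ} (ht : 0 < t) : (t ^ ((2 : ℝ) / 3)) * Real.sqrt (t ^ ((2 : ℝ) / 3)) = t := by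
  rw [Real.sqrt_eq_rpow, ← Real.rpow_mul ht.le, ← Real.rpow_add ht]
  norm_num

/-- the constant of the rank law -/
noncomputable def kz : ℝ := cz ^ ((2 : ℝ) / 3)

theorem kz_pos : 0 < kz := Real.rpow_pos_of_pos cz_pos _

theorem kz_sq : kz * Real.sqrt kz = cz := xx_pow cz_pos

/-- **the ranked sizes** -/
theorem rank_law {r : ℕ → ℕ} (hr : Tendsto r atTop atTop)
    (hr2 : Tendsto (fun n : ℕ => (r n : ℝ) / n) atTop (𝓝 0)) {ε : ℝ} (hε : 0 < ε) :
    Tendsto (fun n : ℕ => (perc n).real {ω | ε ≤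
      |((r n : ℝ) / n) ^ ((2 : ℝ) / 3) * (rk n (r n) ω : ℝ) - kz|}) atTop (𝓝 0) := by
  have hrn : ∀ᶠ n : ℕ in atTop, 1 ≤ n ∧ 1 ≤ r n :=
    (eventually_ge_atTop 1).and (hr.eventually_ge_atTop 1)
  -- the thresholds
  have key : ∀ y : ℝ, 0 < y → Tendsto (fun n : ℕ => y * ((n : ℝ) / r n) ^ ((2 : ℝ) / 3)) atTop atTop ∧
      Tendsto (fun n : ℕ => (y * ((n : ℝ) / r n) ^ ((2 : ℝ) / 3)) / (n : ℝ) ^ ((2 : ℝ) / 3)) atTop (𝓝 0) := by
    intro y hy
    constructor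
    · apply Tendsto.const_mul_atTop hy
      apply (tendsto_rpow_atTop (show (0 : ℝ) < 2 / 3 by norm_num)).comp
      have h1 : Tendsto (fun n : ℕ => ((r n : ℝ) / n)⁻¹) atTop atTop := by
        apply Tendsto.inv_tendsto_nhdsGT_zero
        rw [tendsto_nhdsWithin_iff]
        refine ⟨hr2, ?_⟩
        filter_upwards [hrn] with n hn
        have h1 : (0 : ℝ) < n := by exact_mod_cast hn.1
        have h2 : (0 : ℝ) < r n := by exact_mod_cast hn.2
        exact div_pos h2 h1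
      refine h1.congr fun n => ?_
      rw [inv_div]
    · have h1 : Tendsto (fun n : ℕ => y * ((r n : ℝ) ^ ((2 : ℝ) / 3))⁻¹) atTop (𝓝 0) := by
        have h2 : Tendsto (fun n : ℕ => ((r n : ℝ) ^ ((2 : ℝ) / 3))⁻¹) atTop (𝓝 0) :=
          tendsto_inv_atTop_zero.comp ((tendsto_rpow_atTop (show (0 : ℝ) < 2 / 3 by norm_num)).comp
            (tendsto_natCast_atTop_atTop.comp hr))
        simpa using h2.const_mul y
      refine h1.congr' ?_
      filter_upwards [hrn] with n hn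
      have h1 : (0 : ℝ) < n := by exact_mod_cast hn.1
      have h2 : (0 : ℝ) < r n := by exact_mod_cast hn.2
      rw [Real.div_rpow h1.le h2.le]
      have h3 : 0 < (n : ℝ) ^ ((2 : ℝ) / 3) := Real.rpow_pos_of_pos h1 _
      have h4 : 0 < (r n : ℝ) ^ ((2 : ℝ) / 3) := Real.rpow_pos_of_pos h2 _
      field_simp
  -- the weight
  have wt : ∀ y : ℝ, 0 < y → ∀ n : ℕ, 1 ≤ n → 1 ≤ r n →
      (y * ((n : ℝ) / r n) ^ ((2 : ℝ) / 3)) * Real.sqrt (y * ((n : ℝ) / r n) ^ ((2 : ℝ) / 3)) / n =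
        y * Real.sqrt y / r n := by
    intro y hy n h1 h2
    have h1 : (0 : ℝ) < n := by exact_mod_cast h1
    have h2 : (0 : ℝ) < r n := by exact_mod_cast h2
    have h3 := xx_pow (div_pos h1 h2)
    rw [Real.sqrt_mul hy.le]
    have e : y * ((n : ℝ) / r n) ^ ((2 : ℝ) / 3) * (Real.sqrt y *
        Real.sqrt (((n : ℝ) / r n) ^ ((2 : ℝ) / 3))) = y * Real.sqrt y *
        (((n : ℝ) / r n) ^ ((2 : ℝ) / 3) * Real.sqrt (((n : ℝ) / r n) ^ ((2 : ℝ) / 3))) := by ring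
    rw [e, h3]
    field_simp
  have mono : ∀ x y : ℝ, 0 < x → x < y → x * Real.sqrt x < y * Real.sqrt y := by
    intro x y hx hxy
    have h1 : Real.sqrt x ≤ Real.sqrt y := Real.sqrt_le_sqrt hxy.le
    have h2 : 0 < Real.sqrt x := Real.sqrt_pos.2 hx
    nlinarith
  set e := min ε (kz / 2) with he
  have hk := kz_pos
  have he0 : 0 < e := lt_min hε (by positivity)
  have hek : e < kz := lt_of_le_of_lt (min_le_right _ _) (by linarith)
  -- upper threshold
  set y1 := kz + e / 2 with hy1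
  set y2 := kz - e with hy2
  have hy1p : 0 < y1 := by positivity
  have hy2p : 0 < y2 := by linarith
  set η1 := y1 * Real.sqrt y1 - cz with hη1
  have hη1p : 0 < η1 := by
    have := mono kz y1 hk (by linarith)
    rw [kz_sq] at this
    linarith
  set η2 := cz - y2 * Real.sqrt y2 with hη2
  have hη2p : 0 < η2 := by
    have := mono y2 kz hy2p (by linarith)
    rw [kz_sq] at this
    linarith
  have c1 := cheb (key y1 hy1p).1 (key y1 hy1p).2 hη1p
  have c2 := cheb (key y2 hy2p).1 (key y2 hy2p).2 hη2p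
  have c3 := c1.add c2
  rw [add_zero] at c3
  refine squeeze_zero' (Eventually.of_forall fun n => measureReal_nonneg) ?_ c3
  filter_upwards [hrn] with n hn
  refine le_trans (measureReal_mono ?_ (measure_ne_top _ _)) (measureReal_union_le _ _)
  intro ω hω
  have hω' : e ≤ |((r n : ℝ) / n) ^ ((2 : ℝ) / 3) * (rk n (r n) ω : ℝ) - kz| :=
    (min_le_left _ _).trans hω
  have h1 : (0 : ℝ) < n := by exact_mod_cast hn.1
  have h2 : (0 : ℝ) < r n := by exact_mod_cast hn.2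
  set q := ((n : ℝ) / r n) ^ ((2 : ℝ) / 3) with hq
  have hq0 : 0 < q := Real.rpow_pos_of_pos (div_pos h1 h2) _
  have hqi : ((r n : ℝ) / n) ^ ((2 : ℝ) / 3) = q⁻¹ := by
    rw [hq, ← Real.inv_rpow (by positivity), inv_div]
  rw [hqi] at hω'
  rw [le_abs] at hω'
  rcases hω' with h3 | h3
  · left
    -- the rank is large
    have h4 : y1 * q < (rk n (r n) ω : ℝ) := by
      have h5 : kz + e ≤ q⁻¹ * (rk n (r n) ω : ℝ) := by linarith
      have h6 : (kz + e) * q ≤ (rk n (r n) ω : ℝ) := by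
        have := mul_le_mul_of_nonneg_right h5 hq0.le
        rwa [mul_assoc, mul_comm ((rk n (r n) ω : ℝ)) q, ← mul_assoc, inv_mul_cancel₀ hq0.ne',
          one_mul] at this
      have h7 : y1 * q < (kz + e) * q := mul_lt_mul_of_pos_right (by linarith) hq0
      linarith
    have h5 : ⌊y1 * q⌋₊ + 1 ≤ rk n (r n) ω := by
      have := (Nat.floor_lt (show 0 ≤ y1 * q by positivity)).2 h4
      omega
    have h6 := (rk_iff hn.1 hn.2 (by omega) ω).1 h5
    have h7 : (r n : ℝ) ≤ ((Cl n (⌊y1 * q⌋₊ + 1) ω).ncard : ℝ) := by exact_mod_cast h6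
    show η1 ≤ |y1 * q * Real.sqrt (y1 * q) / n * ((Cl n (⌊y1 * q⌋₊ + 1) ω).ncard : ℝ) - cz|
    rw [wt y1 hy1p n hn.1 hn.2]
    refine le_trans ?_ (le_abs_self _)
    rw [hη1]
    have h8 : y1 * Real.sqrt y1 ≤ y1 * Real.sqrt y1 / r n * ((Cl n (⌊y1 * q⌋₊ + 1) ω).ncard : ℝ) := by
      rw [div_mul_eq_mul_div, le_div_iff₀ h2]
      exact mul_le_mul_of_nonneg_left h7 (by positivity)
    linarith
  · right
    have h4 : (rk n (r n) ω : ℝ) ≤ y2 * q := by
      have h5 : q⁻¹ * (rk n (r n) ω : ℝ) ≤ y2 := by linarith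
      have := mul_le_mul_of_nonneg_right h5 hq0.le
      rwa [mul_assoc, mul_comm ((rk n (r n) ω : ℝ)) q, ← mul_assoc, inv_mul_cancel₀ hq0.ne',
        one_mul] at this
    have h5 : ¬ (⌊y2 * q⌋₊ + 1 ≤ rk n (r n) ω) := by
      intro h6
      have h7 : ((⌊y2 * q⌋₊ : ℕ) : ℝ) + 1 ≤ (rk n (r n) ω : ℝ) := by exact_mod_cast h6
      have := Nat.lt_floor_add_one (y2 * q)
      linarith
    rw [rk_iff hn.1 hn.2 (by omega) ω] at h5
    have h7 : ((Cl n (⌊y2 * q⌋₊ + 1) ω).ncard : ℝ) ≤ (r n : ℝ) := by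
      have : (Cl n (⌊y2 * q⌋₊ + 1) ω).ncard ≤ r n := by omega
      exact_mod_cast this
    show η2 ≤ |y2 * q * Real.sqrt (y2 * q) / n * ((Cl n (⌊y2 * q⌋₊ + 1) ω).ncard : ℝ) - cz|
    rw [wt y2 hy2p n hn.1 hn.2]
    refine le_trans ?_ (neg_le_abs _)
    rw [hη2]
    have h8 : y2 * Real.sqrt y2 / r n * ((Cl n (⌊y2 * q⌋₊ + 1) ω).ncard : ℝ) ≤ y2 * Real.sqrt y2 := by
      rw [div_mul_eq_mul_div, div_le_iff₀ h2]
      exact mul_le_mul_of_nonneg_left h7 (by positivity)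
    linarith

end Pool.Agent.Q291.BC
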