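import Pool.Agent.Q291.BC.BKc
import Pool.Agent.Q291.BC.Abel

/-!
The variance of the number of boundary vertices in large clusters, and of the number of large
boundary clusters.
-/

set_option autoImplicit false

namespace Pool.Agent.Q291.BC

open MeasureTheory H974 H731B Filter Topology

theorem meas_mem {n : ℕ} (hn : 1 ≤ n) (b b' : ZMod (2 * n)) :
    MeasurableSet {ω : Conf n | b' ∈ bc n b ω} := by
  have e : {ω : Conf n | b' ∈ bc n b ω} = ⋃ M, {ω | b' ∈ bK n b (On (cells n hn M) ω)} := by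
    ext ω
    rw [Set.mem_iUnion, Set.mem_ofPred_eq, ← bK_iUnion hn ω b, Set.mem_iUnion]
    rfl
  rw [e]
  exact MeasurableSet.iUnion fun M => meas_event (cells n hn M) (fun K => b' ∈ bK n b K)

theorem big_iff {n : ℕ} (hn : 1 ≤ n) (b : ZMod (2 * n)) (i : ℕ) (ω : Conf n) :
    i ≤ (bc n b ω).ncard ↔ ∃ M, Big n i b (On (cells n hn M) ω) := by
  have : NeZero (2 * n) := ⟨by omega⟩
  constructor
  · intro h
    obtain ⟨M, hM⟩ := bK_ev hn ω b
    refine ⟨M, ?_⟩
    unfold Big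
    rw [hM]
    exact h
  · rintro ⟨M, hM⟩
    exact hM.trans (Set.ncard_le_ncard (bK_sub hn M ω b) (Set.toFinite _))

theorem meas_big {n : ℕ} (hn : 1 ≤ n) (b : ZMod (2 * n)) (i : ℕ) :
    MeasurableSet {ω : Conf n | i ≤ (bc n b ω).ncard} := by
  have e : {ω : Conf n | i ≤ (bc n b ω).ncard} = ⋃ M, {ω | Big n i b (On (cells n hn M) ω)} := by
    ext ω
    rw [Set.mem_iUnion, Set.mem_ofPred_eq, big_iff hn]
    rfl
  rw [e]
  exact MeasurableSet.iUnion fun M => meas_event (cells n hn M) (Big n i b)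

theorem law_big {n : ℕ} (hn : 1 ≤ n) {b : ZMod (2 * n)} (hb : Even b.val) {i : ℕ} (hi : i ≤ n + 1) :
    (perc n).real {ω | i ≤ (bc n b ω).ncard} = tl n i := by
  rw [← law' hn hi]
  have e : {ω : Conf n | i ≤ (bc n b ω).ncard} = sh n b ⁻¹' {ω | i ≤ (bcl n ω).ncard} := by
    ext ω
    rw [Set.mem_preimage, Set.mem_ofPred_eq, Set.mem_ofPred_eq, ncard_sh hn hb]
  rw [e, measureReal_def, (sh_mp n b).measure_preimage (meas_bcl hn i).nullMeasurableSet,
    measureReal_def]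

/-- two distinct large clusters -/
def Dst (n i : ℕ) (b b' : ZMod (2 * n)) : Set (Conf n) :=
  {ω | i ≤ (bc n b ω).ncard ∧ i ≤ (bc n b' ω).ncard ∧ b' ∉ bc n b ω}

theorem meas_Dst {n : ℕ} (hn : 1 ≤ n) (i : ℕ) (b b' : ZMod (2 * n)) : MeasurableSet (Dst n i b b') :=
  (meas_big hn b i).inter ((meas_big hn b' i).inter (meas_mem hn b b').compl)

theorem two_distinct {n : ℕ} (hn : 1 ≤ n) {b b' : ZMod (2 * n)} (hb : Even b.val)
    (hb' : Even b'.val) {i : ℕ} (hi : i ≤ n + 1) :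
    (perc n).real (Dst n i b b') ≤ tl n i * tl n i := by
  have : NeZero (2 * n) := ⟨by omega⟩
  set EM : ℕ → Set (Conf n) := fun M => {ω | Big n i b (On (cells n hn M) ω) ∧
    Big n i b' (On (cells n hn M) ω) ∧ b' ∉ bc n b ω} with hEM
  have h0 : 0 ≤ tl n i := tl_nonneg n i hn
  have hmono : Monotone EM := by
    intro M M' h ω hω
    obtain ⟨h1, h2, h3⟩ := hω
    exact ⟨h1.trans (Set.ncard_le_ncard (bK_mono_M hn ω b h) (Set.toFinite _)),
      h2.trans (Set.ncard_le_ncard (bK_mono_M hn ω b' h) (Set.toFinite _)), h3⟩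
  have hU : Dst n i b b' = ⋃ M, EM M := by
    ext ω
    rw [Set.mem_iUnion]
    constructor
    · rintro ⟨h1, h2, h3⟩
      obtain ⟨M1, hM1⟩ := (big_iff hn b i ω).1 h1
      obtain ⟨M2, hM2⟩ := (big_iff hn b' i ω).1 h2
      refine ⟨max M1 M2, ?_, ?_, h3⟩
      · exact hM1.trans (Set.ncard_le_ncard (bK_mono_M hn ω b (le_max_left _ _)) (Set.toFinite _))
      · exact hM2.trans (Set.ncard_le_ncard (bK_mono_M hn ω b' (le_max_right _ _)) (Set.toFinite _))
    · rintro ⟨M, h1, h2, h3⟩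
      exact ⟨(big_iff hn b i ω).2 ⟨M, h1⟩, (big_iff hn b' i ω).2 ⟨M, h2⟩, h3⟩
  have hM : ∀ M, (perc n) (EM M) ≤ ENNReal.ofReal (tl n i * tl n i) := by
    intro M
    have h1 : (perc n).real (EM M) ≤ tl n i * tl n i := by
      have h2 : (perc n).real (EM M) ≤
          (perc n).real {ω | DisjOcc (Big n i b) (Big n i b') (On (cells n hn M) ω)} := by
        refine measureReal_mono ?_ (measure_ne_top _ _)
        rintro ω ⟨h1, h2, h3⟩
        exact occ h1 h2 (fun h => h3 (bK_sub hn M ω b h))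
      have h3 := coins_bk (cells n hn M) (Big_incr hn i b (cells n hn M))
        (Big_incr hn i b' (cells n hn M))
      rw [← perc_coins] at h3
      refine h2.trans (h3.trans ?_)
      have h4 : (perc n).real {ω | Big n i b (On (cells n hn M) ω)} ≤ tl n i := by
        rw [← law_big hn hb hi]
        exact measureReal_mono (fun ω hω => (big_iff hn b i ω).2 ⟨M, hω⟩) (measure_ne_top _ _)
      have h5 : (perc n).real {ω | Big n i b' (On (cells n hn M) ω)} ≤ tl n i := by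
        rw [← law_big hn hb' hi]
        exact measureReal_mono (fun ω hω => (big_iff hn b' i ω).2 ⟨M, hω⟩) (measure_ne_top _ _)
      exact mul_le_mul h4 h5 measureReal_nonneg h0
    rw [← ofReal_measureReal (measure_ne_top _ _)]
    exact ENNReal.ofReal_le_ofReal h1
  have h1 : (perc n) (Dst n i b b') ≤ ENNReal.ofReal (tl n i * tl n i) := by
    rw [hU]
    exact le_of_tendsto' (tendsto_measure_iUnion_atTop hmono) hM
  rw [measureReal_def]
  exact ENNReal.toReal_le_of_le_ofReal (by positivity) h1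

/-- the indicator of a large cluster -/
noncomputable def XX (n j : ℕ) (b : ZMod (2 * n)) (ω : Conf n) : ℝ :=
  {ω : Conf n | j ≤ (bc n b ω).ncard}.indicator (fun _ => (1 : ℝ)) ω

/-- the number of boundary vertices in clusters with at least `j` boundary vertices -/
noncomputable def MM (n j : ℕ) (ω : Conf n) : ℝ := ∑ b ∈ bnd n, XX n j b ω

theorem XX_int {n : ℕ} (hn : 1 ≤ n) (j : ℕ) (b : ZMod (2 * n)) : Integrable (XX n j b) (perc n) :=
  (integrable_const _).indicator (meas_big hn b j)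

theorem XX_mean {n : ℕ} (hn : 1 ≤ n) {j : ℕ} (hj : j ≤ n + 1) {b : ZMod (2 * n)} (hb : Even b.val) :
    ∫ ω, XX n j b ω ∂(perc n) = tl n j := by
  unfold XX
  rw [integral_indicator_const _ (meas_big hn b j), law_big hn hb hj, smul_eq_mul, mul_one]

theorem MM_int {n : ℕ} (hn : 1 ≤ n) (j : ℕ) : Integrable (MM n j) (perc n) :=
  integrable_finsetSum _ fun b _ => XX_int hn j b

theorem MM_mean {n : ℕ} (hn : 1 ≤ n) {j : ℕ} (hj : j ≤ n + 1) :
    ∫ ω, MM n j ω ∂(perc n) = n * tl n j := by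
  unfold MM
  rw [integral_finsetSum _ fun b _ => XX_int hn j b,
    Finset.sum_congr rfl fun b hb => XX_mean hn hj ((mem_bnd hn).1 hb), Finset.sum_const,
    card_bnd hn, nsmul_eq_mul]

/-- the indicator of connection -/
noncomputable def CC (n : ℕ) (b b' : ZMod (2 * n)) (ω : Conf n) : ℝ :=
  {ω : Conf n | b' ∈ bc n b ω}.indicator (fun _ => (1 : ℝ)) ω

/-- the indicator of two distinct large clusters -/
noncomputable def DD' (n i : ℕ) (b b' : ZMod (2 * n)) (ω : Conf n) : ℝ :=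
  (Dst n i b b').indicator (fun _ => (1 : ℝ)) ω

theorem XX_mul {n : ℕ} (j : ℕ) (b b' : ZMod (2 * n)) (ω : Conf n) :
    XX n j b ω * XX n j b' ω ≤ DD' n j b b' ω + CC n b b' ω := by
  unfold XX DD' CC Dst
  simp only [Set.indicator_apply, Set.mem_ofPred_eq]
  by_cases h1 : j ≤ (bc n b ω).ncard <;> by_cases h2 : j ≤ (bc n b' ω).ncard <;>
    by_cases h3 : b' ∈ bc n b ω <;> simp [h1, h2, h3]

theorem CC_sum {n : ℕ} (hn : 1 ≤ n) {b : ZMod (2 * n)} (hb : Even b.val) (ω : Conf n) :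
    ∑ b' ∈ bnd n, CC n b b' ω = ((bc n b ω).ncard : ℝ) := by
  classical
  have : NeZero (2 * n) := ⟨by omega⟩
  unfold CC
  simp only [Set.indicator_apply, Set.mem_ofPred_eq]
  rw [Finset.sum_ite, Finset.sum_const_zero, add_zero, Finset.sum_const, nsmul_eq_mul, mul_one]
  congr 1
  have e : (((bnd n).filter fun b' => b' ∈ bc n b ω : Finset (ZMod (2 * n))) : Set (ZMod (2 * n))) =
      bc n b ω := by
    ext c
    rw [Finset.mem_coe, Finset.mem_filter, mem_bnd hn]
    refine ⟨fun h => h.2, fun h => ⟨?_, h⟩⟩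
    have h1 := parity hn ω (b, 0) (c, 0) h
    simp only [add_zero] at h1
    exact h1.1 hb
  rw [← Set.ncard_coe_finset, e]

/-- the mean size of a boundary cluster -/
noncomputable def Esz (n : ℕ) : ℝ := ∫ ω, ((bcl n ω).ncard : ℝ) ∂(perc n)

theorem size_int {n : ℕ} (hn : 1 ≤ n) {b : ZMod (2 * n)} (hb : Even b.val) :
    Integrable (fun ω => ((bc n b ω).ncard : ℝ)) (perc n) := by
  have e : (fun ω => ((bc n b ω).ncard : ℝ)) = fun ω => ∑ b' ∈ bnd n, CC n b b' ω := by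
    funext ω
    exact (CC_sum hn hb ω).symm
  rw [e]
  exact integrable_finsetSum _ fun b' _ => (integrable_const _).indicator (meas_mem hn b b')

theorem size_mean {n : ℕ} (hn : 1 ≤ n) {b : ZMod (2 * n)} (hb : Even b.val) :
    ∫ ω, ((bc n b ω).ncard : ℝ) ∂(perc n) = Esz n := by
  have e : (fun ω => ((bc n b ω).ncard : ℝ)) = (fun ω => ((bcl n ω).ncard : ℝ)) ∘ sh n b := by
    funext ω
    simp only [Function.comp_apply, ncard_sh hn hb]
  have h1 : Integrable (fun ω => ((bcl n ω).ncard : ℝ)) (perc n) := by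
    have := size_int hn (b := 0) (by simp)
    exact this
  unfold Esz
  rw [e]
  have h4 := integral_map (μ := perc n) (sh_mp n b).measurable.aemeasurable
    (f := fun ω => ((bcl n ω).ncard : ℝ)) (by rw [(sh_mp n b).map_eq]; exact h1.aestronglyMeasurable)
  rw [(sh_mp n b).map_eq] at h4
  exact h4.symm

theorem MM_nonneg (n j : ℕ) (ω : Conf n) : 0 ≤ MM n j ω :=
  Finset.sum_nonneg fun b _ => Set.indicator_nonneg (fun _ _ => zero_le_one) ω

theorem MM_sq_eq (n j : ℕ) (ω : Conf n) :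
    MM n j ω ^ 2 = ∑ b ∈ bnd n, ∑ b' ∈ bnd n, XX n j b ω * XX n j b' ω := by
  unfold MM
  rw [sq, Finset.sum_mul_sum]

theorem XX_mul_int {n : ℕ} (hn : 1 ≤ n) (j : ℕ) (b b' : ZMod (2 * n)) :
    Integrable (fun ω => XX n j b ω * XX n j b' ω) (perc n) := by
  have e : (fun ω => XX n j b ω * XX n j b' ω) =
      ({ω : Conf n | j ≤ (bc n b ω).ncard} ∩ {ω : Conf n | j ≤ (bc n b' ω).ncard}).indicator
        (fun _ => (1 : ℝ)) := by
    funext ω
    unfold XX
    simp only [Set.indicator_apply, Set.mem_inter_iff]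
    by_cases h1 : ω ∈ {ω : Conf n | j ≤ (bc n b ω).ncard} <;>
      by_cases h2 : ω ∈ {ω : Conf n | j ≤ (bc n b' ω).ncard} <;> simp [h1, h2]
  rw [e]
  exact (integrable_const _).indicator ((meas_big hn b j).inter (meas_big hn b' j))

theorem MM_sq_int {n : ℕ} (hn : 1 ≤ n) (j : ℕ) : Integrable (fun ω => MM n j ω ^ 2) (perc n) := by
  have e : (fun ω => MM n j ω ^ 2) = fun ω => ∑ b ∈ bnd n, ∑ b' ∈ bnd n, XX n j b ω * XX n j b' ω := by
    funext ω
    exact MM_sq_eq n j ω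
  rw [e]
  exact integrable_finsetSum _ fun b _ => integrable_finsetSum _ fun b' _ => XX_mul_int hn j b b'

theorem MM_sq {n : ℕ} (hn : 1 ≤ n) {j : ℕ} (hj : j ≤ n + 1) :
    ∫ ω, MM n j ω ^ 2 ∂(perc n) ≤ (n * tl n j) ^ 2 + n * Esz n := by
  have hD : ∀ b b' : ZMod (2 * n), Integrable (DD' n j b b') (perc n) := fun b b' =>
    (integrable_const _).indicator (meas_Dst hn j b b')
  have h1 : ∀ ω, MM n j ω ^ 2 ≤ ∑ b ∈ bnd n, (∑ b' ∈ bnd n, DD' n j b b' ω + ((bc n b ω).ncard : ℝ)) := by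
    intro ω
    rw [MM_sq_eq]
    apply Finset.sum_le_sum
    intro b hb
    rw [← CC_sum hn ((mem_bnd hn).1 hb) ω, ← Finset.sum_add_distrib]
    exact Finset.sum_le_sum fun b' _ => XX_mul j b b' ω
  have h2 : ∫ ω, MM n j ω ^ 2 ∂(perc n) ≤
      ∫ ω, ∑ b ∈ bnd n, (∑ b' ∈ bnd n, DD' n j b b' ω + ((bc n b ω).ncard : ℝ)) ∂(perc n) := by
    apply integral_mono (MM_sq_int hn j) _ h1
    refine integrable_finsetSum _ fun b hb => Integrable.add ?_ (size_int hn ((mem_bnd hn).1 hb))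
    exact integrable_finsetSum _ fun b' _ => hD b b'
  refine h2.trans ?_
  have hS : ∀ b ∈ bnd n, Integrable (fun ω => ∑ b' ∈ bnd n, DD' n j b b' ω + ((bc n b ω).ncard : ℝ))
      (perc n) := fun b hb => Integrable.add
    (integrable_finsetSum _ fun b' _ => hD b b') (size_int hn ((mem_bnd hn).1 hb))
  rw [integral_finsetSum _ hS]
  have h3 : ∀ b ∈ bnd n, ∫ ω, (∑ b' ∈ bnd n, DD' n j b b' ω + ((bc n b ω).ncard : ℝ)) ∂(perc n) ≤
      n * (tl n j * tl n j) + Esz n := by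
    intro b hb
    rw [integral_add (integrable_finsetSum _ fun b' _ => hD b b') (size_int hn ((mem_bnd hn).1 hb)),
      size_mean hn ((mem_bnd hn).1 hb), integral_finsetSum _ fun b' _ => hD b b']
    have h4 : ∑ b' ∈ bnd n, ∫ ω, DD' n j b b' ω ∂(perc n) ≤ ∑ b' ∈ bnd n, tl n j * tl n j := by
      apply Finset.sum_le_sum
      intro b' hb'
      unfold DD'
      rw [integral_indicator_const _ (meas_Dst hn j b b'), smul_eq_mul, mul_one]
      exact two_distinct hn ((mem_bnd hn).1 hb) ((mem_bnd hn).1 hb') hj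
    rw [Finset.sum_const, card_bnd hn, nsmul_eq_mul] at h4
    linarith
  refine (Finset.sum_le_sum h3).trans ?_
  rw [Finset.sum_const, card_bnd hn, nsmul_eq_mul]
  apply le_of_eq
  ring

/-- **variance of the number of boundary vertices in large clusters** -/
theorem MM_var {n : ℕ} (hn : 1 ≤ n) {j : ℕ} (hj : j ≤ n + 1) :
    ∫ ω, (MM n j ω - n * tl n j) ^ 2 ∂(perc n) ≤ n * Esz n := by
  have e : ∀ ω, (MM n j ω - n * tl n j) ^ 2 =
      MM n j ω ^ 2 + (-(2 * (n * tl n j)) * MM n j ω + (n * tl n j) ^ 2) := by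
    intro ω
    ring
  simp only [e]
  have hi : Integrable (fun ω => -(2 * (n * tl n j)) * MM n j ω) (perc n) :=
    (MM_int hn j).const_mul _
  have hi2 : Integrable (fun ω => -(2 * (n * tl n j)) * MM n j ω + (n * tl n j) ^ 2) (perc n) :=
    hi.add (integrable_const _)
  rw [integral_add (MM_sq_int hn j) hi2,
    integral_add hi (integrable_const _), integral_const_mul, MM_mean hn hj, integral_const]
  simp only [probReal_univ, smul_eq_mul, one_mul]
  have := MM_sq hn hj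
  nlinarith

theorem MM_var_int {n : ℕ} (hn : 1 ≤ n) (j : ℕ) (c : ℝ) :
    Integrable (fun ω => (MM n j ω - c) ^ 2) (perc n) := by
  have e : (fun ω => (MM n j ω - c) ^ 2) = fun ω => MM n j ω ^ 2 + (-(2 * c) * MM n j ω + c ^ 2) := by
    funext ω
    ring
  rw [e]
  exact (MM_sq_int hn j).add (((MM_int hn j).const_mul _).add (integrable_const _))

/-- the number of clusters from the numbers of vertices -/
theorem count_MM {n : ℕ} (hn : 1 ≤ n) {k : ℕ} (hk : 1 ≤ k) (hkn : k ≤ n) (ω : Conf n) :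
    ((Cl n k ω).ncard : ℝ) = MM n k ω / k - ∑ i ∈ Finset.Ico k n,
      MM n (i + 1) ω / ((i : ℝ) * ((i : ℝ) + 1)) := by
  have hsz : ∀ b ∈ bnd n, (bc n b ω).ncard ≤ n ∧ 1 ≤ (bc n b ω).ncard := by
    intro b hb
    rw [ncard_sh hn ((mem_bnd hn).1 hb)]
    exact ⟨ncard_le hn _, one_pos_ncard hn _⟩
  have h1 : ∀ b ∈ bnd n, (if k ≤ (bc n b ω).ncard then (1 : ℝ) / ((bc n b ω).ncard : ℝ) else 0) =
      ∑ j ∈ Finset.Icc k n, (XX n j b ω - XX n (j + 1) b ω) / (j : ℝ) := by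
    intro b hb
    rw [tele hk (hsz b hb).1 (hsz b hb).2]
    refine Finset.sum_congr rfl fun j _ => ?_
    unfold XX
    simp only [Set.indicator_apply, Set.mem_ofPred_eq]
    ring
  rw [count_eq hn ω, Finset.sum_congr rfl h1, Finset.sum_comm]
  have h2 : ∀ j ∈ Finset.Icc k n, ∑ b ∈ bnd n, (XX n j b ω - XX n (j + 1) b ω) / (j : ℝ) =
      (MM n j ω - MM n (j + 1) ω) / (j : ℝ) := by
    intro j _
    unfold MM
    rw [← Finset.sum_div, Finset.sum_sub_distrib]
  rw [Finset.sum_congr rfl h2, abel_gen (fun j => MM n j ω) hk n hkn]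
  have h3 : MM n (n + 1) ω = 0 := by
    unfold MM
    apply Finset.sum_eq_zero
    intro b hb
    unfold XX
    rw [Set.indicator_of_notMem]
    have := (hsz b hb).1
    simp only [Set.mem_ofPred_eq]
    omega
  rw [h3]
  ring

theorem sum_w {k n : ℕ} (hk : 1 ≤ k) (hkn : k ≤ n) :
    ∑ i ∈ Finset.Ico k n, 1 / ((i : ℝ) * ((i : ℝ) + 1)) ≤ 1 / k := by
  have h : ∀ n, k ≤ n → ∑ i ∈ Finset.Ico k n, 1 / ((i : ℝ) * ((i : ℝ) + 1)) = 1 / k - 1 / n := by
    intro n hn
    induction n, hn using Nat.le_induction with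
    | base => simp
    | succ n hn ih =>
      rw [Finset.sum_Ico_succ_top hn, ih]
      have h0 : (n : ℝ) ≠ 0 := by
        have : 0 < n := by omega
        positivity
      push_cast
      field_simp
      ring
  rw [h n hkn]
  have : (0 : ℝ) ≤ 1 / n := by positivity
  linarith

/-- **variance of the number of large boundary clusters** -/
theorem count_var {n : ℕ} (hn : 1 ≤ n) {k : ℕ} (hk : 1 ≤ k) (hkn : k ≤ n) :
    Integrable (fun ω => (((Cl n k ω).ncard : ℝ) - n * Sm n k) ^ 2) (perc n) ∧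
    ∫ ω, (((Cl n k ω).ncard : ℝ) - n * Sm n k) ^ 2 ∂(perc n) ≤ 4 * n * Esz n / k ^ 2 := by
  have hk0 : (0 : ℝ) < k := by exact_mod_cast hk
  set D : ℕ → Conf n → ℝ := fun j ω => MM n j ω - n * tl n j with hD
  have e1 : ∀ ω, ((Cl n k ω).ncard : ℝ) - n * Sm n k = D k ω / k - ∑ i ∈ Finset.Ico k n,
      D (i + 1) ω / ((i : ℝ) * ((i : ℝ) + 1)) := by
    intro ω
    rw [count_MM hn hk hkn, Sm_eq hk hkn, hD]
    simp only
    have : ∑ i ∈ Finset.Ico k n, (MM n (i + 1) ω - n * tl n (i + 1)) / ((i : ℝ) * ((i : ℝ) + 1)) =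
        ∑ i ∈ Finset.Ico k n, MM n (i + 1) ω / ((i : ℝ) * ((i : ℝ) + 1)) -
        n * ∑ i ∈ Finset.Ico k n, tl n (i + 1) / ((i : ℝ) * ((i : ℝ) + 1)) := by
      rw [Finset.mul_sum, ← Finset.sum_sub_distrib]
      refine Finset.sum_congr rfl fun i _ => ?_
      ring
    rw [this]
    ring
  have h2 : ∀ ω, (((Cl n k ω).ncard : ℝ) - n * Sm n k) ^ 2 ≤ 2 / k * (D k ω ^ 2 / k +
      ∑ i ∈ Finset.Ico k n, D (i + 1) ω ^ 2 / ((i : ℝ) * ((i : ℝ) + 1))) := by
    intro ω
    rw [e1 ω]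
    have h3 : (∑ i ∈ Finset.Ico k n, D (i + 1) ω / ((i : ℝ) * ((i : ℝ) + 1))) ^ 2 ≤
        (∑ i ∈ Finset.Ico k n, 1 / ((i : ℝ) * ((i : ℝ) + 1))) *
        ∑ i ∈ Finset.Ico k n, D (i + 1) ω ^ 2 / ((i : ℝ) * ((i : ℝ) + 1)) := by
      refine Finset.sum_sq_le_sum_mul_sum_of_sq_le_mul _ (fun i hi => by positivity)
        (fun i hi => by positivity) (fun i hi => ?_)
      have hi1 := (Finset.mem_Ico.1 hi).1
      have : (i : ℝ) ≠ 0 := by
        have : 0 < i := by omega
        positivity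
      apply le_of_eq
      field_simp
    have h4 : (∑ i ∈ Finset.Ico k n, D (i + 1) ω / ((i : ℝ) * ((i : ℝ) + 1))) ^ 2 ≤
        1 / k * ∑ i ∈ Finset.Ico k n, D (i + 1) ω ^ 2 / ((i : ℝ) * ((i : ℝ) + 1)) :=
      h3.trans (mul_le_mul_of_nonneg_right (sum_w hk hkn)
        (Finset.sum_nonneg fun i _ => by positivity))
    set S := ∑ i ∈ Finset.Ico k n, D (i + 1) ω / ((i : ℝ) * ((i : ℝ) + 1))
    set Q := ∑ i ∈ Finset.Ico k n, D (i + 1) ω ^ 2 / ((i : ℝ) * ((i : ℝ) + 1))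
    have h5 : (D k ω / k - S) ^ 2 ≤ 2 * ((D k ω / k) ^ 2 + S ^ 2) := by
      nlinarith [sq_nonneg (D k ω / k + S)]
    have h6 : 2 / k * (D k ω ^ 2 / k + Q) = 2 * ((D k ω / k) ^ 2 + 1 / k * Q) := by
      field_simp
    rw [h6]
    linarith
  have hI : Integrable (fun ω => 2 / k * (D k ω ^ 2 / k +
      ∑ i ∈ Finset.Ico k n, D (i + 1) ω ^ 2 / ((i : ℝ) * ((i : ℝ) + 1)))) (perc n) := by
    apply Integrable.const_mul
    apply Integrable.add ((MM_var_int hn k _).div_const _)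
    exact integrable_finsetSum _ fun i _ => (MM_var_int hn (i + 1) _).div_const _
  have hI2 : Integrable (fun ω => (((Cl n k ω).ncard : ℝ) - n * Sm n k) ^ 2) (perc n) := by
    refine hI.mono' ?_ (Eventually.of_forall fun ω => ?_)
    · exact ((mean_count hn hk).1.aestronglyMeasurable.sub aestronglyMeasurable_const).pow 2
    · rw [Real.norm_of_nonneg (sq_nonneg _)]
      exact h2 ω
  refine ⟨hI2, (integral_mono hI2 hI h2).trans ?_⟩
  rw [integral_const_mul, integral_add ((MM_var_int hn k _).div_const _)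
    (integrable_finsetSum _ fun i _ => (MM_var_int hn (i + 1) _).div_const _),
    integral_finsetSum _ (fun i _ => (MM_var_int hn (i + 1) _).div_const _), integral_div]
  have h7 : ∑ i ∈ Finset.Ico k n, ∫ ω, D (i + 1) ω ^ 2 / ((i : ℝ) * ((i : ℝ) + 1)) ∂(perc n) ≤
      ∑ i ∈ Finset.Ico k n, (n * Esz n) * (1 / ((i : ℝ) * ((i : ℝ) + 1))) := by
    apply Finset.sum_le_sum
    intro i hi
    rw [Finset.mem_Ico] at hi
    rw [integral_div, mul_one_div]
    exact div_le_div_of_nonneg_right (MM_var hn (by omega)) (by positivity)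
  have hE : 0 ≤ n * Esz n := by
    have h8 : 0 ≤ Esz n := integral_nonneg fun ω => Nat.cast_nonneg _
    positivity
  rw [← Finset.mul_sum] at h7
  have h8 := mul_le_mul_of_nonneg_left (sum_w hk hkn) hE
  have h9 := div_le_div_of_nonneg_right (MM_var hn (show k ≤ n + 1 by omega)) hk0.le
  have h10 : (∫ ω, D k ω ^ 2 ∂(perc n)) / k + ∑ i ∈ Finset.Ico k n,
      ∫ ω, D (i + 1) ω ^ 2 / ((i : ℝ) * ((i : ℝ) + 1)) ∂(perc n) ≤ 2 * (n * Esz n) / k := by
    calc _ ≤ n * Esz n / k + n * Esz n * (1 / k) := add_le_add h9 (h7.trans h8)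
      _ = _ := by ring
  calc _ ≤ 2 / (k : ℝ) * (2 * (n * Esz n) / k) := mul_le_mul_of_nonneg_left h10 (by positivity)
    _ = _ := by
      field_simp
      ring

end Pool.Agent.Q291.BC
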